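import Pool.Agent.H64.OC2.Asymp

/-!
# On-line colouring, the oblivious random adversary: the choice of the parameters (T8)
-/

set_option autoImplicit false

namespace Pool.Agent.H43.RO

open Pool.Agent.H64.OC2

theorem small_log {k : ℕ} (hk : 11 ≤ k) : 128 * k + 384 ≤ 2 ^ k := by
  induction k, hk using Nat.le_induction with
  | base => norm_num
  | succ k hk ih =>
    rw [pow_succ]
    omega

/-- T8 -/
theorem asy {ε : ℝ} (hε : 0 < ε) : ∃ n0 : ℕ, ∀ n ≥ n0, ∃ (T L θ K : ℕ), 1 ≤ T ∧ 2 ≤ θ ∧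
    Fam (L + 1) (2 * (32 * θ)) ∧ T * (16 * T) ^ (L + 1) ≤ n ∧
    (T : ℝ) * (K * (((16 * T : ℕ) : ℝ) ^ (L + 1) + 1) * Real.exp (-(θ : ℝ))) ≤ 1 / 8 ∧
    72 * K * θ ^ 2 < T ∧ 2 * (n : ℝ) ^ (1 / ((1 + ε) * (logStar n : ℝ))) ≤ K := by
  set c : ℝ := ε / (2 * (1 + ε)) with hc
  have hc0 : 0 < c := by positivity
  obtain ⟨t0, ht0⟩ := exists_large (882 / c ^ 2)
  obtain ⟨t1, ht1⟩ := exists_nat_ge (8 / ε)
  refine ⟨max (tower (t0 + t1 + 3) + 1) 2048, fun n hn => ?_⟩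
  have hn2048 : 2048 ≤ n := (le_max_right _ _).trans hn
  have ht : t0 + t1 + 3 < logStar n := lt_logStar_of_tower_lt ((le_max_left _ _).trans hn)
  obtain ⟨t, htdef⟩ : ∃ t, t = logStar n := ⟨_, rfl⟩
  rw [← htdef] at ht ⊢
  have hn1 : (1 : ℝ) ≤ n := by
    have : 1 ≤ n := by omega
    exact_mod_cast this
  have hn0 : (0 : ℝ) < n := by linarith
  have htpos : (0 : ℝ) < t := by
    have : 0 < t := by omega
    exact_mod_cast this
  obtain ⟨k, hk11, hkn, hkn2⟩ : ∃ k : ℕ, 11 ≤ k ∧ 2 ^ k ≤ n ∧ n < 2 ^ (k + 1) := by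
    refine ⟨Nat.log 2 n, ?_, Nat.pow_log_le_self 2 (by omega), Nat.lt_pow_succ_log_self (by norm_num) n⟩
    have : 2 ^ 11 ≤ n := by norm_num; exact hn2048
    exact Nat.le_log_of_pow_le (by norm_num) this
  obtain ⟨θ, hθ⟩ : ∃ θ : ℕ, θ = 2 * k + 6 := ⟨_, rfl⟩
  set ℓ : ℝ := Real.log n with hℓ
  have hl2 : Real.log 2 ≤ 3 / 4 := by
    have := Real.log_two_lt_d9
    linarith
  have hl20 : 2 / 3 ≤ Real.log 2 := by
    have := Real.log_two_gt_d9
    linarith
  -- the tower bound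
  obtain ⟨s, hs⟩ : ∃ s, t = s + 3 := ⟨t - 3, by omega⟩
  have hs0 : t0 ≤ s := by omega
  have h4 : tower (s + 2) < n := tower_lt_of_lt_logStar (by omega)
  have hfam : Fam (t + 3) n := by
    rw [htdef]; exact fam_logStar n
  clear hn hn2048 htdef
  have h5 : (2 : ℝ) ^ s * (1 / 2) ≤ ℓ := by
    have h6 : (2 : ℝ) ^ (2 ^ s) ≤ n := by
      have h7 : 2 ^ (2 ^ s) ≤ tower (s + 2) := by
        show 2 ^ (2 ^ s) ≤ 2 ^ tower (s + 1)
        exact Nat.pow_le_pow_right (by norm_num) (two_pow_le_tower s)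
      exact_mod_cast h7.trans h4.le
    have h7 := Real.log_le_log (by positivity) h6
    rw [Real.log_pow] at h7
    push_cast at h7
    have h8 : (0 : ℝ) ≤ 2 ^ s := by positivity
    exact (mul_le_mul_of_nonneg_left (by linarith) h8).trans h7
  have hkl : (k : ℝ) * Real.log 2 ≤ ℓ := by
    have h6 : (2 : ℝ) ^ k ≤ n := by exact_mod_cast hkn
    have h7 := Real.log_le_log (by positivity) h6
    rwa [Real.log_pow] at h7
  have hk0 : (11 : ℝ) ≤ k := by exact_mod_cast hk11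
  have hkl2 : (k : ℝ) * (2 / 3) ≤ ℓ :=
    (mul_le_mul_of_nonneg_left hl20 (by linarith)).trans hkl
  have hℓ1 : 1 ≤ ℓ := by linarith
  have hθℓ : (θ : ℝ) ≤ 9 * ℓ := by
    rw [hθ]; push_cast; linarith
  have hθ0 : (28 : ℝ) ≤ θ := by
    rw [hθ]; push_cast; linarith
  -- the logarithm of θ
  have hlogθ : 9 + 2 * Real.log θ ≤ 21 * Real.sqrt ℓ := by
    have h6 : Real.log θ ≤ 2 * (3 * Real.sqrt ℓ) := by
      have h7 : Real.log θ ≤ Real.log (9 * ℓ) := Real.log_le_log (by linarith) hθℓ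
      have h8 : (9 : ℝ) * ℓ = (3 * Real.sqrt ℓ) ^ 2 := by
        rw [mul_pow, Real.sq_sqrt (by linarith)]; norm_num
      have h9 : Real.log (3 * Real.sqrt ℓ) ≤ 3 * Real.sqrt ℓ - 1 :=
        Real.log_le_sub_one_of_pos (by positivity)
      rw [h8, Real.log_pow] at h7
      push_cast at h7
      linarith
    have h7 : 1 ≤ Real.sqrt ℓ := Real.one_le_sqrt.2 hℓ1
    linarith
  have hmain : ((t : ℝ) + 4) * (9 + 2 * Real.log θ) ≤ c * ℓ := by
    have h6 := ht0 s hs0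
    have h7 : (t : ℝ) + 4 = s + 7 := by
      rw [hs]; push_cast; ring
    have h8 : 441 * ((s : ℝ) + 7) ^ 2 ≤ c ^ 2 * ℓ := by
      have h9 : 882 / c ^ 2 * ((s : ℝ) + 7) ^ 2 * (1 / 2) ≤ ℓ :=
        (mul_le_mul_of_nonneg_right h6 (by norm_num)).trans h5
      have h10 := mul_le_mul_of_nonneg_left h9 (sq_nonneg c)
      have h11 : c ^ 2 * (882 / c ^ 2 * ((s : ℝ) + 7) ^ 2 * (1 / 2)) = 441 * ((s : ℝ) + 7) ^ 2 := by
        field_simp
        norm_num
      rw [h11] at h10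
      exact h10
    have h9 : 21 * ((s : ℝ) + 7) ≤ c * Real.sqrt ℓ := by
      have h10 : (21 * ((s : ℝ) + 7)) ^ 2 ≤ (c * Real.sqrt ℓ) ^ 2 := by
        rw [mul_pow c, Real.sq_sqrt (by linarith)]
        have : (21 * ((s : ℝ) + 7)) ^ 2 = 441 * ((s : ℝ) + 7) ^ 2 := by ring
        rw [this]
        exact h8
      exact le_of_sq_le_sq h10 (by positivity)
    rw [h7]
    calc ((s : ℝ) + 7) * (9 + 2 * Real.log θ) ≤ ((s : ℝ) + 7) * (21 * Real.sqrt ℓ) :=
          mul_le_mul_of_nonneg_left hlogθ (by positivity)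
      _ = (21 * ((s : ℝ) + 7)) * Real.sqrt ℓ := by ring
      _ ≤ (c * Real.sqrt ℓ) * Real.sqrt ℓ := mul_le_mul_of_nonneg_right h9 (Real.sqrt_nonneg _)
      _ = c * ℓ := by rw [mul_assoc, Real.mul_self_sqrt (by linarith)]
  -- the numbers x and y
  set y : ℝ := (n : ℝ) ^ (1 / ((1 + ε) * (t : ℝ))) with hy
  have hy1 : 1 ≤ y := Real.one_le_rpow hn1 (by positivity)
  have hly : Real.log y = ℓ / ((1 + ε) * t) := by
    rw [hy, Real.log_rpow hn0]
    ring
  set x : ℝ := ((n : ℝ) / 16 ^ (t + 3)) ^ (1 / ((t : ℝ) + 4)) with hx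
  have hq0 : (0 : ℝ) < (n : ℝ) / 16 ^ (t + 3) := by positivity
  have hx0 : 0 < x := Real.rpow_pos_of_pos hq0 _
  have hlx : Real.log x = (ℓ - ((t : ℝ) + 3) * (4 * Real.log 2)) / ((t : ℝ) + 4) := by
    rw [hx, Real.log_rpow hq0, Real.log_div hn0.ne' (by positivity), Real.log_pow,
      show (16 : ℝ) = 2 ^ 4 by norm_num, Real.log_pow]
    push_cast
    ring
  have hxpow : x ^ (t + 4) = (n : ℝ) / 16 ^ (t + 3) := by
    rw [hx, ← Real.rpow_natCast, ← Real.rpow_mul hq0.le]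
    have : 1 / ((t : ℝ) + 4) * ((t + 4 : ℕ) : ℝ) = 1 := by
      push_cast
      field_simp
    rw [this, Real.rpow_one]
  have hfrac : c * ℓ / ((t : ℝ) + 4) + ℓ / ((1 + ε) * t) ≤ ℓ / ((t : ℝ) + 4) := by
    have h6 : 8 ≤ ε * t := by
      have h3 : (t1 : ℝ) ≤ t := by
        have : t1 ≤ t := by omega
        exact_mod_cast this
      have h4 : 8 / ε ≤ t := ht1.trans h3
      rw [div_le_iff₀ hε] at h4
      linarith
    have h7 : ℓ / ((1 + ε) * t) ≤ (1 - c) * ℓ / ((t : ℝ) + 4) := by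
      rw [div_le_div_iff₀ (by positivity) (by positivity)]
      have h8 : (1 - c) * (1 + ε) = 1 + ε / 2 := by
        rw [hc]
        have : (1 + ε) ≠ 0 := by positivity
        field_simp
        ring
      have h9 : (1 - c) * ℓ * ((1 + ε) * t) = ℓ * ((1 + ε / 2) * t) := by
        rw [← h8]; ring
      rw [h9]
      exact mul_le_mul_of_nonneg_left (by linarith) (by linarith)
    have h8 : ℓ / ((t : ℝ) + 4) = c * ℓ / ((t : ℝ) + 4) + (1 - c) * ℓ / ((t : ℝ) + 4) := by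
      rw [← add_div]; congr 1; ring
    rw [h8]
    linarith
  have hxy : 220 * (θ : ℝ) ^ 2 * y ≤ x := by
    have h6 : Real.log (220 * (θ : ℝ) ^ 2 * y) ≤ Real.log x := by
      have h220 : Real.log 220 ≤ 8 * Real.log 2 := by
        have h7 := Real.log_le_log (show (0 : ℝ) < 220 by norm_num)
          (show (220 : ℝ) ≤ 2 ^ 8 by norm_num)
        rw [Real.log_pow] at h7
        exact_mod_cast h7
      rw [Real.log_mul (by positivity) (by positivity), Real.log_mul (by norm_num) (by positivity),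
        Real.log_pow, hly, hlx]
      push_cast
      have h7 : 9 + 2 * Real.log θ ≤ c * ℓ / ((t : ℝ) + 4) := by
        rw [le_div_iff₀ (by positivity)]
        linarith
      have h8 : ((t : ℝ) + 3) * (4 * Real.log 2) / ((t : ℝ) + 4) ≤ 4 * Real.log 2 := by
        rw [div_le_iff₀ (by positivity)]
        have h9 : 4 * Real.log 2 * ((t : ℝ) + 4) - ((t : ℝ) + 3) * (4 * Real.log 2) =
          4 * Real.log 2 := by ring
        linarith
      rw [sub_div]
      linarith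
    exact (Real.log_le_log_iff (by positivity) hx0).1 h6
  -- T and K
  set T : ℕ := ⌊x⌋₊ with hT
  have hTx : (T : ℝ) ≤ x := Nat.floor_le hx0.le
  have hxT : x < (T : ℝ) + 1 := Nat.lt_floor_add_one x
  have hθ2 : (784 : ℝ) ≤ (θ : ℝ) ^ 2 := by
    have := pow_le_pow_left₀ (by norm_num) hθ0 2
    linarith
  have hT1 : 1 ≤ T := by
    have h6 : (1 : ℝ) ≤ x := by
      have h7 : (784 : ℝ) * 1 ≤ (θ : ℝ) ^ 2 * y :=
        mul_le_mul hθ2 hy1 (by norm_num) (by positivity)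
      linarith
    exact Nat.le_floor (by exact_mod_cast h6)
  set K : ℕ := (T - 1) / (72 * θ ^ 2) with hK
  have hθ00 : 0 < θ := by omega
  have hθpos : 0 < 72 * θ ^ 2 := by positivity
  have hK1 : 72 * θ ^ 2 * K ≤ T - 1 := Nat.mul_div_le _ _
  have hK2 : T - 1 < 72 * θ ^ 2 * (K + 1) := by
    have := Nat.lt_mul_div_succ (T - 1) hθpos
    simpa using this
  have hTn : T * (16 * T) ^ (t + 3) ≤ n := by
    have h6 : (T : ℝ) * (16 * T) ^ (t + 3) ≤ n := by
      calc (T : ℝ) * (16 * T) ^ (t + 3) = 16 ^ (t + 3) * (T : ℝ) ^ (t + 4) := by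
            rw [mul_pow]; ring
        _ ≤ 16 ^ (t + 3) * x ^ (t + 4) :=
            mul_le_mul_of_nonneg_left (pow_le_pow_left₀ (by positivity) hTx _) (by positivity)
        _ = n := by
            rw [hxpow]
            field_simp
    exact_mod_cast h6
  have h16 : 1 ≤ (16 * T) ^ (t + 3) := Nat.one_le_pow _ _ (by omega)
  have hTn' : T ≤ n := (Nat.le_mul_of_pos_right T h16).trans hTn
  have hKn : K ≤ n := by
    have : K ≤ T - 1 := Nat.div_le_self _ _
    omega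
  refine ⟨T, t + 2, θ, K, hT1, by omega, ?_, hTn, ?_, ?_, ?_⟩
  · refine Fam.mono hfam ?_
    have := small_log hk11
    rw [hθ]
    omega
  · have h6 : (T : ℝ) * (((16 * T : ℕ) : ℝ) ^ (t + 2 + 1)) ≤ n := by exact_mod_cast hTn
    have h7 : (1 : ℝ) ≤ ((16 * T : ℕ) : ℝ) ^ (t + 2 + 1) := by exact_mod_cast h16
    have hT0 : (1 : ℝ) ≤ T := by exact_mod_cast hT1
    have h8 : (T : ℝ) * (((16 * T : ℕ) : ℝ) ^ (t + 2 + 1) + 1) ≤ 2 * n := by
      have h9 : (T : ℝ) * 1 ≤ (T : ℝ) * (((16 * T : ℕ) : ℝ) ^ (t + 2 + 1)) :=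
        mul_le_mul_of_nonneg_left h7 (by linarith)
      rw [mul_add]
      linarith
    have h9 : (K : ℝ) ≤ n := by exact_mod_cast hKn
    have h10 : (16 : ℝ) * n ^ 2 ≤ Real.exp θ := by
      have h11 : (2 : ℝ) ≤ Real.exp 1 := by
        have := Real.add_one_le_exp (1 : ℝ)
        linarith
      have h12 : (2 : ℝ) ^ θ ≤ Real.exp θ := by
        have h13 : Real.exp (θ : ℝ) = Real.exp 1 ^ θ := by
          rw [← Real.exp_nat_mul, mul_one]
        rw [h13]
        exact pow_le_pow_left₀ (by norm_num) h11 _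
      have h13 : (n : ℝ) ≤ 2 ^ (k + 1) := by exact_mod_cast hkn2.le
      have h14 : (2 : ℝ) ^ θ = 16 * (2 ^ (k + 1)) ^ 2 := by
        rw [hθ]; ring
      calc (16 : ℝ) * n ^ 2 ≤ 16 * (2 ^ (k + 1)) ^ 2 :=
            mul_le_mul_of_nonneg_left (pow_le_pow_left₀ (by positivity) h13 _) (by norm_num)
        _ = 2 ^ θ := h14.symm
        _ ≤ Real.exp θ := h12
    have h11 : (T : ℝ) * (K * (((16 * T : ℕ) : ℝ) ^ (t + 2 + 1) + 1) * Real.exp (-(θ : ℝ))) =
        ((K : ℝ) * ((T : ℝ) * (((16 * T : ℕ) : ℝ) ^ (t + 2 + 1) + 1))) * Real.exp (-(θ : ℝ)) := by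
      ring
    rw [h11, Real.exp_neg, ← div_eq_mul_inv, div_le_iff₀ (Real.exp_pos _)]
    have h12 : (K : ℝ) * ((T : ℝ) * (((16 * T : ℕ) : ℝ) ^ (t + 2 + 1) + 1)) ≤ n * (2 * n) :=
      mul_le_mul h9 h8 (by positivity) (by positivity)
    have h13 : (n : ℝ) * (2 * n) = 2 * (n : ℝ) ^ 2 := by ring
    linarith
  · have h6 : 72 * K * θ ^ 2 = 72 * θ ^ 2 * K := by ring
    rw [h6]
    omega
  · have h6 : (T : ℝ) - 1 < 72 * (θ : ℝ) ^ 2 * (K + 1) := by
      have h7 : ((T - 1 : ℕ) : ℝ) < ((72 * θ ^ 2 * (K + 1) : ℕ) : ℝ) := by exact_mod_cast hK2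
      rw [Nat.cast_sub hT1] at h7
      push_cast at h7
      exact h7
    by_contra hlt
    rw [not_le] at hlt
    have h7 : 72 * (θ : ℝ) ^ 2 * (K + 1) ≤ 72 * (θ : ℝ) ^ 2 * (2 * y + 1) :=
      mul_le_mul_of_nonneg_left (by linarith) (by positivity)
    have h8 : 76 * (θ : ℝ) ^ 2 ≤ 76 * (θ : ℝ) ^ 2 * y := by
      have : (0 : ℝ) ≤ 76 * (θ : ℝ) ^ 2 := by positivity
      exact le_mul_of_one_le_right this hy1
    linarith

end Pool.Agent.H43.RO
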