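import Pool.Agent.H43.RO.Def

/-!
# [H43 RO T3] resampling the sign vector `al ω v`
-/

set_option autoImplicit false

namespace Pool.Agent.H43.RO

open Finset

set_option linter.unusedSectionVars false

variable {T m L h : ℕ} [NeZero m] {c : Om T m L h → Fin T → X m L → ℕ}

private theorem ba_exp {x : ℝ} (h0 : 0 ≤ x) (h1 : x ≤ 1) : Real.exp (-x) ≤ 1 - x / 2 := by
  have h2 : 1 ≤ (1 - x / 2) * Real.exp x := by
    nlinarith [Real.add_one_le_exp x]
  have h3 : Real.exp (-x) * Real.exp x = 1 := by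
    rw [← Real.exp_add, neg_add_cancel, Real.exp_zero]
  have h4 := Real.exp_pos (-x)
  nlinarith

private theorem ba_pair {x y : ℝ} (h0 : 0 ≤ x) (h1 : x ≤ 1) (k0 : 0 ≤ y) (k1 : y ≤ 1) :
    Real.exp (-x) + Real.exp (-y) ≤ 2 * Real.exp (-(x + y) / 4) := by
  have := ba_exp h0 h1
  have := ba_exp k0 k1
  have := Real.add_one_le_exp (-(x + y) / 4)
  linarith

private theorem ba_count (θ : ℝ) (hθ : 1 ≤ θ) (w : Fin h → Bool → ℝ) (h0 : ∀ g b, 0 ≤ w g b)
    (h1 : ∀ g b, w g b ≤ θ) (hS : 8 * θ ^ 2 ≤ ∑ g, (w g false + w g true)) :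
    ((univ.filter fun a : Fin h → Bool => ∑ g, w g (!a g) < θ).card : ℝ) ≤
      Real.exp (-θ) * 2 ^ h := by
  classical
  have hθ0 : 0 < θ := by linarith
  have e0 : ∀ f : (Fin h → Bool) → ℝ, ((univ.filter fun a => f a < θ).card : ℝ) ≤
      ∑ a, Real.exp (1 - f a / θ) := by
    intro f
    calc ((univ.filter fun a => f a < θ).card : ℝ) = ∑ _a ∈ univ.filter (fun a => f a < θ), (1 : ℝ) := by
          rw [Finset.sum_const, nsmul_eq_mul, mul_one]
      _ ≤ ∑ a ∈ univ.filter (fun a => f a < θ), Real.exp (1 - f a / θ) := by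
          refine Finset.sum_le_sum fun a ha => ?_
          rw [Finset.mem_filter] at ha
          apply Real.one_le_exp
          have : f a / θ ≤ 1 := by
            rw [div_le_one hθ0]
            exact ha.2.le
          linarith
      _ ≤ ∑ a, Real.exp (1 - f a / θ) :=
          Finset.sum_le_sum_of_subset_of_nonneg (Finset.filter_subset _ _)
            fun a _ _ => (Real.exp_pos _).le
  have e1 := e0 (fun a => ∑ g, w g (!a g))
  have e2 : ∑ a : Fin h → Bool, Real.exp (1 - (∑ g, w g (!a g)) / θ) =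
      Real.exp 1 * ∏ g : Fin h, ∑ b : Bool, Real.exp (-(w g (!b) / θ)) := by
    have hp := Finset.prod_univ_sum (fun _ : Fin h => (univ : Finset Bool))
      (fun g b => Real.exp (-(w g (!b) / θ)))
    rw [Fintype.piFinset_univ] at hp
    rw [hp, Finset.mul_sum]
    refine Finset.sum_congr rfl fun a _ => ?_
    rw [← Real.exp_sum, ← Real.exp_add, Finset.sum_neg_distrib, ← Finset.sum_div, sub_eq_add_neg]
  have e3 : ∏ g : Fin h, ∑ b : Bool, Real.exp (-(w g (!b) / θ)) ≤
      ∏ g : Fin h, (2 * Real.exp (-((w g false + w g true) / (4 * θ)))) := by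
    refine Finset.prod_le_prod (fun g _ => Finset.sum_nonneg fun _ _ => (Real.exp_pos _).le)
      fun g _ => ?_
    rw [Fintype.sum_bool]
    have := ba_pair (x := w g false / θ) (y := w g true / θ) (div_nonneg (h0 _ _) hθ0.le)
      ((div_le_one hθ0).2 (h1 _ _)) (div_nonneg (h0 _ _) hθ0.le) ((div_le_one hθ0).2 (h1 _ _))
    have e : -(w g false / θ + w g true / θ) / 4 = -((w g false + w g true) / (4 * θ)) := by
      field_simp
    rw [e] at this
    simpa using this
  have e4 : ∏ g : Fin h, (2 * Real.exp (-((w g false + w g true) / (4 * θ)))) =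
      2 ^ h * Real.exp (-((∑ g, (w g false + w g true)) / (4 * θ))) := by
    rw [Finset.prod_mul_distrib, ← Real.exp_sum, Finset.sum_neg_distrib, ← Finset.sum_div]
    simp
  have e5 : Real.exp (-((∑ g, (w g false + w g true)) / (4 * θ))) ≤ Real.exp (-(2 * θ)) := by
    apply Real.exp_le_exp.2
    apply neg_le_neg
    rw [le_div_iff₀ (by positivity)]
    nlinarith
  have e6 : Real.exp 1 * Real.exp (-(2 * θ)) ≤ Real.exp (-θ) := by
    rw [← Real.exp_add]
    apply Real.exp_le_exp.2
    linarith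
  calc ((univ.filter fun a : Fin h → Bool => ∑ g, w g (!a g) < θ).card : ℝ)
      ≤ Real.exp 1 * ∏ g : Fin h, ∑ b : Bool, Real.exp (-(w g (!b) / θ)) := e1.trans e2.le
    _ ≤ Real.exp 1 * (2 ^ h * Real.exp (-((∑ g, (w g false + w g true)) / (4 * θ)))) :=
        mul_le_mul_of_nonneg_left (e3.trans e4.le) (Real.exp_pos _).le
    _ ≤ Real.exp 1 * (2 ^ h * Real.exp (-(2 * θ))) :=
        mul_le_mul_of_nonneg_left (mul_le_mul_of_nonneg_left e5 (by positivity)) (Real.exp_pos _).le
    _ = (Real.exp 1 * Real.exp (-(2 * θ))) * 2 ^ h := by ring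
    _ ≤ Real.exp (-θ) * 2 ^ h := mul_le_mul_of_nonneg_right e6 (by positivity)

/-- replace the sign vector at `v` -/
private def ba_upd (v : Fin T) (ω : Om T m L h) (a : Fin h → Bool) : Om T m L h :=
  Function.update ω v (a, (ω v).2)

private theorem ba_upd_ne {v w : Fin T} (hw : w ≠ v) (ω : Om T m L h) (a : Fin h → Bool) :
    ba_upd v ω a w = ω w := by
  unfold ba_upd
  rw [Function.update_of_ne hw]

private theorem ba_al (v : Fin T) (ω : Om T m L h) (a : Fin h → Bool) :
    al (ba_upd v ω a) v = a := by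
  unfold al ba_upd
  rw [Function.update_self]

private theorem ba_c (hc : Play c) {v u : Fin T} (hu : u < v) (ω : Om T m L h)
    (a : Fin h → Bool) (x : X m L) : c (ba_upd v ω a) u x = c ω u x := by
  have hne : ba_upd v ω a u = ω u := ba_upd_ne hu.ne ω a
  refine hc.past _ _ _ (fun w hw => ba_upd_ne (hw.trans hu).ne ω a) ?_ ?_ x
  · unfold al
    rw [hne]
  · intro u'
    unfold qq
    rw [hne]

private theorem ba_cols (hc : Play c) (v : Fin T) (ω : Om T m L h) (a : Fin h → Bool) :
    cols c (ba_upd v ω a) v = cols c ω v := by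
  classical
  unfold cols
  refine Finset.biUnion_congr rfl fun u hu => ?_
  rw [Finset.mem_filter] at hu
  refine Finset.image_congr fun x _ => ?_
  exact ba_c hc (Fin.lt_def.2 hu.2) ω a x

private theorem ba_D (hc : Play c) {v u : Fin T} (hu : u < v) (ω : Om T m L h)
    (a : Fin h → Bool) (b : ℕ) : D c (ba_upd v ω a) v u b = D c ω v u b := by
  classical
  unfold D
  congr 2
  refine congrArg Finset.card (Finset.filter_congr fun y _ => ?_)
  rw [ba_c hc hu ω a y]
  refine and_congr_right fun _ => ?_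
  refine forall_congr' fun v' => forall_congr' fun _ => forall_congr' fun hv' => ?_
  have : ba_upd v ω a v' = ω v' := ba_upd_ne (Fin.lt_def.2 hv').ne ω a
  unfold qq
  rw [this]

private theorem ba_W (hc : Play c) (v : Fin T) (ω : Om T m L h)
    (a : Fin h → Bool) (b : ℕ) (t : Fin h × Bool) : W c (ba_upd v ω a) v b t = W c ω v b t := by
  classical
  unfold W
  have hf : (univ.filter fun u : Fin T => u.val < v.val ∧ ty (ba_upd v ω a) u = t) =
      univ.filter fun u : Fin T => u.val < v.val ∧ ty ω u = t := by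
    refine Finset.filter_congr fun u _ => ?_
    refine and_congr_right fun hu => ?_
    have : ba_upd v ω a u = ω u := ba_upd_ne (Fin.lt_def.2 hu).ne ω a
    unfold ty al gg
    rw [this]
  rw [hf]
  refine Finset.sum_congr rfl fun u hu => ?_
  rw [Finset.mem_filter] at hu
  exact ba_D hc (Fin.lt_def.2 hu.2.1) ω a b

private theorem ba_S (hc : Play c) (θ : ℝ) (v : Fin T) (ω : Om T m L h)
    (a : Fin h → Bool) (b : ℕ) : S θ c (ba_upd v ω a) v b = S θ c ω v b := by
  unfold S
  refine Finset.sum_congr rfl fun t _ => ?_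
  rw [ba_W hc]

private theorem ba_W0 (s : ℕ) (ω : Om T m L h) (b : ℕ) (t : Fin h × Bool) : 0 ≤ W c ω s b t := by
  classical
  unfold W D
  refine Finset.sum_nonneg fun u _ => ?_
  positivity

/-- the number of bad sign vectors for fixed other choices -/
private theorem ba_fib {θ : ℝ} (hc : Play c) (hθ : 1 ≤ θ) (K : ℕ) (v : Fin T) (ω : Om T m L h) :
    (Nat.card {a : Fin h → Bool // (cols c (ba_upd v ω a) v).card ≤ K ∧
      ¬ E1 θ (8 * θ ^ 2) c (ba_upd v ω a) v} : ℝ) ≤ K * Real.exp (-θ) * 2 ^ h := by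
  classical
  have hθ0 : 0 < θ := by linarith
  rw [Nat.card_eq_fintype_card, Fintype.card_subtype]
  by_cases hK : (cols c ω v).card ≤ K
  · have hsub : (univ.filter fun a : Fin h → Bool => (cols c (ba_upd v ω a) v).card ≤ K ∧
        ¬ E1 θ (8 * θ ^ 2) c (ba_upd v ω a) v) ⊆
        (cols c ω v).biUnion fun b => univ.filter fun a : Fin h → Bool =>
          8 * θ ^ 2 ≤ S θ c ω v b ∧ ∑ g, min (W c ω v b (g, !a g)) θ < θ := by
      intro a ha
      rw [Finset.mem_filter] at ha
      have h2 := ha.2.2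
      unfold E1 at h2
      push Not at h2
      obtain ⟨b, hb1, hb2, hb3⟩ := h2
      rw [ba_cols hc] at hb1
      rw [ba_S hc] at hb2
      rw [Finset.mem_biUnion]
      refine ⟨b, hb1, ?_⟩
      rw [Finset.mem_filter]
      refine ⟨Finset.mem_univ _, hb2, ?_⟩
      rw [ba_al] at hb3
      simp only [ba_W hc] at hb3
      exact hb3
    have hb : ∀ b ∈ cols c ω v, ((univ.filter fun a : Fin h → Bool =>
        8 * θ ^ 2 ≤ S θ c ω v b ∧ ∑ g, min (W c ω v b (g, !a g)) θ < θ).card : ℝ) ≤
        Real.exp (-θ) * 2 ^ h := by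
      intro b _
      by_cases hS : 8 * θ ^ 2 ≤ S θ c ω v b
      · have := ba_count θ hθ (fun g β => min (W c ω v b (g, β)) θ)
          (fun g β => le_min (ba_W0 _ _ _ _) hθ0.le) (fun g β => min_le_right _ _) (by
            unfold S at hS
            rw [Fintype.sum_prod_type] at hS
            refine hS.trans (le_of_eq (Finset.sum_congr rfl fun g _ => ?_))
            rw [Fintype.sum_bool, add_comm])
        refine le_trans (le_of_eq ?_) this
        congr 2
        refine Finset.filter_congr fun a _ => ?_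
        exact and_iff_right hS
      · rw [Finset.filter_false_of_mem (fun a _ hh => hS hh.1)]
        simp only [Finset.card_empty, Nat.cast_zero]
        positivity
    calc (((univ.filter fun a : Fin h → Bool => (cols c (ba_upd v ω a) v).card ≤ K ∧
        ¬ E1 θ (8 * θ ^ 2) c (ba_upd v ω a) v).card : ℕ) : ℝ)
        ≤ ((((cols c ω v).biUnion fun b => univ.filter fun a : Fin h → Bool =>
          8 * θ ^ 2 ≤ S θ c ω v b ∧ ∑ g, min (W c ω v b (g, !a g)) θ < θ).card : ℕ) : ℝ) := by
          exact_mod_cast Finset.card_le_card hsub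
      _ ≤ ∑ b ∈ cols c ω v, ((univ.filter fun a : Fin h → Bool =>
          8 * θ ^ 2 ≤ S θ c ω v b ∧ ∑ g, min (W c ω v b (g, !a g)) θ < θ).card : ℝ) := by
          exact_mod_cast Finset.card_biUnion_le
      _ ≤ ∑ _b ∈ cols c ω v, Real.exp (-θ) * 2 ^ h := Finset.sum_le_sum hb
      _ = (cols c ω v).card * (Real.exp (-θ) * 2 ^ h) := by
          rw [Finset.sum_const, nsmul_eq_mul]
      _ ≤ K * (Real.exp (-θ) * 2 ^ h) :=
          mul_le_mul_of_nonneg_right (by exact_mod_cast hK) (by positivity)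
      _ = K * Real.exp (-θ) * 2 ^ h := by ring
  · rw [Finset.filter_false_of_mem (fun a _ hh => hK (by
      have := hh.1
      rwa [ba_cols hc] at this))]
    simp only [Finset.card_empty, Nat.cast_zero]
    positivity

/-- the exchange of the sign vector at `v` with a new one -/
private def ba_sw (v : Fin T) (y : Om T m L h × (Fin h → Bool)) : Om T m L h × (Fin h → Bool) :=
  (ba_upd v y.1 y.2, al y.1 v)

private theorem ba_inv (v : Fin T) :
    Function.Involutive (ba_sw v : Om T m L h × (Fin h → Bool) → Om T m L h × (Fin h → Bool)) := by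
  rintro ⟨ω, a⟩
  unfold ba_sw
  simp only [ba_al]
  unfold ba_upd al
  simp

theorem b1 {θ : ℝ} (hc : Play c) (hθ : 1 ≤ θ) (K : ℕ) : B1Stmt θ (8 * θ ^ 2) K c := by
  classical
  intro v
  have key : ∀ P : Om T m L h → Prop,
      ((univ.filter fun ω => P ω).card : ℝ) * 2 ^ h =
        ∑ ω : Om T m L h, (Nat.card {a : Fin h → Bool // P (ba_upd v ω a)} : ℝ) := by
    intro P
    have e1 : ∑ ω : Om T m L h, (Nat.card {a : Fin h → Bool // P (ba_upd v ω a)} : ℝ) =
        ∑ y : Om T m L h × (Fin h → Bool), (if P (ba_upd v y.1 y.2) then (1 : ℝ) else 0) := by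
      rw [Fintype.sum_prod_type]
      refine Finset.sum_congr rfl fun ω _ => ?_
      rw [Nat.card_eq_fintype_card, Fintype.card_subtype, Finset.sum_boole]
    have e2 : ∑ y : Om T m L h × (Fin h → Bool), (if P (ba_upd v y.1 y.2) then (1 : ℝ) else 0) =
        ∑ y : Om T m L h × (Fin h → Bool), (if P y.1 then (1 : ℝ) else 0) := by
      refine Fintype.sum_equiv ((ba_inv v).toPerm) _ _ fun y => ?_
      rfl
    have e3 : ∑ y : Om T m L h × (Fin h → Bool), (if P y.1 then (1 : ℝ) else 0) =
        ∑ ω : Om T m L h, ∑ _a : Fin h → Bool, (if P ω then (1 : ℝ) else 0) :=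
      Fintype.sum_prod_type _
    have e4 : Fintype.card (Fin h → Bool) = 2 ^ h := by
      rw [Fintype.card_fun, Fintype.card_bool, Fintype.card_fin]
    rw [e1, e2, e3]
    simp only [Finset.sum_const, Finset.card_univ, e4, nsmul_eq_mul]
    rw [← Finset.mul_sum, Finset.sum_boole]
    push_cast
    ring
  have hk := key (fun ω => (cols c ω v).card ≤ K ∧ ¬ E1 θ (8 * θ ^ 2) c ω v)
  have hle : ∑ ω : Om T m L h, (Nat.card {a : Fin h → Bool // (cols c (ba_upd v ω a) v).card ≤ K ∧
      ¬ E1 θ (8 * θ ^ 2) c (ba_upd v ω a) v} : ℝ) ≤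
      ∑ _ω : Om T m L h, (K * Real.exp (-θ) * 2 ^ h : ℝ) :=
    Finset.sum_le_sum fun ω _ => ba_fib hc hθ K v ω
  rw [Finset.sum_const, Finset.card_univ, nsmul_eq_mul] at hle
  have h2 : (0 : ℝ) < 2 ^ h := by positivity
  refine le_of_mul_le_mul_right ?_ h2
  refine le_trans (le_of_eq ?_) ((hk.le.trans hle).trans (le_of_eq (by ring)))
  congr 2
  refine congrArg Finset.card ?_
  ext ω
  simp only [Finset.mem_filter]

end Pool.Agent.H43.RO
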