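import Pool.Agent.H43.RO.Def

/-!
# On-line colouring: resampling the paths chosen at a vertex (T4)
-/

set_option autoImplicit false

namespace Pool.Agent.H43.RO

open Finset

variable {T m L h : ℕ}

/-- replace the paths chosen at `v` -/
def rsq (ω : Om T m L h) (v : Fin T) (Q : Fin T → X m L) : Om T m L h :=
  Function.update ω v ((ω v).1, (ω v).2.1, Q)

lemma rsq_of_ne {ω : Om T m L h} {v w : Fin T} {Q : Fin T → X m L} (hw : w ≠ v) :
    rsq ω v Q w = ω w := by
  unfold rsq
  rw [Function.update_of_ne hw]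

lemma rsq_self {ω : Om T m L h} {v : Fin T} {Q : Fin T → X m L} :
    rsq ω v Q v = ((ω v).1, (ω v).2.1, Q) := by
  unfold rsq
  rw [Function.update_self]

lemma rsq_rsq {ω : Om T m L h} {v : Fin T} {Q Q' : Fin T → X m L} :
    rsq (rsq ω v Q) v Q' = rsq ω v Q' := by
  funext w
  rcases eq_or_ne w v with rfl | hw
  · rw [rsq_self, rsq_self, rsq_self]
  · rw [rsq_of_ne hw, rsq_of_ne hw, rsq_of_ne hw]

lemma rsq_qq {ω : Om T m L h} {v : Fin T} : rsq ω v (fun u => qq ω u v) = ω := by
  funext w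
  rcases eq_or_ne w v with rfl | hw
  · rw [rsq_self]; rfl
  · rw [rsq_of_ne hw]

lemma al_rsq {ω : Om T m L h} {v w : Fin T} {Q : Fin T → X m L} :
    al (rsq ω v Q) w = al ω w := by
  unfold al
  rcases eq_or_ne w v with rfl | hw
  · rw [rsq_self]
  · rw [rsq_of_ne hw]

lemma gg_rsq {ω : Om T m L h} {v w : Fin T} {Q : Fin T → X m L} :
    gg (rsq ω v Q) w = gg ω w := by
  unfold gg
  rcases eq_or_ne w v with rfl | hw
  · rw [rsq_self]
  · rw [rsq_of_ne hw]

lemma ty_rsq {ω : Om T m L h} {v w : Fin T} {Q : Fin T → X m L} :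
    ty (rsq ω v Q) w = ty ω w := by
  unfold ty
  rw [al_rsq, gg_rsq]

lemma qq_rsq_self {ω : Om T m L h} {u v : Fin T} {Q : Fin T → X m L} :
    qq (rsq ω v Q) u v = Q u := by
  unfold qq
  rw [rsq_self]

lemma qq_rsq {ω : Om T m L h} {u v w : Fin T} {Q : Fin T → X m L} (hw : w ≠ v) :
    qq (rsq ω v Q) u w = qq ω u w := by
  unfold qq
  rw [rsq_of_ne hw]

lemma Nb_rsq {ω : Om T m L h} {u v : Fin T} {Q : Fin T → X m L} :
    Nb (rsq ω v Q) u v ↔ Nb ω u v := by
  unfold Nb
  rw [al_rsq, ty_rsq]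

lemma Fresh_rsq {ω : Om T m L h} {u v : Fin T} {Q : Fin T → X m L} :
    Fresh (rsq ω v Q) u v ↔ ∀ v' : Fin T, u < v' → v' < v → qq ω u v' 0 ≠ Q u 0 := by
  unfold Fresh
  refine forall_congr' fun v' => ?_
  refine imp_congr_right fun _ => ?_
  refine imp_congr_right fun h2 => ?_
  rw [qq_rsq h2.ne, qq_rsq_self]

lemma c_rsq {c : Om T m L h → Fin T → X m L → ℕ} (hc : Play c) {ω : Om T m L h} {v w : Fin T}
    {Q : Fin T → X m L} (hw : w < v) : c (rsq ω v Q) w = c ω w := by
  funext x
  refine hc.past _ _ w (fun w' hw' => rsq_of_ne (hw'.trans hw).ne) al_rsq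
    (fun u => qq_rsq hw.ne) x

variable [NeZero m]

/-- resampling preserves the uniform measure -/
theorem sum_rsq (v : Fin T) (f : Om T m L h → ℝ) :
    ∑ ω, ∑ Q : Fin T → X m L, f (rsq ω v Q) =
      Fintype.card (Fin T → X m L) * ∑ ω, f ω := by
  have hinv : Function.Involutive (fun z : Om T m L h × (Fin T → X m L) =>
      (rsq z.1 v z.2, fun u => qq z.1 u v)) := by
    rintro ⟨ω, Q⟩
    refine Prod.ext ?_ ?_
    · show rsq (rsq ω v Q) v (fun u => qq ω u v) = ω
      rw [rsq_rsq, rsq_qq]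
    · show (fun u => qq (rsq ω v Q) u v) = Q
      funext u
      exact qq_rsq_self
  have h1 := Equiv.sum_comp (Function.Involutive.toPerm _ hinv)
    (fun z : Om T m L h × (Fin T → X m L) => f z.1)
  rw [Fintype.sum_prod_type, Fintype.sum_prod_type] at h1
  have h2 : ∀ (ω : Om T m L h) (Q : Fin T → X m L),
      ((Function.Involutive.toPerm _ hinv) (ω, Q)).1 = rsq ω v Q := fun _ _ => rfl
  simp only [h2] at h1
  rw [h1, mul_sum]
  refine sum_congr rfl fun ω _ => ?_
  rw [sum_const, card_univ, nsmul_eq_mul]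

section
open Classical

lemma cols_rsq {c : Om T m L h → Fin T → X m L → ℕ} (hc : Play c) {ω : Om T m L h} {v : Fin T}
    {Q : Fin T → X m L} : cols c (rsq ω v Q) v = cols c ω v := by
  unfold cols
  refine Finset.biUnion_congr rfl fun w hw => ?_
  have hw' : w < v := (mem_filter.1 hw).2
  rw [c_rsq hc hw']

lemma D_rsq {c : Om T m L h → Fin T → X m L → ℕ} (hc : Play c) {ω : Om T m L h} {u v : Fin T}
    {Q : Fin T → X m L} (hu : u < v) (b : ℕ) : D c (rsq ω v Q) v u b = D c ω v u b := by
  unfold D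
  congr 3
  ext y
  simp only [mem_filter, mem_univ, true_and]
  rw [c_rsq hc hu]
  constructor
  · rintro ⟨h1, h2⟩
    refine ⟨h1, fun v' h3 h4 => ?_⟩
    have h5 : v' ≠ v := fun e => absurd h4 (by rw [e]; exact lt_irrefl _)
    rw [← qq_rsq (Q := Q) h5]
    exact h2 v' h3 h4
  · rintro ⟨h1, h2⟩
    refine ⟨h1, fun v' h3 h4 => ?_⟩
    have h5 : v' ≠ v := fun e => absurd h4 (by rw [e]; exact lt_irrefl _)
    rw [qq_rsq h5]
    exact h2 v' h3 h4

/-- the paths from `u` which hit the colour `b` at `x` -/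
noncomputable def hit (c : Om T m L h → Fin T → X m L → ℕ) (ω : Om T m L h) (v : Fin T)
    (b : ℕ) (x : X m L) (u : Fin T) : Finset (X m L) :=
  univ.filter fun q : X m L => (∀ v' : Fin T, u < v' → v' < v → qq ω u v' 0 ≠ q 0) ∧
    c ω u (q + sh x) = b

omit [NeZero m] in
lemma sh_zero (x : X m L) : sh x 0 = 0 := by
  unfold sh
  rfl

lemma card_hit (c : Om T m L h → Fin T → X m L → ℕ) (ω : Om T m L h) (v : Fin T)
    (b : ℕ) (x : X m L) (u : Fin T) :
    ((hit c ω v b x u).card : ℝ) = D c ω v u b * Fintype.card (X m L) := by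
  have hX : (Fintype.card (X m L) : ℝ) ≠ 0 := by
    exact_mod_cast Fintype.card_ne_zero
  unfold D
  rw [div_mul_cancel₀ _ hX]
  congr 1
  refine Finset.card_bij (fun q _ => q + sh x) ?_ ?_ ?_
  · intro q hq
    obtain ⟨h1, h2⟩ := (mem_filter.1 hq).2
    refine mem_filter.2 ⟨mem_univ _, h2, fun v' h3 h4 => ?_⟩
    have h5 : (q + sh x) 0 = q 0 := by
      rw [Pi.add_apply, sh_zero, add_zero]
    rw [h5]
    exact h1 v' h3 h4
  · intro q _ q' _ hqq
    exact add_right_cancel hqq
  · intro y hy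
    obtain ⟨h1, h2⟩ := (mem_filter.1 hy).2
    refine ⟨y - sh x, mem_filter.2 ⟨mem_univ _, fun v' h3 h4 => ?_, ?_⟩, sub_add_cancel _ _⟩
    · have h5 : (y - sh x) 0 = y 0 := by
        rw [Pi.sub_apply, sh_zero, sub_zero]
      rw [h5]
      exact h2 v' h3 h4
    · rw [sub_add_cancel]
      exact h1

/-- for fixed colour and path few choices are bad -/
theorem card_bad (c : Om T m L h → Fin T → X m L → ℕ) (ω : Om T m L h) (v : Fin T)
    (b : ℕ) (x : X m L) {θ : ℝ}
    (hθ : θ ≤ ∑ u ∈ univ.filter (fun u : Fin T => Nb ω u v), D c ω v u b) :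
    (((univ : Finset (Fin T → X m L)).filter fun Q => ∀ u, Nb ω u v →
      Q u ∉ hit c ω v b x u).card : ℝ) ≤
      Real.exp (-θ) * Fintype.card (Fin T → X m L) := by
  have hX : (0 : ℝ) < Fintype.card (X m L) := by
    exact_mod_cast Fintype.card_pos
  have h1 : ((univ : Finset (Fin T → X m L)).filter fun Q => ∀ u, Nb ω u v →
      Q u ∉ hit c ω v b x u) =
      Fintype.piFinset (fun u => if Nb ω u v then (hit c ω v b x u)ᶜ else univ) := by
    ext Q
    rw [mem_filter, Fintype.mem_piFinset]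
    constructor
    · rintro ⟨_, h⟩ u
      split_ifs with hu
      · exact mem_compl.2 (h u hu)
      · exact mem_univ _
    · intro h
      refine ⟨mem_univ _, fun u hu => ?_⟩
      have := h u
      rw [if_pos hu] at this
      exact mem_compl.1 this
  rw [h1, Fintype.card_piFinset]
  push_cast
  calc ∏ u, ((if Nb ω u v then (hit c ω v b x u)ᶜ else univ : Finset (X m L)).card : ℝ)
      ≤ ∏ u : Fin T, ((Fintype.card (X m L) : ℝ) *
          Real.exp (-(if Nb ω u v then D c ω v u b else 0))) := by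
        refine Finset.prod_le_prod (fun _ _ => Nat.cast_nonneg _) fun u _ => ?_
        split_ifs with hu
        · rw [card_compl, Nat.cast_sub (card_le_univ _), card_hit]
          have := Real.add_one_le_exp (-(D c ω v u b))
          nlinarith
        · rw [neg_zero, Real.exp_zero, mul_one, card_univ]
    _ = (∏ _u : Fin T, (Fintype.card (X m L) : ℝ)) *
          Real.exp (-(∑ u ∈ univ.filter (fun u : Fin T => Nb ω u v), D c ω v u b)) := by
        rw [prod_mul_distrib, ← Real.exp_sum, sum_filter, ← sum_neg_distrib]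
    _ = Real.exp (-(∑ u ∈ univ.filter (fun u : Fin T => Nb ω u v), D c ω v u b)) *
          Fintype.card (Fin T → X m L) := by
        rw [mul_comm, prod_const, card_univ, Fintype.card_fun (α := Fin T) (β := X m L)]
        push_cast
        rfl
    _ ≤ Real.exp (-θ) * Fintype.card (Fin T → X m L) := by
        refine mul_le_mul_of_nonneg_right (Real.exp_le_exp.2 (by linarith)) (Nat.cast_nonneg _)

/-- T4 -/
theorem b2 {c : Om T m L h → Fin T → X m L → ℕ} {θ : ℝ} (hc : Play c) (_hθ : 0 ≤ θ) (K : ℕ) :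
    B2Stmt θ K c := by
  intro v
  have hX : (0 : ℝ) ≤ Fintype.card (X m L) := Nat.cast_nonneg _
  -- one step
  have key : ∀ ω : Om T m L h,
      ∑ Q : Fin T → X m L, (if (cols c (rsq ω v Q) v).card ≤ K ∧ ¬ E2 θ c (rsq ω v Q) v
        then (1 : ℝ) else 0) ≤
      K * Fintype.card (X m L) * Real.exp (-θ) * Fintype.card (Fin T → X m L) := by
    intro ω
    by_cases hK : (cols c ω v).card ≤ K
    · rw [← Finset.sum_filter, sum_const, nsmul_eq_mul, mul_one]
      have hsub : ((univ : Finset (Fin T → X m L)).filter fun Q =>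
          (cols c (rsq ω v Q) v).card ≤ K ∧ ¬ E2 θ c (rsq ω v Q) v) ⊆
          ((cols c ω v).filter fun b => θ ≤ ∑ u ∈ univ.filter (fun u : Fin T => Nb ω u v),
            D c ω v u b).biUnion fun b => (univ : Finset (X m L)).biUnion fun x =>
              (univ : Finset (Fin T → X m L)).filter fun Q => ∀ u, Nb ω u v →
                Q u ∉ hit c ω v b x u := by
        intro Q hQ
        obtain ⟨-, hQ2⟩ := (mem_filter.1 hQ).2
        unfold E2 at hQ2
        push Not at hQ2
        obtain ⟨b, hb, hbθ, x, hx⟩ := hQ2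
        rw [cols_rsq hc] at hb
        have e1 : ∑ u ∈ univ.filter (fun u : Fin T => Nb (rsq ω v Q) u v),
            D c (rsq ω v Q) v u b = ∑ u ∈ univ.filter (fun u : Fin T => Nb ω u v),
            D c ω v u b := by
          refine sum_congr ?_ fun u hu => ?_
          · ext u
            rw [mem_filter, mem_filter, Nb_rsq]
          · exact D_rsq hc ((mem_filter.1 hu).2).1 b
        rw [e1] at hbθ
        refine mem_biUnion.2 ⟨b, mem_filter.2 ⟨hb, hbθ⟩, mem_biUnion.2 ⟨x, mem_univ _,
          mem_filter.2 ⟨mem_univ _, fun u hu hmem => ?_⟩⟩⟩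
        obtain ⟨h1, h2⟩ := (mem_filter.1 hmem).2
        refine hx u (Nb_rsq.2 hu) (Fresh_rsq.2 h1) ?_
        rw [qq_rsq_self, c_rsq hc hu.1]
        exact h2
      have hcard := (card_le_card hsub).trans card_biUnion_le
      have hcard' : (((univ : Finset (Fin T → X m L)).filter fun Q =>
          (cols c (rsq ω v Q) v).card ≤ K ∧ ¬ E2 θ c (rsq ω v Q) v).card : ℝ) ≤
          ∑ b ∈ (cols c ω v).filter fun b => θ ≤ ∑ u ∈ univ.filter (fun u : Fin T => Nb ω u v),
            D c ω v u b, ∑ _x : X m L, Real.exp (-θ) * Fintype.card (Fin T → X m L) := by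
        refine le_trans (Nat.cast_le.2 hcard) ?_
        push_cast
        refine sum_le_sum fun b hb => ?_
        refine le_trans (Nat.cast_le.2 card_biUnion_le) ?_
        push_cast
        refine sum_le_sum fun x _ => ?_
        exact card_bad c ω v b x (mem_filter.1 hb).2
      refine hcard'.trans ?_
      rw [sum_const, sum_const, nsmul_eq_mul, nsmul_eq_mul, card_univ]
      have h3 : ((((cols c ω v).filter fun b => θ ≤ ∑ u ∈ univ.filter (fun u : Fin T => Nb ω u v),
            D c ω v u b).card : ℕ) : ℝ) ≤ K := by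
        exact_mod_cast (card_filter_le _ _).trans hK
      calc _ ≤ (K : ℝ) * ((Fintype.card (X m L) : ℝ) *
            (Real.exp (-θ) * Fintype.card (Fin T → X m L))) :=
            mul_le_mul_of_nonneg_right h3 (by positivity)
        _ = _ := by ring
    · rw [Finset.sum_eq_zero]
      · positivity
      · intro Q _
        rw [if_neg]
        rw [cols_rsq hc]
        exact fun h => hK h.1
  have h1 := sum_rsq v (fun ω : Om T m L h =>
    if (cols c ω v).card ≤ K ∧ ¬ E2 θ c ω v then (1 : ℝ) else 0)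
  have h2 : ∑ ω : Om T m L h, ∑ Q : Fin T → X m L,
      (if (cols c (rsq ω v Q) v).card ≤ K ∧ ¬ E2 θ c (rsq ω v Q) v then (1 : ℝ) else 0) ≤
      ∑ _ω : Om T m L h, (K * Fintype.card (X m L) * Real.exp (-θ) *
        Fintype.card (Fin T → X m L) : ℝ) := sum_le_sum fun ω _ => key ω
  rw [h1, sum_const, card_univ, nsmul_eq_mul, ← sum_filter, sum_const, nsmul_eq_mul, mul_one] at h2
  have hQ : (0 : ℝ) < Fintype.card (Fin T → X m L) := by
    exact_mod_cast Fintype.card_pos
  refine le_of_mul_le_mul_left ?_ hQ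
  calc _ ≤ _ := h2
    _ = _ := by ring

end

end Pool.Agent.H43.RO
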