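import Pool.Agent.H43.RO.Def

/-!
# On-line colouring: the random graph is 3-colourable (task T6)

By induction on `l` every vertex `(u, y)` gets a type of level `L + 1 - l` which depends only on
the first `l` coordinates of `y`, admissibly along the edges.
-/

set_option autoImplicit false

namespace Pool.Agent.H43.RO

open Finset
open Pool.Agent.H64.OC2 (Fam Ty Adm Ok)

theorem nonempty_Ty (j : ℕ) : Nonempty (Ty j) := by
  cases j with
  | zero => exact ⟨(0 : Fin 3)⟩
  | succ j => exact ⟨(∅ : Set (Ty j))⟩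

/-- the choice of a type one level down -/
theorem exists_pick (j : ℕ) : ∃ pick : Ty (j + 1) → Ty (j + 1) → Ty j,
    ∀ A B : Ty (j + 1), Ok (j + 1) A →
      (Ok j (pick A B) ∧ (pick A B) ∈ (show Set (Ty j) from A)) ∧
      (Adm (j + 1) A B → ∀ b ∈ (show Set (Ty j) from B), Adm j (pick A B) b) := by
  classical
  have h : ∀ A B : Ty (j + 1), ∃ a : Ty j, Ok (j + 1) A →
      (Ok j a ∧ a ∈ (show Set (Ty j) from A)) ∧
      (Adm (j + 1) A B → ∀ b ∈ (show Set (Ty j) from B), Adm j a b) := by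
    intro A B
    by_cases hA : Ok (j + 1) A
    · by_cases hAB : Adm (j + 1) A B
      · obtain ⟨a, ha, hb⟩ := hAB
        exact ⟨a, fun _ => ⟨⟨hA.2 a ha, ha⟩, fun _ => hb⟩⟩
      · obtain ⟨a, ha⟩ := hA.1
        exact ⟨a, fun _ => ⟨⟨hA.2 a ha, ha⟩, fun h' => absurd h' hAB⟩⟩
    · obtain ⟨a⟩ := nonempty_Ty j
      exact ⟨a, fun h' => absurd h' hA⟩
  choose pick hpick using h
  exact ⟨pick, hpick⟩

/-- the abstract induction step -/
theorem types_exist {T N : ℕ} {M : Type} [AddCommGroup M] (E : Fin T → Fin T → Prop)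
    (q : Fin T → Fin T → ℕ → M)
    (huniq : ∀ u v v', E u v → E u v' → q u v 0 = q u v' 0 → v = v')
    (τ₀ : Fin T → Ty N) (hOk : ∀ u, Ok N (τ₀ u)) (hAdm : ∀ u v, E u v → Adm N (τ₀ u) (τ₀ v)) :
    ∀ l j : ℕ, j + l = N → ∃ τ : Fin T → (ℕ → M) → Ty j,
      (∀ u y y', (∀ i < l, y i = y' i) → τ u y = τ u y') ∧
      (∀ u y, Ok j (τ u y)) ∧
      ∀ u v x y, E u v → (0 < l → y 0 = q u v 0) →
        (∀ i, i + 1 < l → y (i + 1) = x i + q u v (i + 1)) → Adm j (τ u y) (τ v x) := by
  classical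
  intro l
  induction l with
  | zero =>
    intro j hj
    obtain rfl : j = N := by omega
    exact ⟨fun u _ => τ₀ u, fun _ _ _ _ => rfl, fun u _ => hOk u,
      fun u v _ _ h _ _ => hAdm u v h⟩
  | succ l ih =>
    intro j hj
    obtain ⟨τ, h1, h2, h3⟩ := ih (j + 1) (by omega)
    obtain ⟨pick, hpick⟩ := exists_pick j
    have husr : ∃ usr : Fin T → M → Fin T, ∀ u v, E u v → usr u (q u v 0) = v := by
      refine ⟨fun u s => if h : ∃ v, E u v ∧ q u v 0 = s then h.choose else u, ?_⟩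
      intro u v huv
      have hex : ∃ v', E u v' ∧ q u v' 0 = q u v 0 := ⟨v, huv, rfl⟩
      show (if h : ∃ v', E u v' ∧ q u v' 0 = q u v 0 then h.choose else u) = v
      rw [dif_pos hex]
      exact huniq u _ _ hex.choose_spec.1 huv hex.choose_spec.2
    obtain ⟨usr, husr⟩ := husr
    refine ⟨fun u y => pick (τ u y)
      (τ (usr u (y 0)) (fun i => y (i + 1) - q u (usr u (y 0)) (i + 1))), ?_, ?_, ?_⟩
    · intro u y y' hyy
      have e0 : y 0 = y' 0 := hyy 0 (by omega)
      have e1 : τ u y = τ u y' := h1 u y y' fun i hi => hyy i (by omega)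
      have e2 : τ (usr u (y 0)) (fun i => y (i + 1) - q u (usr u (y 0)) (i + 1)) =
          τ (usr u (y' 0)) (fun i => y' (i + 1) - q u (usr u (y' 0)) (i + 1)) := by
        rw [← e0]
        refine h1 _ _ _ fun i hi => ?_
        show y (i + 1) - _ = y' (i + 1) - _
        rw [hyy (i + 1) (by omega)]
      show pick _ _ = pick _ _
      rw [e1, e2]
    · intro u y
      exact (hpick _ _ (h2 u y)).1.1
    · intro u v x y huv hy0 hyx
      have e0 : y 0 = q u v 0 := hy0 (by omega)
      have eu : usr u (y 0) = v := by rw [e0]; exact husr u v huv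
      have ex : τ v (fun i => y (i + 1) - q u v (i + 1)) = τ v x := by
        refine h1 _ _ _ fun i hi => ?_
        show y (i + 1) - q u v (i + 1) = x i
        rw [hyx i (by omega)]
        abel
      have hadm : Adm (j + 1) (τ u y) (τ v x) := by
        rw [← ex]
        refine h3 u v _ y huv (fun _ => e0) fun i hi => ?_
        show y (i + 1) = y (i + 1) - q u v (i + 1) + q u v (i + 1)
        abel
      show Adm j (pick (τ u y) (τ (usr u (y 0)) (fun i => y (i + 1) - q u (usr u (y 0)) (i + 1))))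
        (pick (τ v x) _)
      rw [eu, ex]
      exact (hpick _ _ (h2 u y)).2 hadm _ (hpick _ _ (h2 v x)).1.2

variable {T m L h : ℕ}

/-- T6: the graph is 3-colourable. -/
theorem colour_exists (hfam : Fam (L + 1) (2 * h)) (ω : Om T m L h) :
    ∃ κ : Fin T → X m L → Fin 3, ∀ u v x, Nb ω u v → Fresh ω u v →
      κ u (qq ω u v + sh x) ≠ κ v x := by
  classical
  obtain ⟨Y, hY1, hY2⟩ := hfam
  have e : Fin h × Bool ≃ Fin (2 * h) := by
    refine Fintype.equivOfCardEq ?_
    simp [mul_comm]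
  let q : Fin T → Fin T → ℕ → ZMod m := fun u v i =>
    if hi : i < L + 1 then qq ω u v ⟨i, hi⟩ else 0
  let ext : X m L → ℕ → ZMod m := fun x i => if hi : i < L + 1 then x ⟨i, hi⟩ else 0
  have huniq : ∀ u v v', (Nb ω u v ∧ Fresh ω u v) → (Nb ω u v' ∧ Fresh ω u v') →
      q u v 0 = q u v' 0 → v = v' := by
    intro u v v' h1 h2 hq
    have hq' : qq ω u v 0 = qq ω u v' 0 := by
      have : (0 : ℕ) < L + 1 := Nat.succ_pos L
      simpa [q] using hq
    rcases lt_trichotomy v v' with hlt | heq | hgt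
    · exact absurd hq' (h2.2 v h1.1.1 hlt)
    · exact heq
    · exact absurd hq'.symm (h1.2 v' h2.1.1 hgt)
  obtain ⟨τ, -, -, h3⟩ := types_exist (T := T) (N := L + 1) (M := ZMod m)
    (fun u v => Nb ω u v ∧ Fresh ω u v) q huniq (fun u => Y (e (ty ω u))) (fun u => hY1 _)
    (by
      intro u v huv
      refine hY2 _ _ fun heq => ?_
      have hty : ty ω u = ty ω v := e.injective heq
      apply huv.1.2
      rw [hty]
      rfl) (L + 1) 0 (by omega)
  refine ⟨fun v x => (show Fin 3 from τ v (ext x)), ?_⟩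
  intro u v x hn hf
  have hadm := h3 u v (ext x) (ext (qq ω u v + sh x)) ⟨hn, hf⟩ (fun _ => ?_) (fun i hi => ?_)
  · exact hadm
  · simp [ext, q, sh]
  · have hi' : i < L + 1 := by omega
    have hiL : i < L := by omega
    have e2 : sh x (⟨i + 1, hi⟩ : Fin (L + 1)) = x ⟨i, hi'⟩ := by
      have e1 : (⟨i + 1, hi⟩ : Fin (L + 1)) = Fin.succ ⟨i, hiL⟩ := rfl
      rw [e1]
      rfl
    simp only [ext, q, dif_pos hi, dif_pos hi']
    rw [Pi.add_apply, e2, add_comm]

end Pool.Agent.H43.RO
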