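import Pool.Agent.H43.RO.Def

/-!
# On-line colouring, oblivious adversary: common lemmas
-/

set_option autoImplicit false

namespace Pool.Agent.H43.RO

open Finset

variable {T m L h : ℕ} [NeZero m] {c : Om T m L h → Fin T → X m L → ℕ}

theorem cardX_pos : (0 : ℝ) < Fintype.card (X m L) := by
  exact_mod_cast Fintype.card_pos

theorem cardX : Fintype.card (X m L) = m ^ (L + 1) := by
  simp [X, ZMod.card]

theorem D_nonneg (c : Om T m L h → Fin T → X m L → ℕ) (ω : Om T m L h) (s : ℕ) (u : Fin T)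
    (b : ℕ) : 0 ≤ D c ω s u b := by
  unfold D; positivity

theorem F_nonneg (c : Om T m L h → Fin T → X m L → ℕ) (ω : Om T m L h) (u : Fin T)
    (b : ℕ) : 0 ≤ F c ω u b := by
  unfold F; positivity

theorem D_le_F (c : Om T m L h → Fin T → X m L → ℕ) (ω : Om T m L h) (s : ℕ) (u : Fin T)
    (b : ℕ) : D c ω s u b ≤ F c ω u b := by
  classical
  unfold D F
  refine div_le_div_of_nonneg_right ?_ cardX_pos.le
  exact_mod_cast card_le_card fun y hy => by
    rw [mem_filter] at hy ⊢
    exact ⟨mem_univ _, hy.2.1⟩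

theorem D_anti (c : Om T m L h → Fin T → X m L → ℕ) (ω : Om T m L h) {s s' : ℕ} (hs : s ≤ s')
    (u : Fin T) (b : ℕ) : D c ω s' u b ≤ D c ω s u b := by
  classical
  unfold D
  refine div_le_div_of_nonneg_right ?_ cardX_pos.le
  exact_mod_cast card_le_card fun y hy => by
    rw [mem_filter] at hy ⊢
    exact ⟨mem_univ _, hy.2.1, fun v' h1 h2 => hy.2.2 v' h1 (by omega)⟩

/-- no slot of `u` is used at time `u + 1` -/
theorem D_self (c : Om T m L h → Fin T → X m L → ℕ) (ω : Om T m L h) {s : ℕ}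
    (u : Fin T) (hs : s ≤ u.val + 1) (b : ℕ) : D c ω s u b = F c ω u b := by
  classical
  unfold D F
  congr 2
  refine congrArg card (filter_congr fun y _ => ?_)
  refine ⟨fun h => h.1, fun h => ⟨h, fun v' h1 h2 => ?_⟩⟩
  have : u.val < v'.val := h1
  omega

theorem F_le_one (c : Om T m L h → Fin T → X m L → ℕ) (ω : Om T m L h) (u : Fin T)
    (b : ℕ) : F c ω u b ≤ 1 := by
  classical
  unfold F
  rw [div_le_one cardX_pos]
  exact_mod_cast (card_le_univ _)

theorem W_nonneg (c : Om T m L h → Fin T → X m L → ℕ) (ω : Om T m L h) (s : ℕ)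
    (b : ℕ) (t : Fin h × Bool) : 0 ≤ W c ω s b t :=
  sum_nonneg fun _ _ => D_nonneg _ _ _ _ _

theorem mem_cols {ω : Om T m L h} {s : ℕ} {b : ℕ} :
    b ∈ cols c ω s ↔ ∃ v : Fin T, v.val < s ∧ ∃ x, c ω v x = b := by
  classical
  simp [cols]

theorem cols_mono (c : Om T m L h → Fin T → X m L → ℕ) (ω : Om T m L h) {s s' : ℕ}
    (hs : s ≤ s') : cols c ω s ⊆ cols c ω s' := by
  intro b hb
  rw [mem_cols] at hb ⊢
  obtain ⟨v, hv, x, hx⟩ := hb
  exact ⟨v, by omega, x, hx⟩

theorem F_eq_zero {ω : Om T m L h} {v : Fin T} {b : ℕ} (hb : ∀ x, c ω v x ≠ b) :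
    F c ω v b = 0 := by
  classical
  unfold F
  have : (univ.filter fun y : X m L => c ω v y = b) = ∅ :=
    filter_eq_empty_iff.2 fun x _ => hb x
  rw [this]; simp

theorem D_eq_zero_of_not_mem {ω : Om T m L h} {s s' : ℕ} {u : Fin T} (hu : u.val < s) {b : ℕ}
    (hb : b ∉ cols c ω s) : D c ω s' u b = 0 := by
  refine le_antisymm ((D_le_F _ _ _ _ _).trans_eq ?_) (D_nonneg _ _ _ _ _)
  refine F_eq_zero fun x hx => hb ?_
  exact mem_cols.2 ⟨u, hu, x, hx⟩

theorem W_eq_zero_of_not_mem {ω : Om T m L h} {s : ℕ} {b : ℕ}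
    (hb : b ∉ cols c ω s) (t : Fin h × Bool) : W c ω s b t = 0 := by
  classical
  unfold W
  refine sum_eq_zero fun u hu => ?_
  rw [mem_filter] at hu
  exact D_eq_zero_of_not_mem hu.2.1 hb

theorem S_nonpos_of_not_mem {θ : ℝ} {ω : Om T m L h} {s : ℕ} {b : ℕ}
    (hb : b ∉ cols c ω s) : S θ c ω s b ≤ 0 := by
  unfold S
  refine sum_nonpos fun t _ => ?_
  rw [W_eq_zero_of_not_mem hb]
  exact min_le_left _ _

/-- `∑ b, F = 1` over any finite set of bins containing the colours of the block -/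
theorem sum_F {ω : Om T m L h} {v : Fin T} {s : ℕ} (hv : v.val < s) :
    ∑ b ∈ cols c ω s, F c ω v b = 1 := by
  classical
  unfold F
  rw [← sum_div, div_eq_one_iff_eq cardX_pos.ne']
  have h := card_eq_sum_card_fiberwise (f := c ω v) (s := (univ : Finset (X m L)))
    (t := cols c ω s) (fun x _ => mem_cols.2 ⟨v, hv, x, rfl⟩)
  have h2 : Fintype.card (X m L) = (univ : Finset (X m L)).card := rfl
  rw [h2, h]
  push_cast
  rfl

theorem nb_iff {ω : Om T m L h} {u v : Fin T} :
    Nb ω u v ↔ u < v ∧ ty ω u = ((ty ω u).1, !al ω v (ty ω u).1) := by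
  unfold Nb
  refine and_congr Iff.rfl ?_
  constructor
  · intro h
    refine Prod.ext rfl ?_
    show (ty ω u).2 = !al ω v (ty ω u).1
    revert h
    cases al ω v (ty ω u).1 <;> cases (ty ω u).2 <;> simp
  · intro h h2
    have h3 := congrArg Prod.snd h
    simp only at h3
    rw [← h2] at h3
    revert h3
    cases al ω v (ty ω u).1 <;> simp

/-- the weight on the neighbours of `v` -/
theorem sum_Nb (c : Om T m L h → Fin T → X m L → ℕ) (ω : Om T m L h) (v : Fin T) (b : ℕ) :
    (open Classical in ∑ u ∈ univ.filter (fun u : Fin T => Nb ω u v), D c ω v u b) =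
      ∑ g : Fin h, W c ω v b (g, !al ω v g) := by
  classical
  unfold W
  rw [← sum_biUnion]
  · refine sum_congr ?_ fun _ _ => rfl
    ext u
    simp only [mem_filter, mem_univ, true_and, mem_biUnion]
    rw [nb_iff]
    constructor
    · rintro ⟨h1, h2⟩
      exact ⟨(ty ω u).1, h1, h2⟩
    · rintro ⟨g, h1, h2⟩
      refine ⟨h1, ?_⟩
      have : (ty ω u).1 = g := by rw [h2]
      rw [this]
      exact h2
  · intro g _ g' _ hgg
    rw [Function.onFun, disjoint_left]
    intro u hu hu'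
    rw [mem_filter] at hu hu'
    apply hgg
    have h1 := hu.2.2
    rw [hu'.2.2] at h1
    exact (congrArg Prod.fst h1).symm

/-- a colour used at `v` is light -/
theorem S_lt_of_used {θ M : ℝ} (hc : Play c) (hM : 0 < M) {ω : Om T m L h} {v : Fin T}
    (h1 : E1 θ M c ω v) (h2 : E2 θ c ω v) (x : X m L) : S θ c ω v (c ω v x) < M := by
  classical
  by_contra hle
  rw [not_lt] at hle
  by_cases hb : c ω v x ∈ cols c ω v
  · have h3 := h1 _ hb hle
    have h4 : θ ≤ ∑ u ∈ univ.filter (fun u : Fin T => Nb ω u v), D c ω v u (c ω v x) := by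
      have h5 := sum_Nb c ω v (c ω v x)
      have h6 : ∑ g : Fin h, min (W c ω v (c ω v x) (g, !al ω v g)) θ ≤
          ∑ g : Fin h, W c ω v (c ω v x) (g, !al ω v g) :=
        sum_le_sum fun g _ => min_le_left _ _
      have h7 := h3.trans h6
      rw [← h5] at h7
      convert h7
    obtain ⟨u, h5, h6, h7⟩ := h2 _ hb (by convert h4) x
    exact hc.proper ω u v x h5 h6 h7
  · have := S_nonpos_of_not_mem (θ := θ) hb
    linarith

end Pool.Agent.H43.RO
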