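import Pool.Agent.H43.RO.Com

/-!
# On-line colouring, oblivious adversary: the counting argument
-/

set_option autoImplicit false

namespace Pool.Agent.H43.RO

open Finset

variable {T m L h : ℕ} [NeZero m] {c : Om T m L h → Fin T → X m L → ℕ}

theorem core_of {θ : ℝ} (hθ : 2 ≤ θ) (hm : 16 * T ≤ m) (K : ℕ)
    (hU : UpperStmt θ (8 * θ ^ 2) K c) (hL : LowerStmt θ (8 * θ ^ 2) K c)
    (hB1 : B1Stmt θ (8 * θ ^ 2) K c) (hB2 : B2Stmt θ K c)
    (h1 : T * (K * (Fintype.card (X m L) + 1) * Real.exp (-θ)) ≤ 1 / 8)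
    (h2 : 72 * K * θ ^ 2 < T) :
    (open Classical in
      2 * ((univ.filter fun ω : Om T m L h => (cols c ω T).card ≤ K).card : ℝ)) ≤
        Fintype.card (Om T m L h) := by
  classical
  set Ω : ℝ := ((Fintype.card (Om T m L h) : ℕ) : ℝ) with hΩ
  set β : ℝ := ((univ.filter fun ω : Om T m L h => (cols c ω T).card ≤ K).card : ℝ) with hβ
  have hT : (0 : ℝ) < T := lt_of_le_of_lt (by positivity) h2
  have hT1 : (1 : ℝ) ≤ T := by
    have : 0 < T := by exact_mod_cast hT
    exact_mod_cast this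
  -- for each v the number of Good ω is at least β - Ω/8
  have hgood : ∀ v : Fin T, β - Ω / 8 ≤
      ((univ.filter fun ω => Good θ (8 * θ ^ 2) K c ω v).card : ℝ) := by
    intro v
    have hsub : (univ.filter fun ω : Om T m L h => (cols c ω T).card ≤ K) ⊆
        (univ.filter fun ω => Good θ (8 * θ ^ 2) K c ω v) ∪
        (univ : Finset (Fin T)).biUnion (fun w =>
          (univ.filter fun ω => (cols c ω w).card ≤ K ∧ ¬ E1 θ (8 * θ ^ 2) c ω w) ∪
          (univ.filter fun ω => (cols c ω w).card ≤ K ∧ ¬ E2 θ c ω w)) := by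
      intro ω hω
      rw [mem_filter] at hω
      by_cases hg : Good θ (8 * θ ^ 2) K c ω v
      · exact mem_union_left _ (mem_filter.2 ⟨mem_univ _, hg⟩)
      · refine mem_union_right _ ?_
        rw [mem_biUnion]
        have hcard : (cols c ω (v.val + 1)).card ≤ K :=
          (card_le_card (cols_mono c ω v.isLt)).trans hω.2
        have : ¬ ∀ w ≤ v, E1 θ (8 * θ ^ 2) c ω w ∧ E2 θ c ω w := fun h3 => hg ⟨h3, hcard⟩
        push Not at this
        obtain ⟨w, hw, hw2⟩ := this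
        have hcw : (cols c ω w).card ≤ K :=
          (card_le_card (cols_mono c ω w.isLt.le)).trans hω.2
        refine ⟨w, mem_univ _, ?_⟩
        by_cases h4 : E1 θ (8 * θ ^ 2) c ω w
        · exact mem_union_right _ (mem_filter.2 ⟨mem_univ _, hcw, hw2 h4⟩)
        · exact mem_union_left _ (mem_filter.2 ⟨mem_univ _, hcw, h4⟩)
    have h3 := (card_le_card hsub).trans (card_union_le _ _)
    have h4 := h3.trans (Nat.add_le_add_left card_biUnion_le _)
    have h5 : β ≤ ((univ.filter fun ω => Good θ (8 * θ ^ 2) K c ω v).card : ℝ) +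
        ∑ w : Fin T, (((univ.filter fun ω => (cols c ω w).card ≤ K ∧
          ¬ E1 θ (8 * θ ^ 2) c ω w) ∪
          (univ.filter fun ω => (cols c ω w).card ≤ K ∧ ¬ E2 θ c ω w)).card : ℝ) := by
      rw [hβ]
      exact_mod_cast h4
    have h6 : ∑ w : Fin T, (((univ.filter fun ω => (cols c ω w).card ≤ K ∧
          ¬ E1 θ (8 * θ ^ 2) c ω w) ∪
          (univ.filter fun ω => (cols c ω w).card ≤ K ∧ ¬ E2 θ c ω w)).card : ℝ) ≤ Ω / 8 := by
      have h7 : ∀ w : Fin T, (((univ.filter fun ω => (cols c ω w).card ≤ K ∧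
          ¬ E1 θ (8 * θ ^ 2) c ω w) ∪
          (univ.filter fun ω => (cols c ω w).card ≤ K ∧ ¬ E2 θ c ω w)).card : ℝ) ≤
          K * (Fintype.card (X m L) + 1) * Real.exp (-θ) * Ω := by
        intro w
        have h8 : (((univ.filter fun ω => (cols c ω w).card ≤ K ∧
          ¬ E1 θ (8 * θ ^ 2) c ω w) ∪
          (univ.filter fun ω => (cols c ω w).card ≤ K ∧ ¬ E2 θ c ω w)).card : ℝ) ≤
          ((univ.filter fun ω => (cols c ω w).card ≤ K ∧
          ¬ E1 θ (8 * θ ^ 2) c ω w).card : ℝ) +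
          ((univ.filter fun ω => (cols c ω w).card ≤ K ∧ ¬ E2 θ c ω w).card : ℝ) := by
          exact_mod_cast card_union_le _ _
        have h9 := hB1 w
        have h10 := hB2 w
        have h9' : ((univ.filter fun ω => (cols c ω w).card ≤ K ∧
          ¬ E1 θ (8 * θ ^ 2) c ω w).card : ℝ) ≤ K * Real.exp (-θ) * Ω := by
          convert h9
        have h10' : ((univ.filter fun ω => (cols c ω w).card ≤ K ∧ ¬ E2 θ c ω w).card : ℝ) ≤
          K * Fintype.card (X m L) * Real.exp (-θ) * Ω := by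
          convert h10
        linarith
      calc _ ≤ ∑ _w : Fin T, K * ((Fintype.card (X m L) : ℝ) + 1) * Real.exp (-θ) * Ω :=
            sum_le_sum fun w _ => h7 w
        _ = (T * (K * ((Fintype.card (X m L) : ℝ) + 1) * Real.exp (-θ))) * Ω := by
            rw [sum_const, card_univ, Fintype.card_fin, nsmul_eq_mul]; ring
        _ ≤ (1 / 8) * Ω := mul_le_mul_of_nonneg_right h1 (by positivity)
        _ = Ω / 8 := by ring
    linarith
  have hsum : (T : ℝ) * ((1 / 2) * (β - Ω / 8)) ≤ (K * (8 * θ ^ 2 + 1) + (T : ℝ) ^ 2 / m) * Ω := by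
    calc (T : ℝ) * ((1 / 2) * (β - Ω / 8))
        = ∑ _v : Fin T, (1 / 2) * (β - Ω / 8) := by
          rw [sum_const, card_univ, Fintype.card_fin, nsmul_eq_mul]
      _ ≤ ∑ v : Fin T, ∑ ω, gainG θ (8 * θ ^ 2) K c ω v := by
          refine sum_le_sum fun v _ => ?_
          have h3 := hL v
          have h4 : (1 / 2 : ℝ) * ((univ.filter fun ω => Good θ (8 * θ ^ 2) K c ω v).card : ℝ) ≤
            ∑ ω, gainG θ (8 * θ ^ 2) K c ω v := by convert h3
          have h5 := hgood v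
          linarith
      _ = ∑ ω, ∑ v : Fin T, gainG θ (8 * θ ^ 2) K c ω v := sum_comm
      _ ≤ ∑ _ω : Om T m L h, (K * (8 * θ ^ 2 + 1) + (T : ℝ) ^ 2 / m) :=
          sum_le_sum fun ω _ => hU ω
      _ = (K * (8 * θ ^ 2 + 1) + (T : ℝ) ^ 2 / m) * Ω := by
          rw [sum_const, card_univ, nsmul_eq_mul]; ring
  have hmT : (T : ℝ) ^ 2 / m ≤ T / 16 := by
    have hm' : (16 : ℝ) * T ≤ m := by exact_mod_cast hm
    have hm0 : (0 : ℝ) < m := by linarith
    rw [div_le_div_iff₀ hm0 (by norm_num)]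
    nlinarith
  have hK : (K : ℝ) * (8 * θ ^ 2 + 1) ≤ T / 8 := by
    have h3 : (1 : ℝ) ≤ θ ^ 2 := by nlinarith
    have h4 : (0 : ℝ) ≤ K := by positivity
    nlinarith
  have hΩ0 : 0 ≤ Ω := by positivity
  have h3 : (T : ℝ) * ((1 / 2) * (β - Ω / 8)) ≤ (3 * T / 16) * Ω :=
    hsum.trans (mul_le_mul_of_nonneg_right (by linarith) hΩ0)
  have h4 : (1 / 2) * (β - Ω / 8) ≤ (3 / 16) * Ω := by
    have h5 : (T : ℝ) * ((1 / 2) * (β - Ω / 8)) ≤ T * ((3 / 16) * Ω) := by linarith
    exact le_of_mul_le_mul_left h5 hT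
  linarith

end Pool.Agent.H43.RO
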