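import Pool.Agent.H43.RO.Com

/-!
# On-line colouring, oblivious adversary: the counting argument, exponential form
-/

set_option autoImplicit false

namespace Pool.Agent.H43.RO

open Finset

variable {T m L h : ℕ} [NeZero m] {c : Om T m L h → Fin T → X m L → ℕ}

theorem core2_of {θ : ℝ} (hθ : 2 ≤ θ) (hm : 16 * T ≤ m) (K : ℕ)
    (hA : (open Classical in
      ((univ.filter fun ω : Om T m L h => ∀ v, Good θ (8 * θ ^ 2) K c ω v).card : ℝ)) ≤
        Real.exp (K * (8 * θ ^ 2 + 1) + (T : ℝ) ^ 2 / m - 5 * T / 16) *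
          Fintype.card (Om T m L h))
    (hB1 : B1Stmt θ (8 * θ ^ 2) K c) (hB2 : B2Stmt θ K c)
    (h2 : 72 * K * θ ^ 2 < T) :
    (open Classical in
      ((univ.filter fun ω : Om T m L h => (cols c ω T).card ≤ K).card : ℝ)) ≤
        (Real.exp (-((T : ℝ) / 8)) +
          T * (K * (Fintype.card (X m L) + 1) * Real.exp (-θ))) *
            Fintype.card (Om T m L h) := by
  classical
  set Ω : ℝ := ((Fintype.card (Om T m L h) : ℕ) : ℝ) with hΩ
  set β : ℝ := ((univ.filter fun ω : Om T m L h => (cols c ω T).card ≤ K).card : ℝ) with hβ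
  have hT : (0 : ℝ) < T := lt_of_le_of_lt (by positivity) h2
  have hT1 : (1 : ℝ) ≤ T := by
    have : 0 < T := by exact_mod_cast hT
    exact_mod_cast this
  have hsub : (univ.filter fun ω : Om T m L h => (cols c ω T).card ≤ K) ⊆
      (univ.filter fun ω => ∀ v, Good θ (8 * θ ^ 2) K c ω v) ∪
      (univ : Finset (Fin T)).biUnion (fun w =>
        (univ.filter fun ω => (cols c ω w).card ≤ K ∧ ¬ E1 θ (8 * θ ^ 2) c ω w) ∪
        (univ.filter fun ω => (cols c ω w).card ≤ K ∧ ¬ E2 θ c ω w)) := by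
    intro ω hω
    rw [mem_filter] at hω
    by_cases hg : ∀ v, Good θ (8 * θ ^ 2) K c ω v
    · exact mem_union_left _ (mem_filter.2 ⟨mem_univ _, hg⟩)
    · refine mem_union_right _ ?_
      rw [mem_biUnion]
      rw [not_forall] at hg
      obtain ⟨v, hg⟩ := hg
      have hcard : (cols c ω (v.val + 1)).card ≤ K :=
        (card_le_card (cols_mono c ω v.isLt)).trans hω.2
      have : ¬ ∀ w ≤ v, E1 θ (8 * θ ^ 2) c ω w ∧ E2 θ c ω w := fun h3 => hg ⟨h3, hcard⟩
      push Not at this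
      obtain ⟨w, hw, hw2⟩ := this
      have hcw : (cols c ω w).card ≤ K :=
        (card_le_card (cols_mono c ω w.isLt.le)).trans hω.2
      refine ⟨w, mem_univ _, ?_⟩
      by_cases h4 : E1 θ (8 * θ ^ 2) c ω w
      · exact mem_union_right _ (mem_filter.2 ⟨mem_univ _, hcw, hw2 h4⟩)
      · exact mem_union_left _ (mem_filter.2 ⟨mem_univ _, hcw, h4⟩)
  have h3 := (card_le_card hsub).trans (card_union_le _ _)
  have h4 := h3.trans (Nat.add_le_add_left card_biUnion_le _)
  have h5 : β ≤ ((univ.filter fun ω => ∀ v, Good θ (8 * θ ^ 2) K c ω v).card : ℝ) +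
      ∑ w : Fin T, (((univ.filter fun ω => (cols c ω w).card ≤ K ∧
        ¬ E1 θ (8 * θ ^ 2) c ω w) ∪
        (univ.filter fun ω => (cols c ω w).card ≤ K ∧ ¬ E2 θ c ω w)).card : ℝ) := by
    rw [hβ]
    exact_mod_cast h4
  have h6 : ∑ w : Fin T, (((univ.filter fun ω => (cols c ω w).card ≤ K ∧
        ¬ E1 θ (8 * θ ^ 2) c ω w) ∪
        (univ.filter fun ω => (cols c ω w).card ≤ K ∧ ¬ E2 θ c ω w)).card : ℝ) ≤
        (T * (K * ((Fintype.card (X m L) : ℝ) + 1) * Real.exp (-θ))) * Ω := by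
    have h7 : ∀ w : Fin T, (((univ.filter fun ω => (cols c ω w).card ≤ K ∧
        ¬ E1 θ (8 * θ ^ 2) c ω w) ∪
        (univ.filter fun ω => (cols c ω w).card ≤ K ∧ ¬ E2 θ c ω w)).card : ℝ) ≤
        K * (Fintype.card (X m L) + 1) * Real.exp (-θ) * Ω := by
      intro w
      have h8 : (((univ.filter fun ω => (cols c ω w).card ≤ K ∧
        ¬ E1 θ (8 * θ ^ 2) c ω w) ∪
        (univ.filter fun ω => (cols c ω w).card ≤ K ∧ ¬ E2 θ c ω w)).card : ℝ) ≤
        ((univ.filter fun ω => (cols c ω w).card ≤ K ∧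
        ¬ E1 θ (8 * θ ^ 2) c ω w).card : ℝ) +
        ((univ.filter fun ω => (cols c ω w).card ≤ K ∧ ¬ E2 θ c ω w).card : ℝ) := by
        exact_mod_cast card_union_le _ _
      have h9 := hB1 w
      have h10 := hB2 w
      have h9' : ((univ.filter fun ω => (cols c ω w).card ≤ K ∧
        ¬ E1 θ (8 * θ ^ 2) c ω w).card : ℝ) ≤ K * Real.exp (-θ) * Ω := by
        convert h9
      have h10' : ((univ.filter fun ω => (cols c ω w).card ≤ K ∧ ¬ E2 θ c ω w).card : ℝ) ≤
        K * Fintype.card (X m L) * Real.exp (-θ) * Ω := by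
        convert h10
      linarith
    calc _ ≤ ∑ _w : Fin T, K * ((Fintype.card (X m L) : ℝ) + 1) * Real.exp (-θ) * Ω :=
          sum_le_sum fun w _ => h7 w
      _ = (T * (K * ((Fintype.card (X m L) : ℝ) + 1) * Real.exp (-θ))) * Ω := by
          rw [sum_const, card_univ, Fintype.card_fin, nsmul_eq_mul]; ring
  have hmT : (T : ℝ) ^ 2 / m ≤ T / 16 := by
    have hm' : (16 : ℝ) * T ≤ m := by exact_mod_cast hm
    have hm0 : (0 : ℝ) < m := by linarith
    rw [div_le_div_iff₀ hm0 (by norm_num)]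
    nlinarith
  have hK : (K : ℝ) * (8 * θ ^ 2 + 1) ≤ T / 8 := by
    have h3 : (1 : ℝ) ≤ θ ^ 2 := by nlinarith
    have h4 : (0 : ℝ) ≤ K := by positivity
    nlinarith
  have hexp : Real.exp (K * (8 * θ ^ 2 + 1) + (T : ℝ) ^ 2 / m - 5 * T / 16) ≤
      Real.exp (-((T : ℝ) / 8)) := by
    refine Real.exp_le_exp.2 ?_
    linarith
  have hA' : ((univ.filter fun ω : Om T m L h => ∀ v, Good θ (8 * θ ^ 2) K c ω v).card : ℝ) ≤
      Real.exp (-((T : ℝ) / 8)) * Ω := by
    refine le_trans ?_ (mul_le_mul_of_nonneg_right hexp (by positivity))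
    convert hA
  have hfin : β ≤ (Real.exp (-((T : ℝ) / 8)) +
          T * (K * (Fintype.card (X m L) + 1) * Real.exp (-θ))) * Ω := by
    rw [add_mul]
    linarith
  convert hfin

end Pool.Agent.H43.RO
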