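import Pool.Agent.H43.RO.Def

/-!
# On-line colouring, oblivious adversary: the counting argument (T5)

`core_of`: the four statements `UpperStmt`, `LowerStmt`, `B1Stmt`, `B2Stmt` give that at most half
of the random choices leave the number of colours at most `K`.
-/

set_option autoImplicit false

namespace Pool.Agent.H43.RO

open Finset

variable {T m L h : ℕ} [NeZero m] {c : Om T m L h → Fin T → X m L → ℕ}

private theorem cols_mono' (c : Om T m L h → Fin T → X m L → ℕ) (ω : Om T m L h) {s s' : ℕ}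
    (hs : s ≤ s') : cols c ω s ⊆ cols c ω s' := by
  classical
  unfold cols
  refine biUnion_subset_biUnion_of_subset_left _ fun v hv => ?_
  rw [mem_filter] at hv ⊢
  exact ⟨hv.1, by omega⟩

open Classical in
theorem core_of {θ : ℝ} {K : ℕ} (hθ : 2 ≤ θ) (hm : 16 * T ≤ m)
    (hU : UpperStmt θ (8 * θ ^ 2) K c) (hL : LowerStmt θ (8 * θ ^ 2) K c)
    (hB1 : B1Stmt θ (8 * θ ^ 2) K c) (hB2 : B2Stmt θ K c)
    (h1 : T * (K * (Fintype.card (X m L) + 1) * Real.exp (-θ)) ≤ 1 / 8)
    (h2 : 72 * K * θ ^ 2 < T) :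
    2 * (Fintype.card {ω : Om T m L h // (cols c ω T).card ≤ K}) ≤ Fintype.card (Om T m L h) := by
  set N : ℕ := Fintype.card (Om T m L h) with hN
  set B : Finset (Om T m L h) := univ.filter fun ω => (cols c ω T).card ≤ K with hB
  have hcard : Fintype.card {ω : Om T m L h // (cols c ω T).card ≤ K} = B.card := by
    rw [Fintype.card_subtype]
  rw [hcard]
  by_contra hcon
  push Not at hcon
  have hconR : (N : ℝ) < 2 * (B.card : ℝ) := by exact_mod_cast hcon
  have hNpos : (0 : ℝ) < N := by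
    have hle : B.card ≤ N := card_le_univ _
    have : 0 < N := by omega
    exact_mod_cast this
  have hθ2 : (4 : ℝ) ≤ θ ^ 2 := by nlinarith
  have hTpos : (0 : ℝ) < T := lt_of_le_of_lt (by positivity) h2
  have hTpos' : 0 < T := by exact_mod_cast hTpos
  have hmpos : (0 : ℝ) < m := by
    have : 0 < m := by omega
    exact_mod_cast this
  -- the bad sets
  let bad : Fin T → Finset (Om T m L h) := fun v =>
    (univ.filter fun ω => (cols c ω v).card ≤ K ∧ ¬ E1 θ (8 * θ ^ 2) c ω v) ∪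
      (univ.filter fun ω => (cols c ω v).card ≤ K ∧ ¬ E2 θ c ω v)
  have hbad : ∀ v, ((bad v).card : ℝ) ≤
      K * (Fintype.card (X m L) + 1) * Real.exp (-θ) * N := by
    intro v
    have h3 : ((bad v).card : ℝ) ≤
        ((univ.filter fun ω => (cols c ω v).card ≤ K ∧ ¬ E1 θ (8 * θ ^ 2) c ω v).card : ℝ) +
        ((univ.filter fun ω => (cols c ω v).card ≤ K ∧ ¬ E2 θ c ω v).card : ℝ) := by
      exact_mod_cast card_union_le _ _
    have h4 := hB1 v
    have h5 := hB2 v
    calc ((bad v).card : ℝ) ≤ K * Real.exp (-θ) * N +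
        K * Fintype.card (X m L) * Real.exp (-θ) * N := h3.trans (add_le_add h4 h5)
      _ = K * (Fintype.card (X m L) + 1) * Real.exp (-θ) * N := by ring
  -- all bad choices together
  have hbadsum : ((univ.biUnion bad).card : ℝ) ≤ 1 / 8 * N := by
    have h3 : ((univ.biUnion bad).card : ℝ) ≤ ∑ v : Fin T, ((bad v).card : ℝ) := by
      exact_mod_cast card_biUnion_le
    have h4 : ∑ v : Fin T, ((bad v).card : ℝ) ≤
        ∑ _v : Fin T, K * (Fintype.card (X m L) + 1) * Real.exp (-θ) * N :=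
      sum_le_sum fun v _ => hbad v
    rw [sum_const, card_univ, Fintype.card_fin, nsmul_eq_mul] at h4
    calc ((univ.biUnion bad).card : ℝ) ≤
        T * (K * (Fintype.card (X m L) + 1) * Real.exp (-θ) * N) := h3.trans h4
      _ = T * (K * (Fintype.card (X m L) + 1) * Real.exp (-θ)) * N := by ring
      _ ≤ 1 / 8 * N := mul_le_mul_of_nonneg_right h1 hNpos.le
  -- the good ones
  have hgood : ∀ v : Fin T, B \ univ.biUnion bad ⊆
      univ.filter fun ω => Good θ (8 * θ ^ 2) K c ω v := by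
    intro v ω hω
    rw [mem_sdiff, hB, mem_filter] at hω
    obtain ⟨⟨-, hω1⟩, hω2⟩ := hω
    rw [mem_filter]
    refine ⟨mem_univ _, fun w hw => ?_, ?_⟩
    · have hK : (cols c ω w).card ≤ K :=
        (card_le_card (cols_mono' c ω w.2.le)).trans hω1
      by_contra h3
      refine hω2 (mem_biUnion.2 ⟨w, mem_univ _, ?_⟩)
      rw [not_and_or] at h3
      rcases h3 with h3 | h3
      · exact mem_union_left _ (mem_filter.2 ⟨mem_univ _, hK, h3⟩)
      · exact mem_union_right _ (mem_filter.2 ⟨mem_univ _, hK, h3⟩)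
    · exact (card_le_card (cols_mono' c ω v.2)).trans hω1
  have hsd : (3 / 8 : ℝ) * N < ((B \ univ.biUnion bad).card : ℝ) := by
    have h3 : B.card ≤ (B \ univ.biUnion bad).card + (univ.biUnion bad).card := by
      have := card_le_card_sdiff_add_card (s := B) (t := univ.biUnion bad)
      omega
    have h4 : (B.card : ℝ) ≤ ((B \ univ.biUnion bad).card : ℝ) +
        ((univ.biUnion bad).card : ℝ) := by exact_mod_cast h3
    linarith
  -- lower bound
  have hlow : (T : ℝ) * (1 / 2 * (3 / 8 * N)) < ∑ v : Fin T, ∑ ω, gainG θ (8 * θ ^ 2) K c ω v := by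
    have h3 : ∀ v : Fin T, 1 / 2 * (3 / 8 * (N : ℝ)) < ∑ ω, gainG θ (8 * θ ^ 2) K c ω v := by
      intro v
      refine lt_of_lt_of_le ?_ (hL v)
      have h4 : ((B \ univ.biUnion bad).card : ℝ) ≤
          ((univ.filter fun ω => Good θ (8 * θ ^ 2) K c ω v).card : ℝ) := by
        exact_mod_cast card_le_card (hgood v)
      linarith
    have : Nonempty (Fin T) := ⟨⟨0, hTpos'⟩⟩
    calc (T : ℝ) * (1 / 2 * (3 / 8 * N)) = ∑ _v : Fin T, 1 / 2 * (3 / 8 * (N : ℝ)) := by
          rw [sum_const, card_univ, Fintype.card_fin, nsmul_eq_mul]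
      _ < _ := sum_lt_sum_of_nonempty univ_nonempty fun v _ => h3 v
  -- upper bound
  have hup : ∑ v : Fin T, ∑ ω, gainG θ (8 * θ ^ 2) K c ω v ≤
      N * (K * (8 * θ ^ 2 + 1) + (T : ℝ) ^ 2 / m) := by
    rw [sum_comm]
    calc ∑ ω, ∑ v : Fin T, gainG θ (8 * θ ^ 2) K c ω v ≤
        ∑ _ω : Om T m L h, (K * (8 * θ ^ 2 + 1) + (T : ℝ) ^ 2 / m) :=
          sum_le_sum fun ω _ => hU ω
      _ = _ := by rw [sum_const, card_univ, nsmul_eq_mul]
  have hTm : (T : ℝ) ^ 2 / m ≤ T / 16 := by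
    rw [div_le_div_iff₀ hmpos (by norm_num)]
    have : (16 * T : ℝ) ≤ m := by exact_mod_cast hm
    nlinarith
  have h6 : (T : ℝ) * (1 / 2 * (3 / 8)) < K * (8 * θ ^ 2 + 1) + (T : ℝ) ^ 2 / m := by
    have h7 := hlow.trans_le hup
    have h8 : (T : ℝ) * (1 / 2 * (3 / 8)) * N <
        (K * (8 * θ ^ 2 + 1) + (T : ℝ) ^ 2 / m) * N := by
      calc (T : ℝ) * (1 / 2 * (3 / 8)) * N = T * (1 / 2 * (3 / 8 * N)) := by ring
        _ < _ := h7
        _ = _ := by ring
    exact lt_of_mul_lt_mul_right h8 hNpos.le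
  have hK0 : (0 : ℝ) ≤ K := Nat.cast_nonneg _
  nlinarith [mul_nonneg hK0 (by linarith : (0 : ℝ) ≤ θ ^ 2 - 1)]

end Pool.Agent.H43.RO
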