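import Pool.Agent.H64.OC2.Types
import Pool.Agent.H64.OC.Defs

/-!
# On-line colouring: an oblivious random adversary (definitions)

Outer vertices `v : Fin T`, each replaced by the block of the vertices `(v, x)`, `x : X m L`.
The adversary chooses for every outer vertex `v`, independently and uniformly, a sign vector
`al v` (the types which `v` may have), an index `gg v` (which of these types it has) and for
every `u` a path `qq u v`.
-/

set_option autoImplicit false

namespace Pool.Agent.H43.RO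

open Finset

/-- paths -/
abbrev X (m L : ℕ) := Fin (L + 1) → ZMod m

/-- the random choice at one outer vertex -/
abbrev Z (T m L h : ℕ) := (Fin h → Bool) × Fin h × (Fin T → X m L)

abbrev Om (T m L h : ℕ) := Fin T → Z T m L h

variable {T m L h : ℕ}

def al (ω : Om T m L h) (v : Fin T) : Fin h → Bool := (ω v).1

def gg (ω : Om T m L h) (v : Fin T) : Fin h := (ω v).2.1

def qq (ω : Om T m L h) (u v : Fin T) : X m L := (ω v).2.2 u

/-- the (hidden) type of `u` -/
def ty (ω : Om T m L h) (u : Fin T) : Fin h × Bool := (gg ω u, al ω u (gg ω u))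

/-- the shift of a path -/
def sh (x : X m L) : X m L := Fin.cons 0 fun i : Fin L => x i.castSucc

/-- `u` is an earlier outer neighbour of `v`: the type of `u` is not allowed at `v` -/
def Nb (ω : Om T m L h) (u v : Fin T) : Prop := u < v ∧ al ω v (ty ω u).1 ≠ (ty ω u).2

/-- the first coordinate of `qq u v` was not used at `u` before -/
def Fresh (ω : Om T m L h) (u v : Fin T) : Prop :=
  ∀ v' : Fin T, u < v' → v' < v → qq ω u v' 0 ≠ qq ω u v 0

/-- the colours `c ω v x` of a proper on-line algorithm -/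
structure Play (c : Om T m L h → Fin T → X m L → ℕ) : Prop where
  proper : ∀ ω u v x, Nb ω u v → Fresh ω u v → c ω u (qq ω u v + sh x) ≠ c ω v x
  past : ∀ ω ω' v, (∀ w < v, ω w = ω' w) → al ω v = al ω' v → (∀ u, qq ω u v = qq ω' u v) →
    ∀ x, c ω v x = c ω' v x

section
open Classical

variable [NeZero m]

/-- colours in the blocks before time `s` -/
noncomputable def cols (c : Om T m L h → Fin T → X m L → ℕ) (ω : Om T m L h) (s : ℕ) :
    Finset ℕ :=
  (univ.filter fun v : Fin T => v.val < s).biUnion fun v => univ.image (c ω v)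

/-- the mass of colour `b` in block `u` on the slots of `u` which are unused at time `s` -/
noncomputable def D (c : Om T m L h → Fin T → X m L → ℕ) (ω : Om T m L h) (s : ℕ) (u : Fin T)
    (b : ℕ) : ℝ :=
  ((univ.filter fun y : X m L => c ω u y = b ∧
    ∀ v' : Fin T, u < v' → v'.val < s → qq ω u v' 0 ≠ y 0).card : ℝ) / Fintype.card (X m L)

/-- the mass of colour `b` in block `v` -/
noncomputable def F (c : Om T m L h → Fin T → X m L → ℕ) (ω : Om T m L h) (v : Fin T)
    (b : ℕ) : ℝ :=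
  ((univ.filter fun y : X m L => c ω v y = b).card : ℝ) / Fintype.card (X m L)

/-- the weight of the type `t` in the bin `b` at time `s` -/
noncomputable def W (c : Om T m L h → Fin T → X m L → ℕ) (ω : Om T m L h) (s : ℕ)
    (b : ℕ) (t : Fin h × Bool) : ℝ :=
  ∑ u ∈ univ.filter (fun u : Fin T => u.val < s ∧ ty ω u = t), D c ω s u b

/-- capped total weight of the bin `b` -/
noncomputable def S (θ : ℝ) (c : Om T m L h → Fin T → X m L → ℕ) (ω : Om T m L h) (s : ℕ)
    (b : ℕ) : ℝ :=
  ∑ t : Fin h × Bool, min (W c ω s b t) θ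

/-- heavy bins are forbidden at `v` -/
def E1 (θ M : ℝ) (c : Om T m L h → Fin T → X m L → ℕ) (ω : Om T m L h) (v : Fin T) : Prop :=
  ∀ b ∈ cols c ω v, M ≤ S θ c ω v b → θ ≤ ∑ g : Fin h, min (W c ω v b (g, !al ω v g)) θ

/-- bins with large weight on the neighbours are blocked everywhere in the block `v` -/
def E2 (θ : ℝ) (c : Om T m L h → Fin T → X m L → ℕ) (ω : Om T m L h) (v : Fin T) : Prop :=
  ∀ b ∈ cols c ω v, θ ≤ ∑ u ∈ univ.filter (fun u : Fin T => Nb ω u v), D c ω v u b →
    ∀ x : X m L, ∃ u, Nb ω u v ∧ Fresh ω u v ∧ c ω u (qq ω u v + sh x) = b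

def Good (θ M : ℝ) (K : ℕ) (c : Om T m L h → Fin T → X m L → ℕ) (ω : Om T m L h)
    (v : Fin T) : Prop :=
  (∀ w ≤ v, E1 θ M c ω w ∧ E2 θ c ω w) ∧ (cols c ω (v.val + 1)).card ≤ K

/-- growth of the capped weights at `v` -/
noncomputable def gain (θ : ℝ) (c : Om T m L h → Fin T → X m L → ℕ) (ω : Om T m L h)
    (v : Fin T) : ℝ :=
  ∑ b ∈ cols c ω (v.val + 1), (min (W c ω v b (ty ω v) + F c ω v b) θ - min (W c ω v b (ty ω v)) θ)

noncomputable def gainG (θ M : ℝ) (K : ℕ) (c : Om T m L h → Fin T → X m L → ℕ)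
    (ω : Om T m L h) (v : Fin T) : ℝ :=
  if Good θ M K c ω v then gain θ c ω v else 0

/-- (T1) deterministic upper bound: telescope `∑ b, S θ c ω s b` and the erased mass -/
def UpperStmt (θ M : ℝ) (K : ℕ) (c : Om T m L h → Fin T → X m L → ℕ) : Prop :=
  ∀ ω, ∑ v : Fin T, gainG θ M K c ω v ≤ K * (M + 1) + (T : ℝ) ^ 2 / m

/-- (T2) average lower bound: resample `gg ω v` -/
def LowerStmt (θ M : ℝ) (K : ℕ) (c : Om T m L h → Fin T → X m L → ℕ) : Prop :=
  ∀ v : Fin T, (1 / 2 : ℝ) * (univ.filter fun ω => Good θ M K c ω v).card ≤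
    ∑ ω, gainG θ M K c ω v

/-- (T3) resample `al ω v` -/
def B1Stmt (θ M : ℝ) (K : ℕ) (c : Om T m L h → Fin T → X m L → ℕ) : Prop :=
  ∀ v : Fin T, ((univ.filter fun ω => (cols c ω v).card ≤ K ∧ ¬ E1 θ M c ω v).card : ℝ) ≤
    K * Real.exp (-θ) * Fintype.card (Om T m L h)

/-- (T4) resample `qq ω · v` -/
def B2Stmt (θ : ℝ) (K : ℕ) (c : Om T m L h → Fin T → X m L → ℕ) : Prop :=
  ∀ v : Fin T, ((univ.filter fun ω => (cols c ω v).card ≤ K ∧ ¬ E2 θ c ω v).card : ℝ) ≤
    K * Fintype.card (X m L) * Real.exp (-θ) * Fintype.card (Om T m L h)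

end

end Pool.Agent.H43.RO
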