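import Pool.Agent.H43.RO.Def

/-!
# On-line colouring: the graph of the oblivious random adversary

The vertices `(v, x)` are numbered lexicographically, so that the block of `v` is an interval.
-/

set_option autoImplicit false

namespace Pool.Agent.H43.RO

open Finset
open Pool.Agent.H64.OC (OnlineAlg initial)
open Pool.Agent.H64.OC2 (Fam)

variable {T m L h : ℕ} [NeZero m]

/-- the number of the vertex `(v, x)` -/
noncomputable def idx (v : Fin T) (x : X m L) : Fin (T * Fintype.card (X m L)) :=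
  finProdFinEquiv (v, Fintype.equivFin (X m L) x)

private theorem idx_val (v : Fin T) (x : X m L) :
    (idx v x).val = (Fintype.equivFin (X m L) x).val + Fintype.card (X m L) * v.val := rfl

private theorem idx_inj {v v' : Fin T} {x x' : X m L} (hh : idx v x = idx v' x') :
    v = v' ∧ x = x' := by
  have h1 := finProdFinEquiv.injective hh
  rw [Prod.mk.injEq] at h1
  exact ⟨h1.1, (Fintype.equivFin (X m L)).injective h1.2⟩

private theorem idx_surj (i : Fin (T * Fintype.card (X m L))) :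
    ∃ (v : Fin T) (x : X m L), idx v x = i := by
  refine ⟨(finProdFinEquiv.symm i).1, (Fintype.equivFin (X m L)).symm (finProdFinEquiv.symm i).2, ?_⟩
  unfold idx
  rw [Equiv.apply_symm_apply]
  exact finProdFinEquiv.apply_symm_apply i

private theorem idx_le {v v' : Fin T} {x x' : X m L} (hh : (idx v' x').val ≤ (idx v x).val) :
    v' ≤ v := by
  by_contra hc
  have h1 : v.val + 1 ≤ v'.val := Nat.lt_of_not_le hc
  rw [idx_val, idx_val] at hh
  have h2 : (Fintype.equivFin (X m L) x).val < Fintype.card (X m L) :=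
    (Fintype.equivFin (X m L) x).isLt
  have h3 : Fintype.card (X m L) * (v.val + 1) ≤ Fintype.card (X m L) * v'.val :=
    Nat.mul_le_mul_left _ h1
  rw [Nat.mul_add, Nat.mul_one] at h3
  omega

/-- the on-line graph of the adversary -/
noncomputable def GG (ω : Om T m L h) : SimpleGraph (Fin (T * Fintype.card (X m L))) where
  Adj i j := ∃ u v x, Nb ω u v ∧ Fresh ω u v ∧
    ((i = idx u (qq ω u v + sh x) ∧ j = idx v x) ∨ (j = idx u (qq ω u v + sh x) ∧ i = idx v x))
  symm := ⟨by
    rintro i j ⟨u, v, x, h1, h2, h3⟩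
    exact ⟨u, v, x, h1, h2, h3.symm⟩⟩
  loopless := ⟨by
    rintro i ⟨u, v, x, h1, h2, h3⟩
    have hlt : u < v := h1.1
    rcases h3 with h3 | h3
    · exact absurd (idx_inj (h3.1.symm.trans h3.2)).1 (ne_of_lt hlt)
    · exact absurd (idx_inj (h3.1.symm.trans h3.2)).1 (ne_of_lt hlt)⟩

/-- the colours of the algorithm `A` on the on-line graph -/
noncomputable def cc (A : OnlineAlg) (ω : Om T m L h) (v : Fin T) (x : X m L) : ℕ :=
  A.colour (GG ω) (idx v x)

/-- the graph is 3-colourable if the blocks are -/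
theorem GG_colorable_of (ω : Om T m L h)
    (hk : ∃ κ : Fin T → X m L → Fin 3, ∀ u v x, Nb ω u v → Fresh ω u v →
      κ u (qq ω u v + sh x) ≠ κ v x) : (GG ω).Colorable 3 := by
  obtain ⟨κ, hκ⟩ := hk
  choose dv dx hd using (idx_surj : ∀ i : Fin (T * Fintype.card (X m L)),
    ∃ (v : Fin T) (x : X m L), idx v x = i)
  refine ⟨SimpleGraph.Coloring.mk (fun i => κ (dv i) (dx i)) ?_⟩
  intro i j hij
  obtain ⟨u, v, x, h1, h2, h3⟩ := hij
  rcases h3 with ⟨hi, hj⟩ | ⟨hj, hi⟩
  · obtain ⟨e1, e2⟩ := idx_inj ((hd i).trans hi)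
    obtain ⟨e3, e4⟩ := idx_inj ((hd j).trans hj)
    show κ (dv i) (dx i) ≠ κ (dv j) (dx j)
    rw [e1, e2, e3, e4]
    exact hκ u v x h1 h2
  · obtain ⟨e1, e2⟩ := idx_inj ((hd i).trans hi)
    obtain ⟨e3, e4⟩ := idx_inj ((hd j).trans hj)
    show κ (dv i) (dx i) ≠ κ (dv j) (dx j)
    rw [e1, e2, e3, e4]
    exact (hκ u v x h1 h2).symm

private theorem adj_of_past {ω ω' : Om T m L h} {v : Fin T} (hw : ∀ w < v, ω w = ω' w)
    (hal : al ω v = al ω' v) (hq : ∀ u, qq ω u v = qq ω' u v) {x : X m L}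
    {i j : Fin (T * Fintype.card (X m L))} (hi : i.val ≤ (idx v x).val)
    (hj : j.val ≤ (idx v x).val) (hij : (GG ω).Adj i j) : (GG ω').Adj i j := by
  obtain ⟨u, v1, x1, h1, h2, h3⟩ := hij
  have hv1 : v1 ≤ v := by
    rcases h3 with h3 | h3
    · exact idx_le (x := x) (x' := x1) (by rw [← h3.2]; exact hj)
    · exact idx_le (x := x) (x' := x1) (by rw [← h3.2]; exact hi)
  have hu : u < v1 := h1.1
  have hal1 : al ω v1 = al ω' v1 := by
    rcases lt_or_eq_of_le hv1 with hlt | heq
    · unfold al; rw [hw v1 hlt]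
    · rw [heq]; exact hal
  have hq1 : ∀ w ≤ v1, ∀ z, qq ω z w = qq ω' z w := by
    intro w hwv z
    rcases lt_or_eq_of_le (hwv.trans hv1) with hlt | heq
    · unfold qq; rw [hw w hlt]
    · rw [heq]; exact hq z
  have hty : ty ω u = ty ω' u := by
    unfold ty gg al; rw [hw u (lt_of_lt_of_le hu hv1)]
  refine ⟨u, v1, x1, ⟨hu, ?_⟩, ?_, ?_⟩
  · have h11 := h1.2
    rw [hal1, hty] at h11
    exact h11
  · intro v' h4 h5
    have h6 := h2 v' h4 h5
    rw [hq1 v' h5.le u, hq1 v1 le_rfl u] at h6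
    exact h6
  · rw [hq1 v1 le_rfl u] at h3
    exact h3

private theorem initial_past {ω ω' : Om T m L h} {v : Fin T} (hw : ∀ w < v, ω w = ω' w)
    (hal : al ω v = al ω' v) (hq : ∀ u, qq ω u v = qq ω' u v) (x : X m L) :
    initial (GG ω) (idx v x) = initial (GG ω') (idx v x) := by
  ext i j
  unfold initial
  rw [SimpleGraph.comap_adj, SimpleGraph.comap_adj]
  have hi : (Fin.castLE (idx v x).isLt i).val ≤ (idx v x).val := Nat.lt_succ_iff.mp i.isLt
  have hj : (Fin.castLE (idx v x).isLt j).val ≤ (idx v x).val := Nat.lt_succ_iff.mp j.isLt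
  exact ⟨adj_of_past hw hal hq hi hj,
    adj_of_past (fun w h1 => (hw w h1).symm) hal.symm (fun u => (hq u).symm) hi hj⟩

/-- the colours given by a proper algorithm are a play -/
theorem play {A : OnlineAlg} (hA : A.Proper) :
    Play (cc A : Om T m L h → Fin T → X m L → ℕ) where
  proper ω u v x h1 h2 := hA _ (GG ω) _ _ ⟨u, v, x, h1, h2, Or.inl ⟨rfl, rfl⟩⟩
  past ω ω' v hw hal hq x := by
    unfold cc OnlineAlg.colour
    rw [initial_past hw hal hq x]

/-- the number of colours -/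
theorem numColours_GG (A : OnlineAlg) (ω : Om T m L h) :
    A.numColours (GG ω) = (cols (cc A) ω T).card := by
  unfold OnlineAlg.numColours
  congr 1
  ext b
  unfold cols
  rw [Finset.mem_image, Finset.mem_biUnion]
  constructor
  · rintro ⟨i, _, hi⟩
    obtain ⟨v, x, hvx⟩ := idx_surj i
    refine ⟨v, Finset.mem_filter.mpr ⟨Finset.mem_univ _, v.isLt⟩,
      Finset.mem_image.mpr ⟨x, Finset.mem_univ _, ?_⟩⟩
    unfold cc
    rw [hvx]
    exact hi
  · rintro ⟨v, _, hv⟩
    obtain ⟨x, _, hx⟩ := Finset.mem_image.mp hv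
    exact ⟨idx v x, Finset.mem_univ _, hx⟩

end Pool.Agent.H43.RO
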