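import Pool.Agent.H43.RO.Gr

/-!
# On-line colouring: the graph of the oblivious random adversary, k colours
-/

set_option autoImplicit false

namespace Pool.Agent.H43.RO

open Finset

variable {T m L h : ℕ} [NeZero m]

/-- the graph is k-colourable if the blocks are -/
theorem GG_col {k : ℕ} (ω : Om T m L h)
    (hk : ∃ κ : Fin T → X m L → Fin k, ∀ u v x, Nb ω u v → Fresh ω u v →
      κ u (qq ω u v + sh x) ≠ κ v x) : (GG ω).Colorable k := by
  obtain ⟨κ, hκ⟩ := hk
  let f : Fin (T * Fintype.card (X m L)) → Fin T × X m L := fun i =>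
    ((finProdFinEquiv.symm i).1, (Fintype.equivFin (X m L)).symm (finProdFinEquiv.symm i).2)
  have hf : ∀ v x, f (idx v x) = (v, x) := by
    intro v x
    simp only [f, idx, Equiv.symm_apply_apply]
  refine ⟨SimpleGraph.Coloring.mk (fun i => κ (f i).1 (f i).2) ?_⟩
  intro i j hij
  obtain ⟨u, v, x, h1, h2, h3⟩ := hij
  show κ (f i).1 (f i).2 ≠ κ (f j).1 (f j).2
  rcases h3 with ⟨hi, hj⟩ | ⟨hj, hi⟩
  · rw [hi, hj, hf, hf]
    exact hκ u v x h1 h2
  · rw [hi, hj, hf, hf]
    exact (hκ u v x h1 h2).symm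

end Pool.Agent.H43.RO
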