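import Pool.Agent.H43.RO.Com

/-!
# On-line colouring, the random adversary: all rounds good is unlikely (P1)

For fixed `v` the value `gg ω v` is resampled: nothing before the end of block `v` depends on it.
The exponential moments of the gains are multiplied by at most `exp (-5/16)` in each round.
-/

set_option autoImplicit false

namespace Pool.Agent.H43.RO

open Finset

variable {T m L h : ℕ}

/-- replace `gg ω v` by `g` -/
private def upd (ω : Om T m L h) (v : Fin T) (g : Fin h) : Om T m L h :=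
  Function.update ω v ((ω v).1, g, (ω v).2.2)

private theorem upd_ne (ω : Om T m L h) {v w : Fin T} (g : Fin h) (hw : w ≠ v) :
    upd ω v g w = ω w := by
  unfold upd
  exact Function.update_of_ne hw _ _

private theorem upd_self (ω : Om T m L h) (v : Fin T) (g : Fin h) :
    upd ω v g v = ((ω v).1, g, (ω v).2.2) := by
  unfold upd
  exact Function.update_self _ _ _

private theorem al_upd (ω : Om T m L h) (v w : Fin T) (g : Fin h) :
    al (upd ω v g) w = al ω w := by
  unfold al
  by_cases hw : w = v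
  · subst hw; rw [upd_self]
  · rw [upd_ne ω g hw]

private theorem qq_upd (ω : Om T m L h) (v u w : Fin T) (g : Fin h) :
    qq (upd ω v g) u w = qq ω u w := by
  unfold qq
  by_cases hw : w = v
  · subst hw; rw [upd_self]
  · rw [upd_ne ω g hw]

private theorem gg_upd_self (ω : Om T m L h) (v : Fin T) (g : Fin h) :
    gg (upd ω v g) v = g := by
  unfold gg
  rw [upd_self]

private theorem ty_upd (ω : Om T m L h) {v u : Fin T} (g : Fin h) (hu : u < v) :
    ty (upd ω v g) u = ty ω u := by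
  unfold ty gg al
  rw [upd_ne ω g hu.ne]

private theorem ty_upd_self (ω : Om T m L h) (v : Fin T) (g : Fin h) :
    ty (upd ω v g) v = (g, al ω v g) := by
  unfold ty
  rw [gg_upd_self, al_upd]

private theorem upd_upd (ω : Om T m L h) (v : Fin T) (g : Fin h) :
    upd (upd ω v g) v (gg ω v) = ω := by
  funext w
  by_cases hw : w = v
  · subst hw
    rw [upd_self, upd_self]
    rfl
  · rw [upd_ne _ _ hw, upd_ne _ _ hw]

private theorem sum_upd (f : Om T m L h → ℝ) (v : Fin T) [NeZero m] :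
    ∑ ω, ∑ g : Fin h, f (upd ω v g) = h * ∑ ω, f ω := by
  have hinv : Function.Involutive (fun p : Om T m L h × Fin h => (upd p.1 v p.2, gg p.1 v)) := by
    rintro ⟨ω, g⟩
    simp only [upd_upd, gg_upd_self]
  have h1 : ∑ p : Om T m L h × Fin h, f (upd p.1 v p.2) = ∑ p : Om T m L h × Fin h, f p.1 :=
    Equiv.sum_comp (hinv.toPerm _) (fun p : Om T m L h × Fin h => f p.1)
  rw [Fintype.sum_prod_type, Fintype.sum_prod_type] at h1
  rw [h1]
  simp [Finset.mul_sum]

variable {c : Om T m L h → Fin T → X m L → ℕ}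

private theorem c_upd (hc : Play c) (ω : Om T m L h) {v w : Fin T} (g : Fin h) (hw : w ≤ v)
    (x : X m L) : c (upd ω v g) w x = c ω w x :=
  hc.past _ _ w (fun _ hw' => upd_ne ω g (hw'.trans_le hw).ne) (al_upd ω v w g)
    (fun u => qq_upd ω v u w g) x

section
open Classical
variable [NeZero m]

private theorem D_upd (hc : Play c) (ω : Om T m L h) {v u : Fin T} (g : Fin h) (hu : u ≤ v)
    (s b : ℕ) : D c (upd ω v g) s u b = D c ω s u b := by
  unfold D
  simp only [c_upd hc ω g hu, qq_upd]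

private theorem F_upd (hc : Play c) (ω : Om T m L h) (v : Fin T) (g : Fin h) (b : ℕ) :
    F c (upd ω v g) v b = F c ω v b := by
  unfold F
  simp only [c_upd hc ω g le_rfl]

private theorem W_upd (hc : Play c) (ω : Om T m L h) {v : Fin T} (g : Fin h) {s : ℕ}
    (hs : s ≤ v.val) (b : ℕ) (t : Fin h × Bool) :
    W c (upd ω v g) s b t = W c ω s b t := by
  unfold W
  have h1 : (univ.filter fun u : Fin T => u.val < s ∧ ty (upd ω v g) u = t) =
      univ.filter fun u : Fin T => u.val < s ∧ ty ω u = t := by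
    ext u
    simp only [mem_filter, mem_univ, true_and]
    refine and_congr_right fun hu => ?_
    rw [ty_upd ω g (Fin.lt_def.2 (lt_of_lt_of_le hu hs))]
  rw [h1]
  refine Finset.sum_congr rfl fun u hu => ?_
  have hu2 : u.val < s := (mem_filter.1 hu).2.1
  exact D_upd hc ω g (Fin.le_def.2 (by omega)) s b

private theorem S_upd (hc : Play c) (ω : Om T m L h) {v : Fin T} (g : Fin h) {s : ℕ}
    (hs : s ≤ v.val) (θ : ℝ) (b : ℕ) : S θ c (upd ω v g) s b = S θ c ω s b := by
  unfold S
  simp only [W_upd hc ω g hs]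

private theorem cols_upd (hc : Play c) (ω : Om T m L h) {v : Fin T} (g : Fin h) {s : ℕ}
    (hs : s ≤ v.val + 1) : cols c (upd ω v g) s = cols c ω s := by
  unfold cols
  refine Finset.biUnion_congr rfl fun u hu => ?_
  have hu2 : u.val < s := (mem_filter.1 hu).2
  have h1 : c (upd ω v g) u = c ω u := by
    funext x
    exact c_upd hc ω g (Fin.le_def.2 (by omega)) x
  rw [h1]

private theorem Nb_upd (ω : Om T m L h) {v w : Fin T} (g : Fin h) (hw : w ≤ v) (u : Fin T) :
    Nb (upd ω v g) u w ↔ Nb ω u w := by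
  unfold Nb
  refine and_congr_right fun hu => ?_
  rw [al_upd, ty_upd ω g (hu.trans_le hw)]

private theorem E1_upd (hc : Play c) (ω : Om T m L h) {v w : Fin T} (g : Fin h) (hw : w ≤ v)
    (θ M : ℝ) : E1 θ M c (upd ω v g) w ↔ E1 θ M c ω w := by
  unfold E1
  have hw' : w.val ≤ v.val := Fin.le_def.1 hw
  rw [cols_upd hc ω g (by omega)]
  simp only [S_upd hc ω g hw', W_upd hc ω g hw', al_upd]

private theorem E2_upd (hc : Play c) (ω : Om T m L h) {v w : Fin T} (g : Fin h) (hw : w ≤ v)
    (θ : ℝ) : E2 θ c (upd ω v g) w ↔ E2 θ c ω w := by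
  unfold E2
  have hw' : w.val ≤ v.val := Fin.le_def.1 hw
  rw [cols_upd hc ω g (by omega)]
  refine forall₂_congr fun b _ => ?_
  have h1 : ∑ u ∈ univ.filter (fun u : Fin T => Nb (upd ω v g) u w), D c (upd ω v g) w u b =
      ∑ u ∈ univ.filter (fun u : Fin T => Nb ω u w), D c ω w u b := by
    simp only [Nb_upd ω g hw]
    refine Finset.sum_congr rfl fun u hu => ?_
    have hu2 : u < w := (mem_filter.1 hu).2.1
    exact D_upd hc ω g (hu2.le.trans hw) _ b
  rw [h1]
  refine imp_congr_right fun _ => forall_congr' fun x => exists_congr fun u => ?_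
  rw [Nb_upd ω g hw]
  refine and_congr_right fun hnb => ?_
  have hF : Fresh (upd ω v g) u w ↔ Fresh ω u w := by
    unfold Fresh
    simp only [qq_upd]
  rw [hF, qq_upd, c_upd hc ω g (hnb.1.le.trans hw)]

private theorem Good_upd (hc : Play c) (ω : Om T m L h) (v : Fin T) (g : Fin h) (θ M : ℝ)
    (K : ℕ) : Good θ M K c (upd ω v g) v ↔ Good θ M K c ω v := by
  unfold Good
  rw [cols_upd hc ω g le_rfl]
  refine and_congr_left fun _ => forall₂_congr fun w hw => ?_
  rw [E1_upd hc ω g hw, E2_upd hc ω g hw]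

private theorem gain_upd (hc : Play c) (ω : Om T m L h) (v : Fin T) (g : Fin h) (θ : ℝ) :
    gain θ c (upd ω v g) v = ∑ b ∈ cols c ω (v.val + 1),
      (min (W c ω v b (g, al ω v g) + F c ω v b) θ - min (W c ω v b (g, al ω v g)) θ) := by
  unfold gain
  rw [cols_upd hc ω g le_rfl, ty_upd_self]
  simp only [W_upd hc ω g le_rfl, F_upd hc ω v g]

private theorem F_nonneg' (ω : Om T m L h) (v : Fin T) (b : ℕ) : 0 ≤ F c ω v b := by
  unfold F
  positivity

private theorem W_nonneg' (ω : Om T m L h) (s b : ℕ) (t : Fin h × Bool) : 0 ≤ W c ω s b t := by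
  unfold W D
  positivity

private theorem card_X_pos' : 0 < Fintype.card (X m L) := Fintype.card_pos

private theorem F_le_one' (ω : Om T m L h) (v : Fin T) (b : ℕ) : F c ω v b ≤ 1 := by
  unfold F
  rw [div_le_one (by exact_mod_cast card_X_pos')]
  exact_mod_cast Finset.card_le_univ _

private theorem sum_F' (ω : Om T m L h) (v : Fin T) :
    ∑ b ∈ cols c ω (v.val + 1), F c ω v b = 1 := by
  unfold F
  rw [← Finset.sum_div, div_eq_one_iff_eq (by exact_mod_cast card_X_pos'.ne')]
  have h1 : ∀ y ∈ (univ : Finset (X m L)), c ω v y ∈ cols c ω (v.val + 1) := by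
    intro y _
    unfold cols
    refine Finset.mem_biUnion.2 ⟨v, ?_, Finset.mem_image_of_mem _ (mem_univ y)⟩
    simp
  have h2 := Finset.card_eq_sum_card_fiberwise h1
  rw [← Finset.card_univ, h2]
  push_cast
  rfl

/-- a used colour is light: half of the `g` give full growth -/
private theorem half (ω : Om T m L h) (v : Fin T) (b : ℕ) {θ : ℝ} (hθ : 2 ≤ θ)
    (hh : 32 * θ ≤ h) (hS : S θ c ω v b < 8 * θ ^ 2) :
    (h : ℝ) / 2 * F c ω v b ≤ ∑ g : Fin h,
      (min (W c ω v b (g, al ω v g) + F c ω v b) θ - min (W c ω v b (g, al ω v g)) θ) := by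
  set w : Fin h → ℝ := fun g => W c ω v b (g, al ω v g) with hw
  set B : Finset (Fin h) := univ.filter fun g => θ - 1 < w g with hB
  have hwn : ∀ g, 0 ≤ w g := fun g => W_nonneg' ω v b _
  have h1 : (θ - 1) * (B.card : ℝ) ≤ 8 * θ ^ 2 := by
    have h2 : ∑ g ∈ B, (θ - 1) ≤ ∑ g ∈ B, min (w g) θ := by
      refine Finset.sum_le_sum fun g hg => ?_
      have := (mem_filter.1 hg).2
      exact le_min this.le (by linarith)
    have h3 : ∑ g ∈ B, min (w g) θ ≤ ∑ g : Fin h, min (w g) θ :=
      Finset.sum_le_sum_of_subset_of_nonneg (Finset.subset_univ _)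
        (fun g _ _ => le_min (hwn g) (by linarith))
    have h4 : ∑ g : Fin h, min (w g) θ ≤ S θ c ω v b := by
      unfold S
      rw [Fintype.sum_prod_type]
      refine Finset.sum_le_sum fun g _ => ?_
      exact Finset.single_le_sum
        (f := fun e : Bool => min (W c ω v b (g, e)) θ)
        (fun e _ => le_min (W_nonneg' ω v b _) (by linarith)) (mem_univ (al ω v g))
    rw [Finset.sum_const, nsmul_eq_mul] at h2
    linarith
  have h5 : (B.card : ℝ) ≤ h / 2 := by
    have h6 : (θ - 1) * (B.card : ℝ) ≤ (θ - 1) * (h / 2) := by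
      have : 8 * θ ^ 2 ≤ (θ - 1) * (16 * θ) := by nlinarith
      have h7 : (θ - 1) * (16 * θ) ≤ (θ - 1) * (h / 2) :=
        mul_le_mul_of_nonneg_left (by linarith) (by linarith)
      linarith
    exact le_of_mul_le_mul_left h6 (by linarith)
  have hF0 := F_nonneg' (c := c) ω v b
  have hF1 := F_le_one' (c := c) ω v b
  have h8 : ∀ g ∈ (univ : Finset (Fin h)), (if g ∈ B then (0 : ℝ) else F c ω v b) ≤
      min (w g + F c ω v b) θ - min (w g) θ := by
    intro g _
    split_ifs with hg
    · have := min_le_min_right θ (show w g ≤ w g + F c ω v b by linarith)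
      linarith
    · have hg' : w g ≤ θ - 1 := by
        by_contra hcon
        exact hg (mem_filter.2 ⟨mem_univ g, lt_of_not_ge hcon⟩)
      rw [min_eq_left (by linarith), min_eq_left (by linarith)]
      linarith
  have h9 := Finset.sum_le_sum h8
  have h10 : ∑ g : Fin h, (if g ∈ B then (0 : ℝ) else F c ω v b) =
      ((h : ℝ) - B.card) * F c ω v b := by
    rw [← Finset.sum_filter_add_sum_filter_not univ (fun g => g ∈ B)]
    rw [Finset.sum_congr rfl (g := fun _ => (0 : ℝ)) (fun g hg => by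
      rw [if_pos (mem_filter.1 hg).2])]
    rw [Finset.sum_congr (s₁ := univ.filter fun g => ¬ g ∈ B) rfl (g := fun _ => F c ω v b)
      (fun g hg => by rw [if_neg (mem_filter.1 hg).2])]
    rw [Finset.sum_const_zero, zero_add, Finset.sum_const, nsmul_eq_mul]
    congr 1
    have h11 : (univ.filter fun g : Fin h => ¬ g ∈ B).card = h - B.card := by
      rw [Finset.filter_not, Finset.card_sdiff_of_subset (Finset.filter_subset _ _)]
      simp
    rw [h11, Nat.cast_sub]
    simpa using Finset.card_le_univ B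
  rw [h10] at h9
  refine le_trans ?_ h9
  exact mul_le_mul_of_nonneg_right (by linarith) hF0

private theorem half_sum (hc : Play c) (ω : Om T m L h) (v : Fin T) {θ : ℝ} (hθ : 2 ≤ θ)
    (hh : 32 * θ ≤ h) (h1 : E1 θ (8 * θ ^ 2) c ω v) (h2 : E2 θ c ω v) :
    (h : ℝ) / 2 ≤ ∑ g : Fin h, gain θ c (upd ω v g) v := by
  have e1 : ∑ g : Fin h, gain θ c (upd ω v g) v = ∑ b ∈ cols c ω (v.val + 1), ∑ g : Fin h,
      (min (W c ω v b (g, al ω v g) + F c ω v b) θ - min (W c ω v b (g, al ω v g)) θ) := by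
    rw [Finset.sum_comm]
    exact Finset.sum_congr rfl fun g _ => gain_upd hc ω v g θ
  rw [e1]
  have e2 : (h : ℝ) / 2 = ∑ b ∈ cols c ω (v.val + 1), (h : ℝ) / 2 * F c ω v b := by
    rw [← Finset.mul_sum, sum_F', mul_one]
  rw [e2]
  refine Finset.sum_le_sum fun b _ => ?_
  by_cases hb : ∃ x, c ω v x = b
  · obtain ⟨x, rfl⟩ := hb
    exact half ω v _ hθ hh (S_lt_of_used hc (by positivity) h1 h2 x)
  · have hF : F c ω v b = 0 := by
      unfold F
      rw [Finset.filter_false_of_mem (fun y _ hy => hb ⟨y, hy⟩)]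
      simp
    rw [hF, mul_zero]
    refine Finset.sum_nonneg fun g _ => ?_
    rw [add_zero, sub_self]

private theorem gain_nonneg (ω : Om T m L h) (v : Fin T) (θ : ℝ) : 0 ≤ gain θ c ω v := by
  unfold gain
  refine Finset.sum_nonneg fun b _ => ?_
  have := min_le_min_right θ (show W c ω v b (ty ω v) ≤ W c ω v b (ty ω v) + F c ω v b by
    linarith [F_nonneg' (c := c) ω v b])
  linarith

private theorem gain_le_one (ω : Om T m L h) (v : Fin T) (θ : ℝ) : gain θ c ω v ≤ 1 := by
  rw [← sum_F' (c := c) ω v]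
  unfold gain
  refine Finset.sum_le_sum fun b _ => ?_
  have hF := F_nonneg' (c := c) ω v b
  rcases le_total (W c ω v b (ty ω v)) θ with h | h
  · rw [min_eq_left h]
    linarith [min_le_left (W c ω v b (ty ω v) + F c ω v b) θ]
  · rw [min_eq_right h]
    linarith [min_le_right (W c ω v b (ty ω v) + F c ω v b) θ]

/-- nothing at `w < v` depends on `gg ω v` -/
private theorem gain_upd_lt (hc : Play c) (ω : Om T m L h) {v w : Fin T} (hw : w < v) (g : Fin h)
    (θ : ℝ) : gain θ c (upd ω v g) w = gain θ c ω w := by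
  unfold gain
  have hw' : w.val < v.val := Fin.lt_def.1 hw
  rw [cols_upd hc ω g (by omega), ty_upd ω g hw]
  refine Finset.sum_congr rfl fun b _ => ?_
  have hF : F c (upd ω v g) w b = F c ω w b := by
    unfold F
    simp only [c_upd hc ω g hw.le]
  rw [W_upd hc ω g hw'.le, hF]

private theorem Good_upd_le (hc : Play c) (ω : Om T m L h) {v w : Fin T} (hw : w ≤ v) (g : Fin h)
    (θ M : ℝ) (K : ℕ) : Good θ M K c (upd ω v g) w ↔ Good θ M K c ω w := by
  unfold Good
  have hw' : w.val ≤ v.val := Fin.le_def.1 hw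
  rw [cols_upd hc ω g (by omega)]
  refine and_congr_left fun _ => forall₂_congr fun w' hw'' => ?_
  rw [E1_upd hc ω g (hw''.trans hw), E2_upd hc ω g (hw''.trans hw)]

/-- the exponential weight of round `v` -/
private noncomputable def ph (θ : ℝ) (K : ℕ) (c : Om T m L h → Fin T → X m L → ℕ)
    (ω : Om T m L h) (v : Fin T) : ℝ :=
  if Good θ (8 * θ ^ 2) K c ω v then Real.exp (-gain θ c ω v) else 0

private theorem ph_nonneg (θ : ℝ) (K : ℕ) (ω : Om T m L h) (v : Fin T) :
    0 ≤ ph θ K c ω v := by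
  unfold ph
  split_ifs
  · exact (Real.exp_pos _).le
  · exact le_rfl

private theorem exp_bound {x : ℝ} (h0 : 0 ≤ x) (h1 : x ≤ 1) :
    Real.exp (-x) ≤ 1 - 5 / 8 * x := by
  have hcv := convexOn_exp.2 (Set.mem_univ (0 : ℝ)) (Set.mem_univ (-1 : ℝ))
    (show 0 ≤ 1 - x by linarith) h0 (by ring)
  simp only [smul_eq_mul, mul_zero, zero_add, Real.exp_zero, mul_one] at hcv
  have he : Real.exp (-1) ≤ 3 / 8 := by
    rw [Real.exp_neg]
    have := Real.exp_one_gt_d9
    rw [inv_le_comm₀ (Real.exp_pos 1) (by norm_num)]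
    linarith
  have e1 : x * -1 = -x := by ring
  rw [e1] at hcv
  nlinarith

private theorem ph_mean (hc : Play c) (ω : Om T m L h) (v : Fin T) {θ : ℝ} (hθ : 2 ≤ θ)
    (hh : 32 * θ ≤ h) (K : ℕ) :
    ∑ g : Fin h, ph θ K c (upd ω v g) v ≤ h * Real.exp (-(5 / 16)) := by
  have hpos : (0 : ℝ) < h := by linarith
  have he : 1 - 5 / 16 ≤ Real.exp (-(5 / 16 : ℝ)) := by
    have := Real.add_one_le_exp (-(5 / 16 : ℝ))
    linarith
  by_cases hG : Good θ (8 * θ ^ 2) K c ω v
  · have hE := hG.1 v le_rfl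
    have h1 := half_sum hc ω v hθ hh hE.1 hE.2
    have h2 : ∑ g : Fin h, ph θ K c (upd ω v g) v ≤
        ∑ g : Fin h, (1 - 5 / 8 * gain θ c (upd ω v g) v) := by
      refine Finset.sum_le_sum fun g _ => ?_
      unfold ph
      rw [if_pos ((Good_upd hc ω v g θ _ K).2 hG)]
      exact exp_bound (gain_nonneg _ _ _) (gain_le_one _ _ _)
    rw [Finset.sum_sub_distrib, ← Finset.mul_sum] at h2
    simp only [Finset.sum_const, Finset.card_univ, Fintype.card_fin, nsmul_eq_mul, mul_one] at h2
    nlinarith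
  · have h2 : ∑ g : Fin h, ph θ K c (upd ω v g) v = 0 := by
      refine Finset.sum_eq_zero fun g _ => ?_
      unfold ph
      rw [if_neg (fun hcon => hG ((Good_upd hc ω v g θ _ K).1 hcon))]
    rw [h2]
    positivity

private noncomputable def pr (θ : ℝ) (K : ℕ) (c : Om T m L h → Fin T → X m L → ℕ)
    (ω : Om T m L h) (s : ℕ) : ℝ :=
  ∏ v ∈ univ.filter (fun v : Fin T => v.val < s), ph θ K c ω v

private theorem pr_step (hc : Play c) {θ : ℝ} (hθ : 2 ≤ θ) (hh : 32 * θ ≤ h) (K : ℕ) (v : Fin T) :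
    ∑ ω, pr θ K c ω (v.val + 1) ≤ Real.exp (-(5 / 16)) * ∑ ω, pr θ K c ω v.val := by
  have hpos : (0 : ℝ) < h := by linarith
  have hsplit : ∀ ω : Om T m L h, pr θ K c ω (v.val + 1) = pr θ K c ω v.val * ph θ K c ω v := by
    intro ω
    unfold pr
    have : (univ.filter fun w : Fin T => w.val < v.val + 1) =
        insert v (univ.filter fun w : Fin T => w.val < v.val) := by
      ext w
      simp only [mem_filter, mem_univ, true_and, mem_insert, Fin.ext_iff]
      omega
    rw [this, Finset.prod_insert (by simp), mul_comm]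
  have hinv : ∀ (ω : Om T m L h) (g : Fin h), pr θ K c (upd ω v g) v.val = pr θ K c ω v.val := by
    intro ω g
    unfold pr
    refine Finset.prod_congr rfl fun w hw => ?_
    have hw2 : w < v := Fin.lt_def.2 (mem_filter.1 hw).2
    unfold ph
    rw [gain_upd_lt hc ω hw2 g θ]
    simp only [Good_upd_le hc ω hw2.le g θ _ K]
  have h1 := sum_upd (fun ω => pr θ K c ω (v.val + 1)) v
  have h2 : ∑ ω, ∑ g : Fin h, pr θ K c (upd ω v g) (v.val + 1) ≤
      ∑ ω, pr θ K c ω v.val * (h * Real.exp (-(5 / 16))) := by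
    refine Finset.sum_le_sum fun ω _ => ?_
    have h3 : ∑ g : Fin h, pr θ K c (upd ω v g) (v.val + 1) =
        pr θ K c ω v.val * ∑ g : Fin h, ph θ K c (upd ω v g) v := by
      rw [Finset.mul_sum]
      refine Finset.sum_congr rfl fun g _ => ?_
      rw [hsplit, hinv]
    rw [h3]
    refine mul_le_mul_of_nonneg_left (ph_mean hc ω v hθ hh K) ?_
    exact Finset.prod_nonneg fun w _ => ph_nonneg θ K ω w
  rw [h1, ← Finset.sum_mul] at h2
  have h4 : (h : ℝ) * ∑ ω, pr θ K c ω (v.val + 1) ≤
      h * (Real.exp (-(5 / 16)) * ∑ ω, pr θ K c ω v.val) := by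
    linarith
  exact le_of_mul_le_mul_left h4 hpos

private theorem pr_le (hc : Play c) {θ : ℝ} (hθ : 2 ≤ θ) (hh : 32 * θ ≤ h) (K : ℕ) :
    ∀ s : ℕ, s ≤ T → ∑ ω, pr θ K c ω s ≤
      Real.exp (-(5 / 16 * s)) * Fintype.card (Om T m L h) := by
  intro s
  induction s with
  | zero =>
    intro _
    simp [pr]
  | succ s ih =>
    intro hs
    have h1 := pr_step hc hθ hh K (⟨s, by omega⟩ : Fin T)
    have h2 := ih (by omega)
    have h3 : Real.exp (-(5 / 16 * ((s + 1 : ℕ) : ℝ))) =
        Real.exp (-(5 / 16)) * Real.exp (-(5 / 16 * (s : ℝ))) := by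
      rw [← Real.exp_add]
      congr 1
      push_cast
      ring
    rw [h3, mul_assoc]
    exact h1.trans (mul_le_mul_of_nonneg_left h2 (Real.exp_pos _).le)

theorem all_good {θ : ℝ} (hc : Play c) (hθ : 2 ≤ θ) (hh : 32 * θ ≤ h) (K : ℕ)
    (hU : UpperStmt θ (8 * θ ^ 2) K c) :
    ((univ.filter fun ω => ∀ v, Good θ (8 * θ ^ 2) K c ω v).card : ℝ) ≤
      Real.exp (K * (8 * θ ^ 2 + 1) + (T : ℝ) ^ 2 / m - 5 * T / 16) *
        Fintype.card (Om T m L h) := by
  set U : ℝ := K * (8 * θ ^ 2 + 1) + (T : ℝ) ^ 2 / m with hUdef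
  have h1 : ((univ.filter fun ω => ∀ v, Good θ (8 * θ ^ 2) K c ω v).card : ℝ) * Real.exp (-U) ≤
      ∑ ω, pr θ K c ω T := by
    rw [← nsmul_eq_mul, ← Finset.sum_const]
    refine (Finset.sum_le_sum (fun ω hω => ?_)).trans
      (Finset.sum_le_sum_of_subset_of_nonneg (Finset.filter_subset _ _)
        (fun ω _ _ => Finset.prod_nonneg fun w _ => ph_nonneg θ K ω w))
    have hG : ∀ v, Good θ (8 * θ ^ 2) K c ω v := (mem_filter.1 hω).2
    have h2 : pr θ K c ω T = Real.exp (-∑ v : Fin T, gain θ c ω v) := by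
      unfold pr ph
      rw [Finset.filter_true_of_mem (fun v _ => v.2)]
      simp only [hG, if_true]
      rw [← Real.exp_sum, Finset.sum_neg_distrib]
    rw [h2]
    refine Real.exp_le_exp.2 ?_
    have h3 := hU ω
    have h4 : ∑ v : Fin T, gainG θ (8 * θ ^ 2) K c ω v = ∑ v : Fin T, gain θ c ω v := by
      refine Finset.sum_congr rfl fun v _ => ?_
      unfold gainG
      rw [if_pos (hG v)]
    rw [h4] at h3
    linarith
  have h5 := h1.trans (pr_le hc hθ hh K T le_rfl)
  have h6 : ((univ.filter fun ω => ∀ v, Good θ (8 * θ ^ 2) K c ω v).card : ℝ) =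
      ((univ.filter fun ω => ∀ v, Good θ (8 * θ ^ 2) K c ω v).card : ℝ) * Real.exp (-U) *
        Real.exp U := by
    rw [mul_assoc, ← Real.exp_add, neg_add_cancel, Real.exp_zero, mul_one]
  rw [h6]
  have h7 : Real.exp (U - 5 * T / 16) * (Fintype.card (Om T m L h) : ℝ) =
      Real.exp (-(5 / 16 * (T : ℝ))) * Fintype.card (Om T m L h) * Real.exp U := by
    rw [mul_right_comm, ← Real.exp_add]
    congr 2
    ring
  rw [h7]
  exact mul_le_mul_of_nonneg_right h5 (Real.exp_pos _).le

end

end Pool.Agent.H43.RO
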