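import Pool.Agent.H64.OC2.Types

/-!
# On-line colouring with `k` colours: iterated types over `k` colours

Level `0` types are the `k` colours; a type of level `j + 1` is a set of types of level `j`.
-/

set_option autoImplicit false

namespace Pool.Agent.H43.RO

open Pool.Agent.H64.OC2 (tower tower_pos lt_tower tower_mono logStar le_tower_logStar logStar_le
  logStar_mono)

/-- Types of level `j` over `k` colours. -/
def TyK (k : ℕ) : ℕ → Type
  | 0 => Fin k
  | j + 1 => Set (TyK k j)

/-- Admissible pairs of types. -/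
def AdmK (k : ℕ) : (j : ℕ) → TyK k j → TyK k j → Prop
  | 0 => fun a b => (show Fin k from a) ≠ (show Fin k from b)
  | j + 1 => fun A B => ∃ a ∈ (show Set (TyK k j) from A), ∀ b ∈ (show Set (TyK k j) from B),
      AdmK k j a b

/-- Hereditarily nonempty types. -/
def OkK (k : ℕ) : (j : ℕ) → TyK k j → Prop
  | 0 => fun _ => True
  | j + 1 => fun A => (∃ a, a ∈ (show Set (TyK k j) from A)) ∧
      ∀ a ∈ (show Set (TyK k j) from A), OkK k j a

/-- There are `m` pairwise admissible types of level `j` over `k` colours. -/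
def FamK (k j m : ℕ) : Prop :=
  ∃ X : Fin m → TyK k j, (∀ a, OkK k j (X a)) ∧ ∀ a b, a ≠ b → AdmK k j (X a) (X b)

theorem FamK.mono {k j m m' : ℕ} (h : FamK k j m) (hm : m' ≤ m) : FamK k j m' := by
  obtain ⟨X, h1, h2⟩ := h
  refine ⟨fun a => X (Fin.castLE hm a), fun a => h1 _, fun a b hab => h2 _ _ ?_⟩
  intro h
  exact hab (Fin.castLE_injective hm h)

/-- One level up: an antichain of nonempty sets of indices gives a family. -/
theorem FamK.up {k j m m' : ℕ} (h : FamK k j m) (S : Fin m' → Finset (Fin m))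
    (hne : ∀ a, (S a).Nonempty) (hS : ∀ a b, a ≠ b → ∃ s ∈ S a, s ∉ S b) :
    FamK k (j + 1) m' := by
  obtain ⟨X, h1, h2⟩ := h
  refine ⟨fun a => ((X '' (S a : Set (Fin m)) : Set (TyK k j)) : TyK k (j + 1)), ?_, ?_⟩
  · intro a
    refine ⟨?_, ?_⟩
    · obtain ⟨s, hs⟩ := hne a
      exact ⟨X s, s, hs, rfl⟩
    · rintro _ ⟨s, _, rfl⟩
      exact h1 s
  · intro a b hab
    obtain ⟨s, hs, hsb⟩ := hS a b hab
    refine ⟨X s, ⟨s, hs, rfl⟩, ?_⟩
    rintro _ ⟨s', hs', rfl⟩
    refine h2 s s' ?_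
    rintro rfl
    exact hsb hs'

theorem famK_zero (k : ℕ) : FamK k 0 k :=
  ⟨fun a => (show TyK k 0 from a), fun _ => trivial, fun _ _ h => h⟩

/-- level two over three of the colours: `{{0},{1},{2}}, {{0,1}}, {{0,2}}, {{1,2}}` -/
theorem famK_two {k : ℕ} (hk : 3 ≤ k) : FamK k 2 4 := by
  have key : ∃ Y : Fin 4 → Finset (Finset (Fin 3)),
      (∀ a, (Y a).Nonempty ∧ ∀ s ∈ Y a, s.Nonempty) ∧
      ∀ a b, a ≠ b → ∃ s ∈ Y a, ∀ t ∈ Y b, ∃ c ∈ s, c ∉ t := by
    refine ⟨![{{0}, {1}, {2}}, {{0, 1}}, {{0, 2}}, {{1, 2}}], ?_, ?_⟩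
    · decide
    · decide
  obtain ⟨Y, h1, h2⟩ := key
  refine ⟨fun a => (show TyK k 2 from
    ((fun s : Finset (Fin 3) =>
      (show TyK k 1 from ({c | ∃ c' ∈ s, Fin.castLE hk c' = c} : Set (Fin k)))) ''
      {s | s ∈ Y a} : Set (TyK k 1))), ?_, ?_⟩
  · intro a
    refine ⟨?_, ?_⟩
    · obtain ⟨s, hs⟩ := (h1 a).1
      exact ⟨_, s, hs, rfl⟩
    · rintro _ ⟨s, hs, rfl⟩
      refine ⟨?_, fun _ _ => trivial⟩
      obtain ⟨c, hc⟩ := (h1 a).2 s hs
      exact ⟨Fin.castLE hk c, c, hc, rfl⟩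
  · intro a b hab
    obtain ⟨s, hs, hst⟩ := h2 a b hab
    refine ⟨_, ⟨s, hs, rfl⟩, ?_⟩
    rintro _ ⟨t, ht, rfl⟩
    obtain ⟨c, hc, hct⟩ := hst t ht
    refine ⟨Fin.castLE hk c, ⟨c, hc, rfl⟩, ?_⟩
    rintro _ ⟨d, hd, rfl⟩ hcd
    have hcd' : c = d := Fin.castLE_injective hk hcd
    subst hcd'
    exact hct hd

/-- four types give six one level up -/
theorem FamK.six {k j : ℕ} (h : FamK k j 4) : FamK k (j + 1) 6 := by
  have key : ∃ S : Fin 6 → Finset (Fin 4), (∀ a, (S a).Nonempty) ∧
      ∀ a b, a ≠ b → ∃ s ∈ S a, s ∉ S b := by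
    refine ⟨![{0, 1}, {0, 2}, {0, 3}, {1, 2}, {1, 3}, {2, 3}], ?_, ?_⟩
    · decide
    · decide
  obtain ⟨S, h1, h2⟩ := key
  exact h.up S h1 h2

/-- selectors: `2 r` types give `2 ^ r` types one level up -/
theorem FamK.double {k j r : ℕ} (hr : 1 ≤ r) (h : FamK k j (2 * r)) :
    FamK k (j + 1) (2 ^ r) := by
  classical
  have e : Fin (2 ^ r) ≃ (Fin r → Bool) := by
    refine Fintype.equivOfCardEq ?_
    simp
  let pt : Fin r → Bool → Fin (2 * r) := fun i c =>
    ⟨2 * i.val + (if c then 1 else 0), by have := i.isLt; split_ifs <;> omega⟩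
  have hpt : ∀ i c i' c', pt i c = pt i' c' → i = i' ∧ c = c' := by
    intro i c i' c' h
    have h' : 2 * i.val + (if c then 1 else 0) = 2 * i'.val + (if c' then 1 else 0) :=
      congrArg Fin.val h
    cases c <;> cases c' <;> simp at h' ⊢
    · exact Fin.ext h'
    · omega
    · omega
    · exact Fin.ext h'
  refine h.up (fun a => Finset.univ.image fun i => pt i (e a i)) ?_ ?_
  · intro a
    exact ⟨_, Finset.mem_image_of_mem _ (Finset.mem_univ (⟨0, hr⟩ : Fin r))⟩
  · intro a b hab
    have : ∃ i, e a i ≠ e b i := by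
      by_contra hall
      push Not at hall
      exact hab (e.injective (funext hall))
    obtain ⟨i, hi⟩ := this
    refine ⟨pt i (e a i), Finset.mem_image_of_mem _ (Finset.mem_univ i), ?_⟩
    intro hmem
    rw [Finset.mem_image] at hmem
    obtain ⟨i', _, hi'⟩ := hmem
    obtain ⟨h1, h2⟩ := hpt _ _ _ _ hi'
    subst h1
    exact hi h2.symm

/-- climbing: from `2 (tower a + 2)` types, each level raises `a` by one -/
theorem FamK.climb {k j a : ℕ} (h : FamK k j (2 * (tower a + 2))) (i : ℕ) :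
    FamK k (j + i) (2 * (tower (a + i) + 2)) := by
  induction i with
  | zero => exact h
  | succ i ih =>
    have h1 := ih.double (by omega)
    refine h1.mono ?_
    have h2 : tower (a + (i + 1)) = 2 ^ tower (a + i) := rfl
    have h3 : 2 ^ (tower (a + i) + 2) = 4 * 2 ^ tower (a + i) := by
      rw [pow_add]; ring
    have h4 : 2 ≤ 2 ^ tower (a + i) := by
      calc 2 = 2 ^ 1 := rfl
        _ ≤ _ := Nat.pow_le_pow_right (by norm_num) (tower_pos _)
    rw [h2, h3]
    omega

theorem logStar_lt {n t : ℕ} (h : tower t < n) : t < logStar n := by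
  by_contra hle
  have h1 := le_tower_logStar n
  have h2 := tower_mono (not_lt.mp hle)
  omega

theorem aux_pow {x : ℕ} (hx : 4 ≤ x) : 2 * (x + 2) ≤ 2 ^ x + 1 := by
  induction x, hx using Nat.le_induction with
  | base => decide
  | succ x hx ih =>
    rw [pow_succ]
    omega

/-- `n` pairwise admissible types over `k` colours at a level `r ≤ log* n - log* k + 5` -/
theorem famK_exists {k n : ℕ} (hk : 3 ≤ k) (hkn : k ≤ n) :
    ∃ r, 1 ≤ r ∧ r + logStar k ≤ logStar n + 5 ∧ FamK k r n := by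
  have hmono : logStar k ≤ logStar n := logStar_mono hkn
  have hn := le_tower_logStar n
  have hL : 2 ≤ logStar n := by
    have h1 : 1 < logStar n := logStar_lt (by have : tower 1 = 2 := rfl; omega)
    omega
  rcases Nat.lt_or_ge 4 k with h4 | h4
  · rcases Nat.lt_or_ge 16 k with h16 | h16
    · -- `k ≥ 17`
      have hs : 3 < logStar k := logStar_lt (by have : tower 3 = 16 := rfl; omega)
      obtain ⟨s, hs'⟩ : ∃ s, logStar k = s + 2 := ⟨logStar k - 2, by omega⟩
      have hs2 : 2 ≤ s := by omega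
      have hklt : tower (s + 1) < k := by
        by_contra hle
        have := logStar_le (not_lt.mp hle)
        omega
      have hx : 4 ≤ tower s := by
        have h1 : tower 2 ≤ tower s := tower_mono hs2
        have h2 : tower 2 = 4 := rfl
        omega
      have hbase : FamK k 0 (2 * (tower s + 2)) := by
        refine (famK_zero k).mono ?_
        have h1 := aux_pow hx
        have h2 : tower (s + 1) = 2 ^ tower s := rfl
        omega
      obtain ⟨i, hi⟩ := Nat.exists_eq_add_of_le (show s + 2 ≤ logStar n by omega)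
      refine ⟨0 + (i + 2), by omega, by omega, ?_⟩
      refine (hbase.climb (i + 2)).mono ?_
      rw [show logStar n = s + (i + 2) by omega] at hn
      omega
    · -- `5 ≤ k ≤ 16`
      have hs : logStar k ≤ 3 := logStar_le (by have : tower 3 = 16 := rfl; omega)
      have h6 : FamK k 1 6 := ((famK_zero k).mono (show 4 ≤ k by omega)).six
      have h8 : FamK k 2 (2 ^ 3) := FamK.double (r := 3) (by norm_num) h6
      have hbase : FamK k 2 (2 * (tower 1 + 2)) := h8.mono (by decide)
      obtain ⟨i, hi⟩ := Nat.exists_eq_add_of_le (show 1 ≤ logStar n by omega)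
      refine ⟨2 + i, by omega, by omega, ?_⟩
      refine (hbase.climb i).mono ?_
      rw [hi] at hn
      omega
  · -- `k = 3, 4`
    have hs : logStar k ≤ 2 := logStar_le (by have : tower 2 = 4 := rfl; omega)
    have h6 : FamK k 3 6 := (famK_two hk).six
    have h8 : FamK k 4 (2 ^ 3) := FamK.double (r := 3) (by norm_num) h6
    have hbase : FamK k 4 (2 * (tower 1 + 2)) := h8.mono (by decide)
    obtain ⟨i, hi⟩ := Nat.exists_eq_add_of_le (show 1 ≤ logStar n by omega)
    refine ⟨4 + i, by omega, by omega, ?_⟩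
    refine (hbase.climb i).mono ?_
    rw [hi] at hn
    omega

end Pool.Agent.H43.RO
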