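import Pool.Agent.H43.RO.Up
import Pool.Agent.H43.RO.Ba
import Pool.Agent.H43.RO.Bb
import Pool.Agent.H43.RO.Prod
import Pool.Agent.H43.RO.Core2
import Pool.Agent.H43.RO.Gr
import Pool.Agent.H43.RO.GrK43
import Pool.Agent.H43.RO.TypesK
import Pool.Agent.H43.RO.Yao2
import Pool.Agent.H15.RO.Asy7
import Pool.Agent.H64.RO.ColK
import Pool.Agent.H64.OC.Bridge

/-!
# On-line colouring, oblivious adversary: the lower bound for `2 ^ b` algorithms and for
randomised algorithms, for all `3 ≤ k ≤ n`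
-/

set_option autoImplicit false

namespace Pool.Agent.H43.RO
open Finset MeasureTheory
open Pool.Agent.H64.OC (OnlineAlg phi)
open Pool.Agent.H64.OC2 (logStar logStar_mono)
open Pool.Agent.H15.RO (asy7)
open Pool.Agent.H64.RO (colour_existsK)

/-- every deterministic algorithm fails on all but a small fraction of the graphs -/
theorem fraction {T L θ K : ℕ} {d : ℝ} (hθ : 2 ≤ θ)
    (h1 : Real.exp (-((T : ℝ) / 8)) +
      (T : ℝ) * (K * (((16 * T : ℕ) : ℝ) ^ (L + 1) + 1) * Real.exp (-(θ : ℝ))) ≤ d)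
    (h2 : 72 * K * θ ^ 2 < T) [NeZero (16 * T)] (A : OnlineAlg) (hA : A.Proper) :
    (Fintype.card {ω : Om T (16 * T) L (32 * θ) // A.numColours (GG ω) ≤ K} : ℝ) ≤
      d * Fintype.card (Om T (16 * T) L (32 * θ)) := by
  classical
  have hp : Play (cc A : Om T (16 * T) L (32 * θ) → Fin T → X (16 * T) L → ℕ) := play hA
  have hθ' : (2 : ℝ) ≤ (θ : ℝ) := by exact_mod_cast hθ
  have hh : 32 * (θ : ℝ) ≤ ((32 * θ : ℕ) : ℝ) := by push_cast; exact le_rfl
  have hup := upper hp (by linarith : (0 : ℝ) ≤ θ) (by positivity : (0 : ℝ) < 8 * (θ : ℝ) ^ 2) K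
  have h3 := core2_of (c := cc A) hθ' (le_refl (16 * T)) K (all_good hp hθ' hh K hup)
    (b1 hp (by linarith) K) (b2 hp (by linarith) K) (by exact_mod_cast h2)
  have h4 : Fintype.card {ω : Om T (16 * T) L (32 * θ) // A.numColours (GG ω) ≤ K} =
      (univ.filter fun ω : Om T (16 * T) L (32 * θ) => (cols (cc A) ω T).card ≤ K).card := by
    rw [Fintype.card_subtype]
    refine congrArg card (filter_congr fun ω _ => ?_)
    rw [numColours_GG]
  have h5 : ((univ.filter fun ω : Om T (16 * T) L (32 * θ) =>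
      (cols (cc A) ω T).card ≤ K).card : ℝ) ≤ d * Fintype.card (Om T (16 * T) L (32 * θ)) := by
    refine le_trans (by convert h3) (mul_le_mul_of_nonneg_right ?_ (by positivity))
    rw [cardX]
    push_cast
    push_cast at h1
    exact h1
  rw [← h4] at h5
  convert h5

theorem one_le_numColours {n : ℕ} (hn : 1 ≤ n) (A : OnlineAlg) (G : SimpleGraph (Fin n)) :
    1 ≤ A.numColours G := by
  have : Nonempty (Fin n) := ⟨⟨0, hn⟩⟩
  exact card_pos.2 (univ_nonempty.image _)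

theorem bot_colorable {n k : ℕ} (hk : 3 ≤ k) : (⊥ : SimpleGraph (Fin n)).Colorable k := by
  have : Nonempty (Fin k) := ⟨⟨0, by omega⟩⟩
  exact ⟨SimpleGraph.Coloring.mk (fun _ => Classical.arbitrary (Fin k)) fun h => absurd h id⟩

/-- the lower bound -/
noncomputable def bd (n k : ℕ) : ℝ :=
  (n : ℝ) ^ (1 / ((logStar n : ℝ) - (logStar k : ℝ) + 7))

/-- the random graphs for `n`, `k` and `b` -/
theorem exists_family : ∃ n₀ : ℕ, ∀ n ≥ n₀, ∀ k : ℕ, 3 ≤ k → k ≤ n → ∀ b : ℕ, 1 ≤ b →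
    ((b : ℝ) ^ 2 < bd n k) →
    ∃ (Ω : Type) (_ : Fintype Ω) (_ : Nonempty Ω) (N K : ℕ) (Gr : Ω → SimpleGraph (Fin N)),
      N ≤ n ∧ 2 * (bd n k / (b : ℝ) ^ 2) ≤ K ∧ (∀ ω, (Gr ω).Colorable k) ∧
      ∀ A : OnlineAlg, A.Proper →
        (Fintype.card {ω // A.numColours (Gr ω) ≤ K} : ℝ) ≤
          (1 / 2 : ℝ) ^ (b + 1) * Fintype.card Ω := by
  classical
  obtain ⟨n₀, h0⟩ := asy7
  refine ⟨max n₀ 1, fun n hn k hk hkn b hb hlt => ?_⟩
  have hn0 : n₀ ≤ n := (le_max_left _ _).trans hn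
  have hn1 : (1 : ℝ) ≤ n := by
    have : 1 ≤ n := (le_max_right _ _).trans hn
    exact_mod_cast this
  obtain ⟨r, hr1, hr2, hfam⟩ := famK_exists hk hkn
  have hlk : 2 ≤ logStar k := by
    by_contra hlt2
    have h1 : logStar k ≤ 1 := by omega
    have h2 := (Pool.Agent.H64.OC2.le_tower_logStar k).trans
      (Pool.Agent.H64.OC2.tower_mono h1)
    have h3 : Pool.Agent.H64.OC2.tower 1 = 2 := rfl
    omega
  have hle : bd n k ≤ (n : ℝ) ^ (1 / ((r : ℝ) + 2)) := by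
    unfold bd
    refine Real.rpow_le_rpow_of_exponent_le hn1 ?_
    have h1 : (r : ℝ) + logStar k ≤ logStar n + 5 := by exact_mod_cast hr2
    have h2 : (0 : ℝ) < (r : ℝ) + 2 := by positivity
    exact one_div_le_one_div_of_le h2 (by linarith)
  obtain ⟨T, θ, K, hT, hθ, h64, hN, h1, h2, h3⟩ := h0 n hn0 r hr1 (by omega) b hb
    (hlt.trans_le hle)
  obtain ⟨L, rfl⟩ : ∃ L, r = L + 1 := ⟨r - 1, by omega⟩
  have : NeZero (16 * T) := ⟨by omega⟩
  have hθ0 : 0 < 32 * θ := by omega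
  have : Nonempty (Fin (32 * θ)) := ⟨⟨0, hθ0⟩⟩
  refine ⟨Om T (16 * T) L (32 * θ), inferInstance, inferInstance,
    T * Fintype.card (X (16 * T) L), K, fun ω => GG ω, ?_, ?_, ?_, ?_⟩
  · rw [cardX]; exact hN
  · refine le_trans ?_ h3
    have hb0 : (0 : ℝ) < (b : ℝ) ^ 2 := by positivity
    exact mul_le_mul_of_nonneg_left (div_le_div_of_nonneg_right hle hb0.le) (by norm_num)
  · exact fun ω => GG_col ω (colour_existsK (hfam.mono h64) ω)
  · intro A hA
    convert fraction hθ h1 h2 A hA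

theorem half_pow_le {b : ℕ} (hb : 1 ≤ b) : (1 / 2 : ℝ) ^ (b + 1) ≤ 1 / 4 := by
  calc (1 / 2 : ℝ) ^ (b + 1) ≤ (1 / 2 : ℝ) ^ 2 :=
        pow_le_pow_of_le_one (by norm_num) (by norm_num) (by omega)
    _ = 1 / 4 := by norm_num

theorem main : ∃ n₀ : ℕ, ∀ n : ℕ, n₀ ≤ n → ∀ k : ℕ, 3 ≤ k → k ≤ n → ∀ b : ℕ, 1 ≤ b →
    (∀ A : Fin (2 ^ b) → OnlineAlg, (∀ i, (A i).Proper) →
      ∃ G : SimpleGraph (Fin n), G.Colorable k ∧
        ∀ i, bd n k / (b : ℝ) ^ 2 ≤ (A i).numColours G) ∧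
    (∀ {Θ : Type*} [MeasurableSpace Θ] (P : Measure Θ) [IsProbabilityMeasure P]
      (A : Θ → OnlineAlg), (∀ t, (A t).Proper) →
      (∀ G : SimpleGraph (Fin n), Measurable fun t => (A t).numColours G) →
      ∃ G : SimpleGraph (Fin n), G.Colorable k ∧
        ENNReal.ofReal (1 - (1 / 2) ^ b) ≤
          P {t | bd n k / (b : ℝ) ^ 2 ≤ (A t).numColours G} ∧
        ENNReal.ofReal (bd n k / (b : ℝ) ^ 2) ≤
          ∫⁻ t, ((A t).numColours G : ENNReal) ∂P) := by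
  classical
  obtain ⟨n₀, h0⟩ := exists_family
  refine ⟨max n₀ 1, fun n hn k hk hkn b hb => ?_⟩
  have hn0 : n₀ ≤ n := (le_max_left _ _).trans hn
  have hn1 : 1 ≤ n := (le_max_right _ _).trans hn
  have hb0 : (0 : ℝ) < (b : ℝ) ^ 2 := by positivity
  have hp0 : (0 : ℝ) < (1 / 2 : ℝ) ^ b := by positivity
  rcases lt_or_ge ((b : ℝ) ^ 2) (bd n k) with hlt | hge
  · obtain ⟨Ω, _, _, N, K, Gr, hN, hK, hcol, hbad⟩ := h0 n hn0 k hk hkn b hb hlt
    have hbd : 0 ≤ bd n k / (b : ℝ) ^ 2 := by unfold bd; positivity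
    have hq := half_pow_le hb
    refine ⟨fun A hA => ?_, fun {Θ} _ P _ A hA hmeas => ?_⟩
    · obtain ⟨G, hG1, hG2⟩ := fam2 hN (by omega) Gr hcol hbad A hA (by
        rw [Fintype.card_fin]
        push_cast
        rw [pow_succ, ← mul_assoc, ← mul_pow]
        norm_num)
      refine ⟨G, hG1, fun i => ?_⟩
      have h4 : (K : ℝ) < ((A i).numColours G : ℝ) := by exact_mod_cast hG2 i
      linarith
    · obtain ⟨G, hG1, hG2, hG3⟩ := yao2 hN (by omega) (by positivity) (by linarith) Gr hcol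
        hbad P A hA hmeas
      refine ⟨G, hG1, ?_, ?_⟩
      · refine (ENNReal.ofReal_le_ofReal ?_).trans (hG2.trans (measure_mono fun t ht => ?_))
        · rw [pow_succ]; linarith
        · have h4 : (K : ℝ) < ((A t).numColours G : ℝ) := by exact_mod_cast ht
          show bd n k / (b : ℝ) ^ 2 ≤ ((A t).numColours G : ℝ)
          linarith
      · refine (ENNReal.ofReal_le_ofReal ?_).trans hG3
        have hKK : (0 : ℝ) ≤ K := by positivity
        nlinarith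
  · have hbd : bd n k / (b : ℝ) ^ 2 ≤ 1 := by
      rw [div_le_one hb0]
      exact hge
    have h1 : ∀ (A : OnlineAlg) (G : SimpleGraph (Fin n)),
        bd n k / (b : ℝ) ^ 2 ≤ (A.numColours G : ℝ) :=
      fun A G => hbd.trans (by exact_mod_cast one_le_numColours hn1 A G)
    refine ⟨fun A hA => ⟨⊥, bot_colorable hk, fun i => h1 _ _⟩, fun {Θ} _ P _ A hA hmeas =>
      ⟨⊥, bot_colorable hk, ?_, ?_⟩⟩
    · have : {t | bd n k / (b : ℝ) ^ 2 ≤
          ((A t).numColours (⊥ : SimpleGraph (Fin n)) : ℝ)} = Set.univ :=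
        Set.eq_univ_of_forall fun t => h1 _ _
      rw [this, measure_univ]
      rw [← ENNReal.ofReal_one]
      exact ENNReal.ofReal_le_ofReal (by linarith)
    · calc ENNReal.ofReal (bd n k / (b : ℝ) ^ 2) ≤ ENNReal.ofReal 1 :=
            ENNReal.ofReal_le_ofReal hbd
        _ = ∫⁻ _t, 1 ∂P := by simp
        _ ≤ ∫⁻ t, ((A t).numColours (⊥ : SimpleGraph (Fin n)) : ENNReal) ∂P := by
            refine lintegral_mono fun t => ?_
            have h2 := one_le_numColours hn1 (A t) ⊥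
            show (1 : ENNReal) ≤ ((A t).numColours (⊥ : SimpleGraph (Fin n)) : ENNReal)
            exact_mod_cast h2

theorem phi_lower2 : ∃ n₀ : ℕ, ∀ n : ℕ, n₀ ≤ n → ∀ k : ℕ, 3 ≤ k → k ≤ n →
    bd n k ≤ (phi k n : ℝ) := by
  classical
  obtain ⟨n₀, h0⟩ := main.{0}
  refine ⟨n₀, fun n hn k hk hkn => ?_⟩
  obtain ⟨A, hA, hle⟩ := Nat.sInf_mem (Pool.Agent.H64.OC.phi_set_nonempty k n)
  obtain ⟨G, hG1, hG2⟩ := (h0 n hn k hk hkn 1 le_rfl).1 (fun _ => A) (fun _ => hA)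
  have h1 := hle G hG1
  have h2 := hG2 0
  have h3 : bd n k / ((1 : ℕ) : ℝ) ^ 2 = bd n k := by simp
  rw [h3] at h2
  refine h2.trans ?_
  exact_mod_cast h1

end Pool.Agent.H43.RO
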