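import Mathlib

/-!
# (O1) One level of an iterated arc graph shortens an odd closed walk by at least two
-/

set_option autoImplicit false

namespace Pool.Agent.H43.RO

theorem odd_step {V V' : Type*} (R : V → V → Prop) (R' : V' → V' → Prop) (par usr : V' → V)
    (rk : V → ℕ) (hR : ∀ a b, R a b → rk a < rk b)
    (h1 : ∀ s t, R' s t → par t = usr s ∧ R (par s) (usr s)) {l : ℕ} (w : ℕ → V')
    (hw : ∀ i < l, R' (w i) (w (i + 1)) ∨ R' (w (i + 1)) (w i)) (hcl : w l = w 0)
    (hodd : Odd l) :
    ∃ (l' : ℕ) (z : ℕ → V), l' + 2 ≤ l ∧ Odd l' ∧ z l' = z 0 ∧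
      ∀ i < l', R (z i) (z (i + 1)) ∨ R (z (i + 1)) (z i) := by
  classical
  have hl : 0 < l := hodd.pos
  -- periodic extension
  obtain ⟨p, hp⟩ : ∃ p : ℕ → V', ∀ i, p i = w (i % l) := ⟨fun i => w (i % l), fun _ => rfl⟩
  have hp1 : ∀ i, p (i + 1) = w (i % l + 1) := by
    intro i
    rw [hp, ← Nat.mod_add_mod i l 1]
    have := Nat.mod_lt i hl
    rcases Nat.lt_or_ge (i % l + 1) l with h | h
    · rw [Nat.mod_eq_of_lt h]
    · have e : i % l + 1 = l := by omega
      rw [e, Nat.mod_self, hcl]
  have hstep : ∀ i, R' (p i) (p (i + 1)) ∨ R' (p (i + 1)) (p i) := by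
    intro i
    rw [hp1, hp i]
    exact hw (i % l) (Nat.mod_lt _ hl)
  have hper : ∀ i, p (i + l) = p i := by
    intro i
    rw [hp, hp, Nat.add_mod_right]
  -- directions, sources and targets
  obtain ⟨D, hD⟩ : ∃ D : ℕ → Prop, ∀ i, D i ↔ R' (p i) (p (i + 1)) :=
    ⟨fun i => R' (p i) (p (i + 1)), fun _ => Iff.rfl⟩
  obtain ⟨src, hsrc⟩ : ∃ src : ℕ → V', ∀ i, src i = if D i then p i else p (i + 1) :=
    ⟨fun i => if D i then p i else p (i + 1), fun _ => rfl⟩
  obtain ⟨tgt, htgt⟩ : ∃ tgt : ℕ → V', ∀ i, tgt i = if D i then p (i + 1) else p i :=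
    ⟨fun i => if D i then p (i + 1) else p i, fun _ => rfl⟩
  have hst : ∀ i, R' (src i) (tgt i) := by
    intro i
    rw [hsrc, htgt]
    by_cases h : D i
    · rw [if_pos h, if_pos h]; exact (hD i).mp h
    · rw [if_neg h, if_neg h]
      rcases hstep i with h' | h'
      · exact absurd ((hD i).mpr h') h
      · exact h'
  have hz1 : ∀ i, par (tgt i) = usr (src i) := fun i => (h1 _ _ (hst i)).1
  have hz2 : ∀ i, R (par (src i)) (usr (src i)) := fun i => (h1 _ _ (hst i)).2
  have hff : ∀ i, D i → D (i + 1) → R (usr (src i)) (usr (src (i + 1))) := by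
    intro i h h'
    have e : src (i + 1) = tgt i := by rw [hsrc, htgt, if_pos h, if_pos h']
    have := hz2 (i + 1)
    nth_rewrite 1 [e] at this
    rw [hz1] at this
    exact this
  have hbb : ∀ i, ¬ D i → ¬ D (i + 1) → R (usr (src (i + 1))) (usr (src i)) := by
    intro i h h'
    have e : tgt (i + 1) = src i := by rw [hsrc, htgt, if_neg h, if_neg h']
    have := hz2 i
    nth_rewrite 1 [← e] at this
    rw [hz1] at this
    exact this
  have hlazy : ∀ i, ¬ (D i ↔ D (i + 1)) → usr (src (i + 1)) = usr (src i) := by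
    intro i h
    by_cases hi : D i
    · have hi' : ¬ D (i + 1) := fun h' => h ⟨fun _ => h', fun _ => hi⟩
      have e : tgt (i + 1) = tgt i := by rw [htgt, htgt, if_pos hi, if_neg hi']
      rw [← hz1, ← hz1, e]
    · have hi' : D (i + 1) := by
        by_contra h'
        exact h ⟨fun a => absurd a hi, fun a => absurd a h'⟩
      have e : src (i + 1) = src i := by rw [hsrc, hsrc, if_neg hi, if_pos hi']
      rw [e]
  have hadj : ∀ i, (D i ↔ D (i + 1)) → R (usr (src i)) (usr (src (i + 1))) ∨
      R (usr (src (i + 1))) (usr (src i)) := by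
    intro i h
    by_cases hi : D i
    · exact Or.inl (hff i hi (h.mp hi))
    · exact Or.inr (hbb i hi fun h' => hi (h.mpr h'))
  -- compression
  have comp : ∀ n : ℕ, ∃ (m t : ℕ) (y : ℕ → V), m + t = n ∧ (Even t ↔ (D 0 ↔ D n)) ∧
      y 0 = usr (src 0) ∧ y m = usr (src n) ∧
      (∀ i < m, R (y i) (y (i + 1)) ∨ R (y (i + 1)) (y i)) ∧
      (t = 0 → ∀ i < n, (D i ↔ D (i + 1))) := by
    intro n
    induction n with
    | zero => exact ⟨0, 0, fun _ => usr (src 0), rfl, by simp, rfl, rfl,
        fun i hi => absurd hi (Nat.not_lt_zero i), fun _ i hi => absurd hi (Nat.not_lt_zero i)⟩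
    | succ n ih =>
      obtain ⟨m, t, y, e1, e2, e3, e4, e5, e6⟩ := ih
      by_cases h : (D n ↔ D (n + 1))
      · refine ⟨m + 1, t, fun i => if i ≤ m then y i else usr (src (n + 1)), by omega, ?_, ?_, ?_,
          ?_, ?_⟩
        · rw [e2]
          constructor
          · exact fun a => a.trans h
          · exact fun a => a.trans h.symm
        · simp [e3]
        · simp
        · intro i hi
          rcases Nat.lt_or_ge i m with hi' | hi'
          · have a1 : i ≤ m := hi'.le
            have a2 : i + 1 ≤ m := hi'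
            simp only [a1, a2, if_true]
            exact e5 i hi'
          · have a0 : i = m := by omega
            subst a0
            have a2 : ¬ (i + 1 ≤ i) := by omega
            simp only [le_refl, a2, if_true, if_false]
            rw [e4]
            exact hadj n h
        · intro ht i hi
          rcases Nat.lt_or_ge i n with hi' | hi'
          · exact e6 ht i hi'
          · have a0 : i = n := by omega
            rw [a0]; exact h
      · refine ⟨m, t + 1, y, by omega, ?_, e3, ?_, e5, fun ht => absurd ht (Nat.succ_ne_zero t)⟩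
        · rw [Nat.even_add_one, e2]
          tauto
        · rw [e4, hlazy n h]
  obtain ⟨m, t, y, e1, e2, e3, e4, e5, e6⟩ := comp l
  have hDl : D 0 ↔ D l := by
    rw [hD, hD]
    have a1 : p l = p 0 := by have := hper 0; rwa [zero_add] at this
    have a2 : p (l + 1) = p (0 + 1) := by have := hper 1; rwa [add_comm 1 l] at this
    rw [a1, a2]
  have hzl : usr (src l) = usr (src 0) := by
    have a1 : p l = p 0 := by have := hper 0; rwa [zero_add] at this
    have a2 : p (l + 1) = p (0 + 1) := by have := hper 1; rwa [add_comm 1 l] at this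
    rw [hsrc, hsrc, a1, a2]
    by_cases h : D 0
    · rw [if_pos h, if_pos (hDl.mp h)]
    · rw [if_neg h, if_neg fun a => h (hDl.mpr a)]
  have hte : Even t := e2.mpr hDl
  have ht0 : t ≠ 0 := by
    intro ht
    have hall := e6 ht
    have hall' : ∀ i ≤ l, (D 0 ↔ D i) := by
      intro i
      induction i with
      | zero => exact fun _ => Iff.rfl
      | succ i ih => exact fun hi => (ih (by omega)).trans (hall i (by omega))
    by_cases h0 : D 0
    · have : ∀ i ≤ l, rk (usr (src 0)) + i ≤ rk (usr (src i)) := by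
        intro i
        induction i with
        | zero => exact fun _ => le_rfl
        | succ i ih =>
          intro hi
          have b1 := ih (by omega)
          have b2 := hR _ _ (hff i ((hall' i (by omega)).mp h0) ((hall' (i + 1) hi).mp h0))
          omega
      have := this l le_rfl
      rw [hzl] at this
      omega
    · have : ∀ i ≤ l, rk (usr (src i)) + i ≤ rk (usr (src 0)) := by
        intro i
        induction i with
        | zero => exact fun _ => le_rfl
        | succ i ih =>
          intro hi
          have b1 := ih (by omega)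
          have b2 := hR _ _ (hbb i (fun a => h0 ((hall' i (by omega)).mpr a))
            (fun a => h0 ((hall' (i + 1) hi).mpr a)))
          omega
      have := this l le_rfl
      rw [hzl] at this
      omega
  refine ⟨m, y, ?_, ?_, by rw [e4, e3, hzl], e5⟩
  · obtain ⟨r, hr⟩ := hte
    omega
  · obtain ⟨r, hr⟩ := hte
    obtain ⟨r', hr'⟩ := hodd
    exact ⟨r' - r, by omega⟩

end Pool.Agent.H43.RO
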