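import Mathlib

/-!
# Odd girth
-/

set_option autoImplicit false

namespace Pool.Agent.H43.RO

/-- every closed walk of odd length has length at least `g` (so there is no odd cycle of length
less than `g`) -/
def OddGirthGE {V : Type*} (G : SimpleGraph V) (g : ℕ) : Prop :=
  ∀ (l : ℕ) (w : ℕ → V), w l = w 0 → (∀ i < l, G.Adj (w i) (w (i + 1))) → Odd l → g ≤ l

end Pool.Agent.H43.RO
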