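import Pool.Agent.H64.OC2.Uniform
import Pool.Agent.H43.RO.OddDef

/-!
# On-line colouring: the odd girth of the resized graph (O3)
-/

set_option autoImplicit false

namespace Pool.Agent.H43.RO

open Pool.Agent.H64.OC2 (resize)

theorem resize_odd {N n g : ℕ} {G : SimpleGraph (Fin N)} (_hN : N ≤ n) (hG : OddGirthGE G g) :
    OddGirthGE (resize G n) g := by
  intro l w hcl hadj hodd
  obtain ⟨h00, -, -⟩ := hadj 0 hodd.pos
  have hNpos : 0 < N := by omega
  let w' : ℕ → Fin N := fun i => if h : (w i).val < N then ⟨(w i).val, h⟩ else ⟨0, hNpos⟩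
  have hw' : ∀ (i : ℕ) (h : (w i).val < N), w' i = ⟨(w i).val, h⟩ := fun i h => dif_pos h
  refine hG l w' ?_ ?_ hodd
  · simp only [w', hcl]
  · intro i hi
    obtain ⟨ha, hb, hab⟩ := hadj i hi
    rw [hw' i ha, hw' (i + 1) hb]
    exact hab

end Pool.Agent.H43.RO
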