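import Pool.Agent.H43.RO.TypesK

/-!
# On-line colouring: types at the exact level `log* n - log* k + 5`
-/

set_option autoImplicit false

namespace Pool.Agent.H43.RO

open Pool.Agent.H64.OC2 (logStar logStar_mono)

theorem FamK.succ {k j m : ℕ} (h : FamK k j m) : FamK k (j + 1) m :=
  h.up (fun a => {a}) (fun a => Finset.singleton_nonempty a)
    (fun a b hab => ⟨a, Finset.mem_singleton_self a, fun hb => hab (Finset.mem_singleton.1 hb)⟩)

theorem FamK.le_level {k j j' m : ℕ} (h : FamK k j m) (hj : j ≤ j') : FamK k j' m := by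
  induction hj with
  | refl => exact h
  | step _ ih => exact ih.succ

theorem famK_exact {k n : ℕ} (hk : 3 ≤ k) (hkn : k ≤ n) :
    FamK k (logStar n - logStar k + 5) n := by
  obtain ⟨r, _, hr, h⟩ := famK_exists hk hkn
  have := logStar_mono hkn
  exact h.le_level (by omega)

end Pool.Agent.H43.RO
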