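import Pool.Agent.H43.RO.Yao

/-!
# On-line colouring: from a random graph to randomised algorithms and to algorithms with advice
(arbitrary property of the graph)
-/

set_option autoImplicit false

namespace Pool.Agent.H43.RO

open Finset
open Pool.Agent.H64.OC (OnlineAlg initial)
open Pool.Agent.H64.OC2 (resize resize_colorable initial_resize)
open scoped ENNReal

/-- O4 (i): a random graph with the property `Pr` on which every deterministic algorithm uses at most `K`
colours with probability at most `d` gives, for every random algorithm, one graph on which it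
uses more than `K` colours with probability at least `1 - d`. -/
theorem yao3 {Ω : Type} [Fintype Ω] [Nonempty Ω] {N n K : ℕ} {d : ℝ} (hN : N ≤ n)
    (Pr : SimpleGraph (Fin n) → Prop)
    (_hd0 : 0 ≤ d) (_hd1 : d ≤ 1)
    (Gr : Ω → SimpleGraph (Fin N)) (hPr : ∀ ω, Pr (resize (Gr ω) n))
    (hbad : ∀ A : OnlineAlg, A.Proper →
      (Fintype.card {ω // A.numColours (Gr ω) ≤ K} : ℝ) ≤ d * Fintype.card Ω)
    {Θ : Type*} [MeasurableSpace Θ] (P : MeasureTheory.Measure Θ)
    [MeasureTheory.IsProbabilityMeasure P] (A : Θ → OnlineAlg) (hA : ∀ t, (A t).Proper)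
    (hmeas : ∀ G : SimpleGraph (Fin n), Measurable fun t => (A t).numColours G) :
    ∃ G : SimpleGraph (Fin n), Pr G ∧
      ENNReal.ofReal (1 - d) ≤ P {t | K < (A t).numColours G} ∧
      ENNReal.ofReal ((1 - d) * (K + 1)) ≤ ∫⁻ t, ((A t).numColours G : ENNReal) ∂P := by
  classical
  have key : ∃ G : SimpleGraph (Fin n), Pr G ∧
      ENNReal.ofReal (1 - d) ≤ P {t | K < (A t).numColours G} := by
    by_contra hcon
    push Not at hcon
    set E : Ω → Set Θ := fun ω => {t | K < (A t).numColours (resize (Gr ω) n)} with hE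
    have hmE : ∀ ω, MeasurableSet (E ω) := fun ω => (hmeas _) (measurableSet_Ioi (a := K))
    have h1 : ∀ ω, P (E ω) < ENNReal.ofReal (1 - d) := fun ω =>
      hcon _ (hPr ω)
    have h2 : ∑ ω, P (E ω) < ∑ _ω : Ω, ENNReal.ofReal (1 - d) :=
      ENNReal.sum_lt_sum_of_nonempty Finset.univ_nonempty fun ω _ => h1 ω
    have h5 : ∑ ω, P (E ω) = ∫⁻ t, ∑ ω, (E ω).indicator 1 t ∂P := by
      rw [MeasureTheory.lintegral_finsetSum _ fun ω _ => measurable_one.indicator (hmE ω)]
      refine Finset.sum_congr rfl fun ω _ => ?_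
      rw [MeasureTheory.lintegral_indicator_one (hmE ω)]
    have h3 : ∀ t, ∑ _ω : Ω, ENNReal.ofReal (1 - d) ≤
        ∑ ω, (E ω).indicator (1 : Θ → ENNReal) t := by
      intro t
      have e0 := hbad (A t) (hA t)
      rw [Fintype.card_subtype] at e0
      have e1 := Finset.card_filter_add_card_filter_not (s := (univ : Finset Ω))
        (fun ω => (A t).numColours (Gr ω) ≤ K)
      rw [Finset.card_univ] at e1
      have e2 : (univ.filter fun ω => ¬ (A t).numColours (Gr ω) ≤ K).card ≤
          (univ.filter fun ω => t ∈ E ω).card := by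
        refine Finset.card_le_card fun ω hω => ?_
        rw [mem_filter] at hω ⊢
        refine ⟨mem_univ _, ?_⟩
        have := numColours_resize hN (A t) (Gr ω)
        show K < _
        omega
      have e3 : (Fintype.card Ω : ℝ) * (1 - d) ≤ ((univ.filter fun ω => t ∈ E ω).card : ℝ) := by
        have e5 : ((univ.filter fun ω => (A t).numColours (Gr ω) ≤ K).card : ℝ) +
            ((univ.filter fun ω => ¬ (A t).numColours (Gr ω) ≤ K).card : ℝ) =
            (Fintype.card Ω : ℝ) := by exact_mod_cast e1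
        have e6 : ((univ.filter fun ω => ¬ (A t).numColours (Gr ω) ≤ K).card : ℝ) ≤
            ((univ.filter fun ω => t ∈ E ω).card : ℝ) := by exact_mod_cast e2
        linarith
      have e4 : ∑ ω, (E ω).indicator (1 : Θ → ENNReal) t =
          ((univ.filter fun ω => t ∈ E ω).card : ENNReal) := by
        simp only [Set.indicator_apply, Pi.one_apply]
        rw [Finset.sum_boole]
      rw [e4, Finset.sum_const, Finset.card_univ, nsmul_eq_mul]
      have e7 := ENNReal.ofReal_le_ofReal e3
      rwa [ENNReal.ofReal_mul (by positivity), ENNReal.ofReal_natCast,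
        ENNReal.ofReal_natCast] at e7
    have h4 : ∑ _ω : Ω, ENNReal.ofReal (1 - d) ≤ ∑ ω, P (E ω) := by
      rw [h5]
      calc ∑ _ω : Ω, ENNReal.ofReal (1 - d) = ∫⁻ _t, ∑ _ω : Ω, ENNReal.ofReal (1 - d) ∂P := by
            rw [MeasureTheory.lintegral_const, MeasureTheory.measure_univ, mul_one]
        _ ≤ _ := MeasureTheory.lintegral_mono h3
    exact absurd h2 (not_lt.2 h4)
  obtain ⟨G, hG, hP⟩ := key
  refine ⟨G, hG, hP, ?_⟩
  have hm : Measurable fun t => ((A t).numColours G : ENNReal) :=
    (measurable_from_top (f := fun k : ℕ => (k : ENNReal))).comp (hmeas _)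
  have h1 := MeasureTheory.mul_meas_ge_le_lintegral (μ := P) hm ((K + 1 : ℕ) : ENNReal)
  have h2 : {t | ((K + 1 : ℕ) : ENNReal) ≤ ((A t).numColours G : ENNReal)} =
      {t | K < (A t).numColours G} := by
    ext t
    simp only [Set.mem_ofPred_eq, Nat.cast_le]
    omega
  rw [h2] at h1
  refine le_trans ?_ h1
  refine le_trans ?_ (mul_le_mul_right hP _)
  have h3 : (1 - d) * ((K : ℝ) + 1) = ((K + 1 : ℕ) : ℝ) * (1 - d) := by push_cast; ring
  rw [h3, ENNReal.ofReal_mul (by positivity), ENNReal.ofReal_natCast]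

/-- O4 (ii): advice. -/
theorem fam3 {Ω : Type} [Fintype Ω] [Nonempty Ω] {N n K : ℕ} {d : ℝ} (hN : N ≤ n)
    (Pr : SimpleGraph (Fin n) → Prop)
    (Gr : Ω → SimpleGraph (Fin N)) (hPr : ∀ ω, Pr (resize (Gr ω) n))
    (hbad : ∀ A : OnlineAlg, A.Proper →
      (Fintype.card {ω // A.numColours (Gr ω) ≤ K} : ℝ) ≤ d * Fintype.card Ω)
    {ι : Type*} [Fintype ι] (A : ι → OnlineAlg) (hA : ∀ i, (A i).Proper)
    (hd : (Fintype.card ι : ℝ) * d < 1) :
    ∃ G : SimpleGraph (Fin n), Pr G ∧ ∀ i, K < (A i).numColours G := by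
  classical
  have key : ∃ ω, ∀ i, K < (A i).numColours (Gr ω) := by
    by_contra hcon
    push Not at hcon
    have h1 : (univ : Finset Ω) ⊆
        univ.biUnion fun i => univ.filter fun ω => (A i).numColours (Gr ω) ≤ K := by
      intro ω _
      obtain ⟨i, hi⟩ := hcon ω
      rw [mem_biUnion]
      exact ⟨i, mem_univ _, mem_filter.2 ⟨mem_univ _, hi⟩⟩
    have h2 := (Finset.card_le_card h1).trans Finset.card_biUnion_le
    rw [Finset.card_univ] at h2
    have h3 : (Fintype.card Ω : ℝ) ≤
        ∑ i : ι, ((univ.filter fun ω => (A i).numColours (Gr ω) ≤ K).card : ℝ) := by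
      exact_mod_cast h2
    have h4 : ∑ i : ι, ((univ.filter fun ω => (A i).numColours (Gr ω) ≤ K).card : ℝ) ≤
        ∑ _i : ι, d * Fintype.card Ω := by
      refine Finset.sum_le_sum fun i _ => ?_
      have := hbad (A i) (hA i)
      rwa [Fintype.card_subtype] at this
    rw [Finset.sum_const, Finset.card_univ, nsmul_eq_mul] at h4
    have h5 : (0 : ℝ) < Fintype.card Ω := by exact_mod_cast Fintype.card_pos
    have h6 := h3.trans h4
    nlinarith
  obtain ⟨ω, hω⟩ := key
  exact ⟨resize (Gr ω) n, hPr ω, fun i =>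
    lt_of_lt_of_le (hω i) (numColours_resize hN _ _)⟩

end Pool.Agent.H43.RO
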