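import Pool.Agent.H43.RO.Fin3
import Pool.Agent.H43.RO.TypesK2
import Pool.Agent.H43.RO.OddStep
import Pool.Agent.H64.RO.GrOdd
import Pool.Agent.H43.RO.ResOdd
import Pool.Agent.H43.RO.Yao3
import Pool.Agent.H15.RO.Asy8
import Pool.Agent.H64.OC2.Uniform

/-!
# On-line colouring, oblivious adversary: the lower bound on graphs of large odd girth
-/

set_option autoImplicit false

namespace Pool.Agent.H43.RO
open Finset MeasureTheory
open Pool.Agent.H64.OC (OnlineAlg phi)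
open Pool.Agent.H64.OC2 (logStar logStar_mono resize resize_colorable)
open Pool.Agent.H15.RO (asy8 level_small)
open Pool.Agent.H64.RO (colour_existsK)

/-- the graphs of the adversary have large odd girth -/
theorem GG_odd {T m L h : ℕ} [NeZero m] (ω : Om T m L h) :
    OddGirthGE (GG ω) (2 * (L + 1) + 3) :=
  Pool.Agent.H64.RO.GG_odd_of (fun R R' par usr rk hR h1 _ w hw hcl hodd =>
    odd_step R R' par usr rk hR h1 w hw hcl hodd) ω

/-- the property of the hard graphs: `k`-colourable, with large odd girth -/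
def Pr (k r n : ℕ) (G : SimpleGraph (Fin n)) : Prop :=
  G.Colorable k ∧ OddGirthGE G (2 * r + 3)

theorem bot_Pr {n k r : ℕ} (hk : 3 ≤ k) : Pr k r n (⊥ : SimpleGraph (Fin n)) := by
  refine ⟨bot_colorable hk, fun l w _ hw hl => ?_⟩
  have h0 : 0 < l := hl.pos
  exact absurd (hw 0 h0) id

/-- the lower bound at level `r` -/
noncomputable def br (n r : ℕ) : ℝ := (n : ℝ) ^ (1 / ((r : ℝ) + 2))

/-- the random graphs for `n`, `k`, `r` and `b` -/
theorem exists_family3 : ∃ n₀ : ℕ, ∀ n ≥ n₀, ∀ k : ℕ, 3 ≤ k → k ≤ n → ∀ r : ℕ,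
    logStar n + 5 ≤ r + logStar k → r ^ 3 ≤ Nat.log 2 n → ∀ b : ℕ, 1 ≤ b →
    ((b : ℝ) ^ 2 < br n r) →
    ∃ (Ω : Type) (_ : Fintype Ω) (_ : Nonempty Ω) (N K : ℕ) (Gr : Ω → SimpleGraph (Fin N)),
      N ≤ n ∧ 2 * (br n r / (b : ℝ) ^ 2) ≤ K ∧ (∀ ω, Pr k r n (resize (Gr ω) n)) ∧
      ∀ A : OnlineAlg, A.Proper →
        (Fintype.card {ω // A.numColours (Gr ω) ≤ K} : ℝ) ≤
          (1 / 2 : ℝ) ^ (b + 1) * Fintype.card Ω := by
  classical
  obtain ⟨n₀, h0⟩ := asy8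
  refine ⟨n₀, fun n hn k hk hkn r hr hr3 b hb hlt => ?_⟩
  have hmono := logStar_mono hkn
  have hfam : FamK k r n := (famK_exact hk hkn).le_level (by omega)
  have hr1 : 1 ≤ r := by omega
  obtain ⟨T, θ, K, hT, hθ, h64, hN, h1, h2, h3⟩ := h0 n hn r hr1 hr3 b hb hlt
  obtain ⟨L, rfl⟩ : ∃ L, r = L + 1 := ⟨r - 1, by omega⟩
  have : NeZero (16 * T) := ⟨by omega⟩
  have hθ0 : 0 < 32 * θ := by omega
  have : Nonempty (Fin (32 * θ)) := ⟨⟨0, hθ0⟩⟩
  have hNn : T * Fintype.card (X (16 * T) L) ≤ n := by rw [cardX]; exact hN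
  refine ⟨Om T (16 * T) L (32 * θ), inferInstance, inferInstance,
    T * Fintype.card (X (16 * T) L), K, fun ω => GG ω, hNn, h3, ?_, ?_⟩
  · intro ω
    have hc : (GG ω).Colorable k := GG_col ω (colour_existsK (hfam.mono h64) ω)
    exact ⟨resize_colorable (by omega) hc n, resize_odd hNn (GG_odd ω)⟩
  · intro A hA
    convert fraction hθ h1 h2 A hA

theorem main3 : ∃ n₀ : ℕ, ∀ n : ℕ, n₀ ≤ n → ∀ k : ℕ, 3 ≤ k → k ≤ n → ∀ r : ℕ,
    logStar n + 5 ≤ r + logStar k → r ^ 3 ≤ Nat.log 2 n → ∀ b : ℕ, 1 ≤ b →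
    (∀ A : Fin (2 ^ b) → OnlineAlg, (∀ i, (A i).Proper) →
      ∃ G : SimpleGraph (Fin n), Pr k r n G ∧
        ∀ i, br n r / (b : ℝ) ^ 2 ≤ (A i).numColours G) ∧
    (∀ {Θ : Type*} [MeasurableSpace Θ] (P : Measure Θ) [IsProbabilityMeasure P]
      (A : Θ → OnlineAlg), (∀ t, (A t).Proper) →
      (∀ G : SimpleGraph (Fin n), Measurable fun t => (A t).numColours G) →
      ∃ G : SimpleGraph (Fin n), Pr k r n G ∧
        ENNReal.ofReal (1 - (1 / 2) ^ b) ≤
          P {t | br n r / (b : ℝ) ^ 2 ≤ (A t).numColours G} ∧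
        ENNReal.ofReal (br n r / (b : ℝ) ^ 2) ≤
          ∫⁻ t, ((A t).numColours G : ENNReal) ∂P) := by
  classical
  obtain ⟨n₀, h0⟩ := exists_family3
  refine ⟨max n₀ 1, fun n hn k hk hkn r hr hr3 b hb => ?_⟩
  have hn0 : n₀ ≤ n := (le_max_left _ _).trans hn
  have hn1 : 1 ≤ n := (le_max_right _ _).trans hn
  have hb0 : (0 : ℝ) < (b : ℝ) ^ 2 := by positivity
  have hp0 : (0 : ℝ) < (1 / 2 : ℝ) ^ b := by positivity
  rcases lt_or_ge ((b : ℝ) ^ 2) (br n r) with hlt | hge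
  · obtain ⟨Ω, _, _, N, K, Gr, hN, hK, hcol, hbad⟩ := h0 n hn0 k hk hkn r hr hr3 b hb hlt
    have hbd : 0 ≤ br n r / (b : ℝ) ^ 2 := by unfold br; positivity
    have hq := half_pow_le hb
    refine ⟨fun A hA => ?_, fun {Θ} _ P _ A hA hmeas => ?_⟩
    · obtain ⟨G, hG1, hG2⟩ := fam3 hN (Pr k r n) Gr hcol hbad A hA (by
        rw [Fintype.card_fin]
        push_cast
        rw [pow_succ, ← mul_assoc, ← mul_pow]
        norm_num)
      refine ⟨G, hG1, fun i => ?_⟩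
      have h4 : (K : ℝ) < ((A i).numColours G : ℝ) := by exact_mod_cast hG2 i
      linarith
    · obtain ⟨G, hG1, hG2, hG3⟩ := yao3 hN (Pr k r n) (by positivity) (by linarith) Gr hcol
        hbad P A hA hmeas
      refine ⟨G, hG1, ?_, ?_⟩
      · refine (ENNReal.ofReal_le_ofReal ?_).trans (hG2.trans (measure_mono fun t ht => ?_))
        · rw [pow_succ]; linarith
        · have h4 : (K : ℝ) < ((A t).numColours G : ℝ) := by exact_mod_cast ht
          show br n r / (b : ℝ) ^ 2 ≤ ((A t).numColours G : ℝ)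
          linarith
      · refine (ENNReal.ofReal_le_ofReal ?_).trans hG3
        have hKK : (0 : ℝ) ≤ K := by positivity
        nlinarith
  · have hbd : br n r / (b : ℝ) ^ 2 ≤ 1 := by
      rw [div_le_one hb0]
      exact hge
    have h1 : ∀ (A : OnlineAlg) (G : SimpleGraph (Fin n)),
        br n r / (b : ℝ) ^ 2 ≤ (A.numColours G : ℝ) :=
      fun A G => hbd.trans (by exact_mod_cast one_le_numColours hn1 A G)
    refine ⟨fun A hA => ⟨⊥, bot_Pr hk, fun i => h1 _ _⟩, fun {Θ} _ P _ A hA hmeas =>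
      ⟨⊥, bot_Pr hk, ?_, ?_⟩⟩
    · have : {t | br n r / (b : ℝ) ^ 2 ≤
          ((A t).numColours (⊥ : SimpleGraph (Fin n)) : ℝ)} = Set.univ :=
        Set.eq_univ_of_forall fun t => h1 _ _
      rw [this, measure_univ]
      rw [← ENNReal.ofReal_one]
      exact ENNReal.ofReal_le_ofReal (by linarith)
    · calc ENNReal.ofReal (br n r / (b : ℝ) ^ 2) ≤ ENNReal.ofReal 1 :=
            ENNReal.ofReal_le_ofReal hbd
        _ = ∫⁻ _t, 1 ∂P := by simp
        _ ≤ ∫⁻ t, ((A t).numColours (⊥ : SimpleGraph (Fin n)) : ENNReal) ∂P := by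
            refine lintegral_mono fun t => ?_
            have h2 := one_le_numColours hn1 (A t) ⊥
            show (1 : ENNReal) ≤ ((A t).numColours (⊥ : SimpleGraph (Fin n)) : ENNReal)
            exact_mod_cast h2

theorem phi_lower3 : ∃ n₀ : ℕ, ∀ n : ℕ, n₀ ≤ n → ∀ k : ℕ, 3 ≤ k → k ≤ n →
    (n : ℝ) ^ (1 / ((logStar n : ℝ) - (logStar k : ℝ) + 7)) ≤ (phi k n : ℝ) := by
  classical
  obtain ⟨n₀, h0⟩ := main3.{0}
  obtain ⟨n₁, h1⟩ := level_small
  refine ⟨max n₀ n₁, fun n hn k hk hkn => ?_⟩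
  obtain ⟨A, hA, hle⟩ := Nat.sInf_mem (Pool.Agent.H64.OC.phi_set_nonempty k n)
  have hmono := logStar_mono hkn
  have h3 : (logStar n - logStar k + 5) ^ 3 ≤ Nat.log 2 n :=
    (Nat.pow_le_pow_left (by omega) 3).trans (h1 n ((le_max_right _ _).trans hn))
  obtain ⟨G, hG1, hG2⟩ := (h0 n ((le_max_left _ _).trans hn) k hk hkn
    (logStar n - logStar k + 5) (by omega) h3 1 le_rfl).1 (fun _ => A) (fun _ => hA)
  have h4 := hle G hG1.1
  have h5 := hG2 0
  have h6 : br n (logStar n - logStar k + 5) / ((1 : ℕ) : ℝ) ^ 2 =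
      (n : ℝ) ^ (1 / ((logStar n : ℝ) - (logStar k : ℝ) + 7)) := by
    unfold br
    rw [Nat.cast_add, Nat.cast_sub hmono]
    simp only [Nat.cast_one, one_pow, div_one]
    congr 2
    push_cast
    ring
  rw [h6] at h5
  refine h5.trans ?_
  exact_mod_cast h4

end Pool.Agent.H43.RO
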