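import Pool.Agent.H43.RO.GrK43

/-!
# On-line colouring: the graph of the oblivious random adversary, `k` colours (R5)
-/

set_option autoImplicit false

namespace Pool.Agent.H43.RO

variable {T m L h : ℕ} [NeZero m]

theorem GG_colorable_ofK {k : ℕ} (ω : Om T m L h)
    (hk : ∃ κ : Fin T → X m L → Fin k, ∀ u v x, Nb ω u v → Fresh ω u v →
      κ u (qq ω u v + sh x) ≠ κ v x) : (GG ω).Colorable k :=
  GG_col ω hk

end Pool.Agent.H43.RO
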