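import Pool.Agent.H43.RO.Com

/-!
# (T1) the potential bound

`Ψ(s) = ∑ b ∈ cols s, S s b`; one step adds the gain and erases at most `1 / m` in each of the
earlier blocks; as long as the blocks are good, every colour used at `v` is light, so
`S s b ≤ M + 1`.
-/

set_option autoImplicit false

namespace Pool.Agent.H43.RO

open Finset Classical

variable {T m L h : ℕ} [NeZero m] {c : Om T m L h → Fin T → X m L → ℕ}

private theorem upcard_pos : (0 : ℝ) < Fintype.card (X m L) := by
  exact_mod_cast Fintype.card_pos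

private theorem upD_nonneg (ω : Om T m L h) (s : ℕ) (u : Fin T) (b : ℕ) : 0 ≤ D c ω s u b := by
  unfold D; positivity

private theorem upF_nonneg (ω : Om T m L h) (v : Fin T) (b : ℕ) : 0 ≤ F c ω v b := by
  unfold F; positivity

private theorem upF_le_one (ω : Om T m L h) (v : Fin T) (b : ℕ) : F c ω v b ≤ 1 := by
  unfold F
  rw [div_le_one upcard_pos]
  exact_mod_cast Finset.card_le_univ _

private theorem upF_eq_zero (ω : Om T m L h) (v : Fin T) (b : ℕ) (hb : ∀ x, c ω v x ≠ b) :
    F c ω v b = 0 := by
  unfold F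
  rw [Finset.filter_false_of_mem (fun x _ => hb x)]
  simp

private theorem upD_anti (ω : Om T m L h) {s s' : ℕ} (hs : s ≤ s') (u : Fin T) (b : ℕ) :
    D c ω s' u b ≤ D c ω s u b := by
  unfold D
  refine div_le_div_of_nonneg_right ?_ upcard_pos.le
  exact_mod_cast Finset.card_le_card (fun y hy => by
    rw [Finset.mem_filter] at hy ⊢
    exact ⟨hy.1, hy.2.1, fun v' h1 h2 => hy.2.2 v' h1 (h2.trans_le hs)⟩)

private theorem upD_self (ω : Om T m L h) (v : Fin T) (b : ℕ) :
    D c ω (v.val + 1) v b = F c ω v b := by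
  unfold D F
  congr 3
  ext y
  simp only [Finset.mem_filter, Finset.mem_univ, true_and, and_iff_left_iff_imp]
  intro _ v' h1 h2
  exfalso
  have : v.val < v'.val := h1
  omega

/-- the uperased mass -/
private theorem uperased (ω : Om T m L h) (u v : Fin T) (B : Finset ℕ) :
    ∑ b ∈ B, (D c ω v u b - D c ω (v.val + 1) u b) ≤ 1 / m := by
  have key : ∀ b : ℕ, D c ω v u b - D c ω (v.val + 1) u b ≤
      (∑ y : X m L, if c ω u y = b ∧ y 0 = qq ω u v 0 then (1 : ℝ) else 0) /
        Fintype.card (X m L) := by
    intro b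
    unfold D
    rw [← sub_div]
    refine div_le_div_of_nonneg_right ?_ upcard_pos.le
    rw [Finset.card_filter, Finset.card_filter]
    push_cast
    rw [← Finset.sum_sub_distrib]
    refine Finset.sum_le_sum fun y _ => ?_
    by_cases h1 : c ω u y = b
    · by_cases h2 : ∀ v' : Fin T, u < v' → v'.val < v.val → qq ω u v' 0 ≠ y 0
      · by_cases h3 : y 0 = qq ω u v 0
        · have hB : (if c ω u y = b ∧ y 0 = qq ω u v 0 then (1 : ℝ) else 0) = 1 :=
            if_pos ⟨h1, h3⟩
          rw [hB]
          split_ifs <;> norm_num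
        · rw [if_pos ⟨h1, h2⟩, if_pos, if_neg (fun h => h3 h.2)]
          · norm_num
          · refine ⟨h1, fun v' k1 k2 => ?_⟩
            rcases Nat.lt_succ_iff_lt_or_eq.mp k2 with k | k
            · exact h2 v' k1 k
            · have : v' = v := Fin.ext k
              subst this
              exact fun h => h3 h.symm
      · rw [if_neg (fun h => h2 h.2)]
        split_ifs <;> norm_num
    · rw [if_neg (fun h => h1 h.1), if_neg (fun h => h1 h.1), if_neg (fun h => h1 h.1)]
      norm_num
  refine (Finset.sum_le_sum fun b _ => key b).trans ?_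
  rw [← Finset.sum_div, Finset.sum_comm]
  have h2 : ∑ y : X m L, ∑ b ∈ B, (if c ω u y = b ∧ y 0 = qq ω u v 0 then (1 : ℝ) else 0) ≤
      ∑ y : X m L, (if y 0 = qq ω u v 0 then (1 : ℝ) else 0) := by
    refine Finset.sum_le_sum fun y _ => ?_
    by_cases h3 : y 0 = qq ω u v 0
    · simp only [h3, and_true, if_true]
      rw [Finset.sum_ite_eq]
      split_ifs <;> norm_num
    · simp [h3]
  have h3 : ∑ y : X m L, (if y 0 = qq ω u v 0 then (1 : ℝ) else 0) = (m : ℝ) ^ L := by
    rw [Finset.sum_boole]
    have := Fintype.card_filter_piFinset_const_eq_of_mem (Finset.univ : Finset (ZMod m))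
      (0 : Fin (L + 1)) (Finset.mem_univ (qq ω u v 0))
    rw [Fintype.piFinset_univ] at this
    rw [this, Finset.card_univ, ZMod.card, Fintype.card_fin]
    simp
  have h4 : (Fintype.card (X m L) : ℝ) = (m : ℝ) ^ L * m := by
    rw [Fintype.card_fun, ZMod.card, Fintype.card_fin, pow_succ]
    push_cast
    ring
  have hm : (0 : ℝ) < m := by exact_mod_cast Nat.pos_of_ne_zero (NeZero.ne m)
  rw [h3] at h2
  rw [h4, div_le_div_iff₀ (by positivity) hm]
  nlinarith

private theorem upW_succ (ω : Om T m L h) (v : Fin T) (b : ℕ) (t : Fin h × Bool) :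
    W c ω (v.val + 1) b t =
      ∑ u ∈ univ.filter (fun u : Fin T => u.val < v.val ∧ ty ω u = t), D c ω (v.val + 1) u b +
        (if ty ω v = t then F c ω v b else 0) := by
  unfold W
  rw [Finset.sum_filter, Finset.sum_filter]
  have : (if ty ω v = t then F c ω v b else 0) =
      ∑ u : Fin T, if u = v then (if ty ω v = t then F c ω v b else 0) else 0 := by
    rw [Finset.sum_ite_eq' Finset.univ v, if_pos (Finset.mem_univ v)]
  rw [this, ← Finset.sum_add_distrib]
  refine Finset.sum_congr rfl fun u _ => ?_
  rcases lt_trichotomy u.val v.val with h1 | h1 | h1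
  · have h2 : u ≠ v := fun h => by rw [h] at h1; exact lt_irrefl _ h1
    rw [if_neg h2, add_zero]
    congr 1
    simp only [eq_iff_iff]
    constructor
    · exact fun h => ⟨h1, h.2⟩
    · exact fun h => ⟨by omega, h.2⟩
  · have h2 : u = v := Fin.ext h1
    subst h2
    have h3 : ¬ (u.val < u.val ∧ ty ω u = t) := fun h => lt_irrefl _ h.1
    have h4 : (u.val < u.val + 1 ∧ ty ω u = t) = (ty ω u = t) := by simp
    rw [if_pos rfl, if_neg h3, zero_add, upD_self]
    simp only [h4]
  · have h2 : u ≠ v := fun h => by rw [h] at h1; exact lt_irrefl _ h1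
    rw [if_neg h2, if_neg (fun h => by omega), if_neg (fun h => by omega), add_zero]

private theorem upW_nonneg (ω : Om T m L h) (s : ℕ) (b : ℕ) (t : Fin h × Bool) :
    0 ≤ W c ω s b t := by
  unfold W
  exact Finset.sum_nonneg fun u _ => upD_nonneg ω s u b

private theorem upS_nonneg {θ : ℝ} (hθ : 0 ≤ θ) (ω : Om T m L h) (s : ℕ) (b : ℕ) :
    0 ≤ S θ c ω s b := by
  unfold S
  exact Finset.sum_nonneg fun t _ => le_min (upW_nonneg ω s b t) hθ

/-- upper bound for one step -/
private theorem upS_succ_le {θ : ℝ} (ω : Om T m L h) (v : Fin T) (b : ℕ) :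
    S θ c ω (v.val + 1) b ≤ S θ c ω v b + F c ω v b := by
  unfold S
  have : F c ω v b = ∑ t : Fin h × Bool, if ty ω v = t then F c ω v b else 0 := by
    rw [Finset.sum_ite_eq Finset.univ (ty ω v), if_pos (Finset.mem_univ _)]
  rw [this, ← Finset.sum_add_distrib]
  refine Finset.sum_le_sum fun t _ => ?_
  rw [upW_succ]
  have h1 : ∑ u ∈ univ.filter (fun u : Fin T => u.val < v.val ∧ ty ω u = t),
      D c ω (v.val + 1) u b ≤ W c ω v b t := by
    unfold W
    exact Finset.sum_le_sum fun u _ => upD_anti ω (Nat.le_succ _) u b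
  have h2 : (0 : ℝ) ≤ if ty ω v = t then F c ω v b else 0 := by
    split_ifs
    · exact upF_nonneg ω v b
    · exact le_rfl
  rcases le_total (W c ω v b t) θ with h3 | h3
  · rw [min_eq_left h3]
    exact (min_le_left _ _).trans (by linarith)
  · rw [min_eq_right h3]
    exact (min_le_right _ _).trans (by linarith)

/-- lower bound for one step -/
private theorem upS_succ_ge {θ : ℝ} (ω : Om T m L h) (v : Fin T) (b : ℕ) :
    S θ c ω v b + (min (W c ω v b (ty ω v) + F c ω v b) θ - min (W c ω v b (ty ω v)) θ) -
      ∑ u ∈ univ.filter (fun u : Fin T => u.val < v.val),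
        (D c ω v u b - D c ω (v.val + 1) u b) ≤ S θ c ω (v.val + 1) b := by
  unfold S
  have e1 : (min (W c ω v b (ty ω v) + F c ω v b) θ - min (W c ω v b (ty ω v)) θ) =
      ∑ t : Fin h × Bool, if ty ω v = t then
        (min (W c ω v b t + F c ω v b) θ - min (W c ω v b t) θ) else 0 := by
    rw [Finset.sum_ite_eq Finset.univ (ty ω v), if_pos (Finset.mem_univ _)]
  have e2 : ∑ u ∈ univ.filter (fun u : Fin T => u.val < v.val),
        (D c ω v u b - D c ω (v.val + 1) u b) =
      ∑ t : Fin h × Bool, ∑ u ∈ univ.filter (fun u : Fin T => u.val < v.val ∧ ty ω u = t),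
        (D c ω v u b - D c ω (v.val + 1) u b) := by
    rw [← Finset.sum_fiberwise (univ.filter (fun u : Fin T => u.val < v.val)) (ty ω)]
    refine Finset.sum_congr rfl fun t _ => ?_
    rw [Finset.filter_filter]
  rw [e1, e2, ← Finset.sum_add_distrib, ← Finset.sum_sub_distrib]
  refine Finset.sum_le_sum fun t _ => ?_
  rw [upW_succ, Finset.sum_sub_distrib]
  have e3 : ∑ u ∈ univ.filter (fun u : Fin T => u.val < v.val ∧ ty ω u = t), D c ω v u b =
      W c ω v b t := rfl
  rw [e3]
  set a := ∑ u ∈ univ.filter (fun u : Fin T => u.val < v.val ∧ ty ω u = t),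
    D c ω (v.val + 1) u b with ha
  have h1 : a ≤ W c ω v b t := by
    rw [ha]
    unfold W
    exact Finset.sum_le_sum fun u _ => upD_anti ω (Nat.le_succ _) u b
  by_cases h2 : ty ω v = t
  · rw [if_pos h2, if_pos h2]
    have : min (W c ω v b t + F c ω v b) θ - (W c ω v b t - a) ≤ min (a + F c ω v b) θ := by
      refine le_min ?_ ?_
      · have := min_le_left (W c ω v b t + F c ω v b) θ
        linarith
      · have := min_le_right (W c ω v b t + F c ω v b) θ
        linarith
    linarith
  · rw [if_neg h2, if_neg h2, add_zero, add_zero]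
    refine le_min ?_ ?_
    · have := min_le_left (W c ω v b t) θ
      linarith
    · have := min_le_right (W c ω v b t) θ
      linarith

private theorem upcols_mono (ω : Om T m L h) {s s' : ℕ} (hs : s ≤ s') :
    cols c ω s ⊆ cols c ω s' := by
  unfold cols
  refine Finset.biUnion_subset_biUnion_of_subset_left _ fun v hv => ?_
  rw [Finset.mem_filter] at hv ⊢
  exact ⟨hv.1, hv.2.trans_le hs⟩

private theorem upgood_mono {θ M : ℝ} {K : ℕ} {ω : Om T m L h} {v w : Fin T} (hw : w ≤ v)
    (hv : Good θ M K c ω v) : Good θ M K c ω w :=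
  ⟨fun z hz => hv.1 z (hz.trans hw),
    (Finset.card_le_card (upcols_mono ω (Nat.succ_le_succ hw))).trans hv.2⟩

private noncomputable def upPsi (θ : ℝ) (c : Om T m L h → Fin T → X m L → ℕ) (ω : Om T m L h)
    (s : ℕ) : ℝ := ∑ b ∈ cols c ω s, S θ c ω s b

private theorem upPsi_step {θ : ℝ} (hθ : 0 ≤ θ) (ω : Om T m L h) (v : Fin T) :
    upPsi θ c ω v + gain θ c ω v - T / m ≤ upPsi θ c ω (v.val + 1) := by
  have hm : (0 : ℝ) < m := by exact_mod_cast Nat.pos_of_ne_zero (NeZero.ne m)
  have h1 : ∑ b ∈ cols c ω (v.val + 1), (S θ c ω v b +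
      (min (W c ω v b (ty ω v) + F c ω v b) θ - min (W c ω v b (ty ω v)) θ) -
      ∑ u ∈ univ.filter (fun u : Fin T => u.val < v.val),
        (D c ω v u b - D c ω (v.val + 1) u b)) ≤ upPsi θ c ω (v.val + 1) := by
    unfold upPsi
    exact Finset.sum_le_sum fun b _ => upS_succ_ge ω v b
  rw [Finset.sum_sub_distrib, Finset.sum_add_distrib] at h1
  have h2 : upPsi θ c ω v ≤ ∑ b ∈ cols c ω (v.val + 1), S θ c ω v b := by
    unfold upPsi
    exact Finset.sum_le_sum_of_subset_of_nonneg (upcols_mono ω (Nat.le_succ _))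
      fun b _ _ => upS_nonneg hθ ω v b
  have h3 : ∑ b ∈ cols c ω (v.val + 1), ∑ u ∈ univ.filter (fun u : Fin T => u.val < v.val),
        (D c ω v u b - D c ω (v.val + 1) u b) ≤ T / m := by
    rw [Finset.sum_comm]
    calc ∑ u ∈ univ.filter (fun u : Fin T => u.val < v.val),
          ∑ b ∈ cols c ω (v.val + 1), (D c ω v u b - D c ω (v.val + 1) u b)
        ≤ ∑ u ∈ univ.filter (fun u : Fin T => u.val < v.val), (1 / m : ℝ) :=
          Finset.sum_le_sum fun u _ => uperased ω u v _
      _ = (univ.filter (fun u : Fin T => u.val < v.val)).card * (1 / m : ℝ) := by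
          rw [Finset.sum_const, nsmul_eq_mul]
      _ ≤ T * (1 / m : ℝ) := by
          refine mul_le_mul_of_nonneg_right ?_ (by positivity)
          exact_mod_cast (Finset.card_le_univ _).trans (Fintype.card_fin T).le
      _ = T / m := by ring
  have h4 : gain θ c ω v = ∑ b ∈ cols c ω (v.val + 1),
      (min (W c ω v b (ty ω v) + F c ω v b) θ - min (W c ω v b (ty ω v)) θ) := rfl
  rw [h4]
  linarith

theorem upper {θ M : ℝ} (hc : Play c) (hθ : 0 ≤ θ) (hM : 0 < M) (K : ℕ) :
    UpperStmt θ M K c := by
  intro ω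
  have hm : (0 : ℝ) < m := by exact_mod_cast Nat.pos_of_ne_zero (NeZero.ne m)
  have hTm : (0 : ℝ) ≤ T / m := by positivity
  have hKM : (0 : ℝ) ≤ K * (M + 1) := by positivity
  have main : ∀ s : ℕ, s ≤ T →
      (∑ v ∈ univ.filter (fun v : Fin T => v.val < s), gainG θ M K c ω v ≤
        K * (M + 1) + s * (T / m)) ∧
      ((∀ v : Fin T, v.val < s → Good θ M K c ω v) →
        (∑ v ∈ univ.filter (fun v : Fin T => v.val < s), gainG θ M K c ω v ≤
          upPsi θ c ω s + s * (T / m)) ∧ ∀ b, S θ c ω s b ≤ M + 1) := by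
    intro s
    induction s with
    | zero =>
      intro _
      have e : univ.filter (fun v : Fin T => v.val < 0) = ∅ := by
        ext v; simp
      refine ⟨?_, fun _ => ⟨?_, fun b => ?_⟩⟩
      · rw [e]; simpa using hKM
      · rw [e]
        simp only [Finset.sum_empty, Nat.cast_zero, zero_mul, add_zero]
        unfold upPsi
        exact Finset.sum_nonneg fun b _ => upS_nonneg hθ ω _ b
      · unfold S W
        have e' : ∀ t : Fin h × Bool,
            univ.filter (fun u : Fin T => u.val < 0 ∧ ty ω u = t) = ∅ := by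
          intro t; ext v; simp
        simp only [e', Finset.sum_empty, min_eq_left hθ, Finset.sum_const_zero]
        linarith
    | succ s ih =>
      intro hs
      obtain ⟨i1, i2⟩ := ih (by omega)
      set v : Fin T := ⟨s, by omega⟩ with hv
      have hvs : v.val = s := rfl
      have e : univ.filter (fun w : Fin T => w.val < s + 1) =
          insert v (univ.filter (fun w : Fin T => w.val < s)) := by
        ext w
        simp only [Finset.mem_filter, Finset.mem_univ, true_and, Finset.mem_insert, Fin.ext_iff]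
        omega
      have e' : ∑ w ∈ univ.filter (fun w : Fin T => w.val < s + 1), gainG θ M K c ω w =
          gainG θ M K c ω v + ∑ w ∈ univ.filter (fun w : Fin T => w.val < s),
            gainG θ M K c ω w := by
        rw [e, Finset.sum_insert]
        simp [hvs]
      rw [e']
      push_cast
      by_cases hg : Good θ M K c ω v
      · have hg' : gainG θ M K c ω v = gain θ c ω v := by
          unfold gainG; rw [if_pos hg]
        have hall : ∀ w : Fin T, w.val < s → Good θ M K c ω w := fun w hw =>
          upgood_mono (by rw [Fin.le_def, hvs]; exact hw.le) hg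
        obtain ⟨j1, j2⟩ := i2 hall
        have h1 := upPsi_step hθ ω v (c := c)
        rw [hvs] at h1
        have h2 : ∀ b, S θ c ω (s + 1) b ≤ M + 1 := by
          intro b
          have h3 := upS_succ_le (θ := θ) (c := c) ω v b
          rw [hvs] at h3
          by_cases hb : ∃ x, c ω v x = b
          · obtain ⟨x, rfl⟩ := hb
            have h4 := S_lt_of_used hc hM (hg.1 v le_rfl).1 (hg.1 v le_rfl).2 x
            rw [hvs] at h4
            have h5 := upF_le_one (c := c) ω v (c ω v x)
            linarith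
          · push Not at hb
            rw [upF_eq_zero ω v b hb, add_zero] at h3
            exact h3.trans (j2 b)
        have h3 : gainG θ M K c ω v + ∑ w ∈ univ.filter (fun w : Fin T => w.val < s),
            gainG θ M K c ω w ≤ upPsi θ c ω (s + 1) + (s + 1) * (T / m) := by
          rw [hg']
          linarith
        refine ⟨?_, fun _ => ⟨h3, h2⟩⟩
        have h4 : upPsi θ c ω (s + 1) ≤ K * (M + 1) := by
          unfold upPsi
          calc ∑ b ∈ cols c ω (s + 1), S θ c ω (s + 1) b
              ≤ ∑ b ∈ cols c ω (s + 1), (M + 1) := Finset.sum_le_sum fun b _ => h2 b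
            _ = (cols c ω (s + 1)).card * (M + 1) := by rw [Finset.sum_const, nsmul_eq_mul]
            _ ≤ K * (M + 1) := by
                refine mul_le_mul_of_nonneg_right ?_ (by linarith)
                exact_mod_cast hg.2
        linarith
      · have hg' : gainG θ M K c ω v = 0 := by
          unfold gainG; rw [if_neg hg]
        rw [hg', zero_add]
        refine ⟨by linarith, fun hall => absurd (hall v (Nat.lt_succ_self s)) hg⟩
  have h1 := (main T le_rfl).1
  have e : univ.filter (fun v : Fin T => v.val < T) = univ := by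
    ext v; simp
  rw [e] at h1
  calc ∑ v : Fin T, gainG θ M K c ω v ≤ K * (M + 1) + T * (T / m) := h1
    _ = K * (M + 1) + (T : ℝ) ^ 2 / m := by ring

end Pool.Agent.H43.RO
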