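import Pool.Agent.H43.RO.Def
import Pool.Agent.H64.OC2.Uniform

/-!
# On-line colouring: from a random graph to randomised algorithms
-/

set_option autoImplicit false

namespace Pool.Agent.H43.RO

open Finset
open Pool.Agent.H64.OC (OnlineAlg initial)
open Pool.Agent.H64.OC2 (resize resize_colorable initial_resize)
open scoped ENNReal

/-- more vertices, more colours -/
theorem numColours_resize {N n : ℕ} (hN : N ≤ n) (A : OnlineAlg) (G : SimpleGraph (Fin N)) :
    A.numColours G ≤ A.numColours (resize G n) := by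
  classical
  unfold OnlineAlg.numColours
  refine Finset.card_le_card ?_
  intro c hc
  rw [mem_image] at hc ⊢
  obtain ⟨s, _, rfl⟩ := hc
  refine ⟨⟨s.val, s.isLt.trans_le hN⟩, mem_univ _, ?_⟩
  unfold OnlineAlg.colour
  rw [initial_resize G n s.isLt (s.isLt.trans_le hN)]

/-- T9, probability version: a random 3-colourable graph on which every deterministic algorithm
uses more than `K` colours with probability at least `1 / 2` gives, for every random algorithm, one
graph on which it uses more than `K` colours with probability at least `1 / 2`. -/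
theorem yao_prob {Ω : Type} [Fintype Ω] [Nonempty Ω] {N n K k : ℕ} (hN : N ≤ n) (hk : 3 ≤ k)
    (Gr : Ω → SimpleGraph (Fin N)) (hcol : ∀ ω, (Gr ω).Colorable 3)
    (hbad : ∀ A : OnlineAlg, A.Proper →
      2 * Fintype.card {ω // A.numColours (Gr ω) ≤ K} ≤ Fintype.card Ω)
    {Θ : Type*} [MeasurableSpace Θ] (P : MeasureTheory.Measure Θ)
    [MeasureTheory.IsProbabilityMeasure P] (A : Θ → OnlineAlg) (hA : ∀ t, (A t).Proper)
    (hmeas : ∀ G : SimpleGraph (Fin n), Measurable fun t => (A t).numColours G) :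
    ∃ G : SimpleGraph (Fin n), G.Colorable k ∧
      (1 / 2 : ENNReal) ≤ P {t | K < (A t).numColours G} := by
  classical
  by_contra hcon
  push Not at hcon
  set E : Ω → Set Θ := fun ω => {t | K < (A t).numColours (resize (Gr ω) n)} with hE
  have hmE : ∀ ω, MeasurableSet (E ω) := fun ω => (hmeas _) (measurableSet_Ioi (a := K))
  have h1 : ∀ ω, P (E ω) < 1 / 2 := fun ω =>
    hcon _ ((resize_colorable (by norm_num) (hcol ω) n).mono hk)
  have h2 : ∑ ω, P (E ω) < ∑ _ω : Ω, (1 / 2 : ENNReal) :=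
    ENNReal.sum_lt_sum_of_nonempty Finset.univ_nonempty fun ω _ => h1 ω
  have h5 : ∑ ω, P (E ω) = ∫⁻ t, ∑ ω, (E ω).indicator 1 t ∂P := by
    rw [MeasureTheory.lintegral_finsetSum _ fun ω _ => measurable_one.indicator (hmE ω)]
    refine Finset.sum_congr rfl fun ω _ => ?_
    rw [MeasureTheory.lintegral_indicator_one (hmE ω)]
  have h3 : ∀ t, ∑ _ω : Ω, (1 / 2 : ENNReal) ≤ ∑ ω, (E ω).indicator (1 : Θ → ENNReal) t := by
    intro t
    have e0 := hbad (A t) (hA t)
    rw [Fintype.card_subtype] at e0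
    have e1 := Finset.card_filter_add_card_filter_not (s := (univ : Finset Ω))
      (fun ω => (A t).numColours (Gr ω) ≤ K)
    rw [Finset.card_univ] at e1
    have e2 : (univ.filter fun ω => ¬ (A t).numColours (Gr ω) ≤ K).card ≤
        (univ.filter fun ω => t ∈ E ω).card := by
      refine Finset.card_le_card fun ω hω => ?_
      rw [mem_filter] at hω ⊢
      refine ⟨mem_univ _, ?_⟩
      have := numColours_resize hN (A t) (Gr ω)
      show K < _
      omega
    have e3 : Fintype.card Ω ≤ 2 * (univ.filter fun ω => t ∈ E ω).card := by omega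
    have e4 : ∑ ω, (E ω).indicator (1 : Θ → ENNReal) t =
        ((univ.filter fun ω => t ∈ E ω).card : ENNReal) := by
      simp only [Set.indicator_apply, Pi.one_apply]
      rw [Finset.sum_boole]
    rw [e4, Finset.sum_const, Finset.card_univ, nsmul_eq_mul, one_div, ← div_eq_mul_inv]
    refine ENNReal.div_le_of_le_mul ?_
    rw [mul_comm]
    exact_mod_cast e3
  have h4 : ∑ _ω : Ω, (1 / 2 : ENNReal) ≤ ∑ ω, P (E ω) := by
    rw [h5]
    calc ∑ _ω : Ω, (1 / 2 : ENNReal) = ∫⁻ _t, ∑ _ω : Ω, (1 / 2 : ENNReal) ∂P := by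
          rw [MeasureTheory.lintegral_const, MeasureTheory.measure_univ, mul_one]
      _ ≤ _ := MeasureTheory.lintegral_mono h3
  exact absurd h2 (not_lt.2 h4)

/-- T9, both versions with the same graph. -/
theorem yao {Ω : Type} [Fintype Ω] [Nonempty Ω] {N n K k : ℕ} (hN : N ≤ n) (hk : 3 ≤ k)
    (Gr : Ω → SimpleGraph (Fin N)) (hcol : ∀ ω, (Gr ω).Colorable 3)
    (hbad : ∀ A : OnlineAlg, A.Proper →
      2 * Fintype.card {ω // A.numColours (Gr ω) ≤ K} ≤ Fintype.card Ω)
    {Θ : Type*} [MeasurableSpace Θ] (P : MeasureTheory.Measure Θ)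
    [MeasureTheory.IsProbabilityMeasure P] (A : Θ → OnlineAlg) (hA : ∀ t, (A t).Proper)
    (hmeas : ∀ G : SimpleGraph (Fin n), Measurable fun t => (A t).numColours G) :
    ∃ G : SimpleGraph (Fin n), G.Colorable k ∧
      (1 / 2 : ENNReal) ≤ P {t | K < (A t).numColours G} ∧
      ENNReal.ofReal ((K + 1 : ℝ) / 2) ≤ ∫⁻ t, ((A t).numColours G : ENNReal) ∂P := by
  obtain ⟨G, hG, hP⟩ := yao_prob hN hk Gr hcol hbad P A hA hmeas
  refine ⟨G, hG, hP, ?_⟩
  have hm : Measurable fun t => ((A t).numColours G : ENNReal) :=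
    (measurable_from_top (f := fun k : ℕ => (k : ENNReal))).comp (hmeas _)
  have h1 := MeasureTheory.mul_meas_ge_le_lintegral (μ := P) hm ((K + 1 : ℕ) : ENNReal)
  have h2 : {t | ((K + 1 : ℕ) : ENNReal) ≤ ((A t).numColours G : ENNReal)} =
      {t | K < (A t).numColours G} := by
    ext t
    simp only [Set.mem_ofPred_eq, Nat.cast_le]
    omega
  rw [h2] at h1
  refine le_trans ?_ h1
  refine le_trans ?_ (mul_le_mul_right hP _)
  have h3 : ENNReal.ofReal ((K + 1 : ℝ) / 2) = ((K + 1 : ℕ) : ENNReal) * (1 / 2) := by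
    have : ((K + 1 : ℝ) / 2) = ((K + 1 : ℕ) : ℝ) * (1 / 2) := by push_cast; ring
    rw [this, ENNReal.ofReal_mul (by positivity), ENNReal.ofReal_natCast]
    congr 1
    rw [ENNReal.ofReal_div_of_pos (by norm_num)]
    simp
  rw [h3]

end Pool.Agent.H43.RO
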